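import Pool.Agent.H505PP.Defs

/-! AJ (helper240). -/

set_option autoImplicit false

namespace Pool.Agent.H505PP

open scoped BigOperators
open Finset

namespace AJ

theorem nc {α : Type*} [Fintype α] (P : α → Prop) [DecidablePred P] :
    Set.ncard {x | P x} = (univ.filter P).card := by
  rw [← Set.ncard_coe_finset]
  congr 1
  ext x
  simp

theorem fib (N q : ℕ) [NeZero N] [NeZero q] (h : q ∣ N) (T : Finset (ZMod q)) :
    (univ.filter fun x : ZMod N => (ZMod.cast x : ZMod q) ∈ T).card * q = N * T.card := by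
  classical
  let φ : ZMod N →+ ZMod q := (ZMod.castHom h (ZMod q)).toAddMonoidHom
  have hφ : ∀ x, φ x = (ZMod.cast x : ZMod q) := fun x => rfl
  have hs : Function.Surjective φ := ZMod.castHom_surjective h
  have hc : ∀ z : ZMod q, (univ.filter fun x : ZMod N => φ x = z).card =
      (univ.filter fun x : ZMod N => φ x = 0).card := fun z =>
    AddMonoidHom.card_fiber_eq_of_mem_range φ (hs z) (hs 0)
  generalize (univ.filter fun x : ZMod N => φ x = 0).card = c at hc
  have h1 : ∀ T : Finset (ZMod q), (univ.filter fun x : ZMod N => (ZMod.cast x : ZMod q) ∈ T).card =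
      T.card * c := by
    intro T
    rw [Finset.card_eq_sum_card_fiberwise (f := φ) (t := T)]
    · rw [Finset.sum_congr rfl (g := fun _ => c), Finset.sum_const, smul_eq_mul]
      intro z hz
      rw [← hc z, Finset.filter_filter]
      congr 1
      ext x
      simp only [Finset.mem_filter, Finset.mem_univ, true_and]
      constructor
      · exact fun h => h.2
      · exact fun h => ⟨by rw [← hφ, h]; exact hz, h⟩
    · intro x hx
      exact (Finset.mem_filter.1 hx).2
  have h2 := h1 univ
  have h3 : (univ.filter fun x : ZMod N => (ZMod.cast x : ZMod q) ∈ (univ : Finset (ZMod q))) =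
      univ := by
    ext x; simp
  rw [h3, Finset.card_univ, Finset.card_univ, ZMod.card, ZMod.card] at h2
  rw [h1 T, h2]
  ring

end AJ

theorem t_AJ : S_AJ := by
  classical
  intro p σ R hC J
  have hp : ∀ i, (p i).Prime := hC.pr
  haveI : ∀ i, NeZero (p i) := fun i => ⟨(hp i).ne_zero⟩
  have hNpos : 0 < PP p J := Finset.prod_pos fun i _ => (hp i).pos
  haveI : NeZero (PP p J) := ⟨hNpos.ne'⟩
  have hdvd : ∀ i < J, p i ∣ PP p J := fun i hi => Finset.dvd_prod_of_mem p (mem_range.2 hi)
  generalize PP p J = N at *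
  let s : ℕ → ZMod N → ℤ := fun i x => σ i (ZMod.cast x)
  have hs : ∀ i x, s i x = σ i (ZMod.cast x) := fun _ _ => rfl
  have hval : ∀ i x, s i x = 0 ∨ s i x = 1 ∨ s i x = -1 := fun i x => hC.val i _
  have hNR : (0 : ℝ) < N := by exact_mod_cast hNpos
  -- zeros of one sign function
  have hz : ∀ i < J, ((univ.filter fun x : ZMod N => s i x = 0).card : ℝ) ≤
      (1 / 4) ^ (i + 1) * N := by
    intro i hi
    have h1 := AJ.fib N (p i) (hdvd i hi) (univ.filter fun z => σ i z = 0)
    have h2 : (univ.filter fun x : ZMod N => (ZMod.cast x : ZMod (p i)) ∈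
        (univ.filter fun z => σ i z = 0)) = univ.filter fun x : ZMod N => s i x = 0 := by
      ext x; simp [hs]
    rw [h2] at h1
    have h3 := hC.zer i
    rw [AJ.nc] at h3
    have hpp : (0 : ℝ) < p i := by exact_mod_cast (hp i).pos
    have h4 : ((univ.filter fun x : ZMod N => s i x = 0).card : ℝ) * p i =
        N * ((univ.filter fun z => σ i z = 0).card : ℝ) := by exact_mod_cast h1
    have h5 : ((univ.filter fun x : ZMod N => s i x = 0).card : ℝ) * p i ≤
        ((1 / 4) ^ (i + 1) * N) * p i := by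
      rw [h4]
      calc (N : ℝ) * ((univ.filter fun z => σ i z = 0).card : ℝ)
          ≤ N * ((1 / 4) ^ (i + 1) * p i) := mul_le_mul_of_nonneg_left h3 hNR.le
        _ = _ := by ring
    exact le_of_mul_le_mul_right h5 hpp
  -- the bad set
  have hgeo : ∀ J : ℕ, ∑ i ∈ range J, ((1 : ℝ) / 4) ^ (i + 1) ≤ 1 / 3 := by
    intro J
    have h1 : ∑ i ∈ range J, ((1 : ℝ) / 4) ^ (i + 1) = 1 / 3 * (1 - (1 / 4) ^ J) := by
      induction J with
      | zero => simp
      | succ J ih => rw [Finset.sum_range_succ, ih]; ring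
    rw [h1]
    have h2 : (0 : ℝ) ≤ (1 / 4) ^ J := by positivity
    linarith
  have hbad : ((univ.filter fun x : ZMod N => ∃ i < J, s i x = 0).card : ℝ) ≤ 1 / 3 * N := by
    have h1 : (univ.filter fun x : ZMod N => ∃ i < J, s i x = 0) ⊆
        (range J).biUnion fun i => univ.filter fun x : ZMod N => s i x = 0 := by
      intro x hx
      obtain ⟨i, hi, hx⟩ := (Finset.mem_filter.1 hx).2
      exact Finset.mem_biUnion.2 ⟨i, mem_range.2 hi, by simp [hx]⟩
    have h2 := (Finset.card_le_card h1).trans Finset.card_biUnion_le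
    calc ((univ.filter fun x : ZMod N => ∃ i < J, s i x = 0).card : ℝ)
        ≤ ((∑ i ∈ range J, (univ.filter fun x : ZMod N => s i x = 0).card : ℕ) : ℝ) := by
          exact_mod_cast h2
      _ = ∑ i ∈ range J, ((univ.filter fun x : ZMod N => s i x = 0).card : ℝ) := by push_cast; rfl
      _ ≤ ∑ i ∈ range J, (1 / 4) ^ (i + 1) * (N : ℝ) :=
          Finset.sum_le_sum fun i hi => hz i (mem_range.1 hi)
      _ = (∑ i ∈ range J, ((1 : ℝ) / 4) ^ (i + 1)) * N := by rw [Finset.sum_mul]
      _ ≤ 1 / 3 * N := mul_le_mul_of_nonneg_right (hgeo J) hNR.le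
  let P : ZMod N → ℤ := fun x => ∏ i ∈ range J, s i x
  have hP : ∀ x, (∀ i < J, s i x ≠ 0) → P x = 1 ∨ P x = -1 := by
    intro x hx
    have : ∀ K ≤ J, (∏ i ∈ range K, s i x) = 1 ∨ (∏ i ∈ range K, s i x) = -1 := by
      intro K
      induction K with
      | zero => intro _; left; simp
      | succ K ih =>
        intro hK
        rw [Finset.prod_range_succ]
        have h1 := hval K x
        have h2 := hx K (by omega)
        rcases ih (by omega) with h3 | h3 <;> rcases h1 with h1 | h1 | h1
        · exact absurd h1 h2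
        · left; rw [h3, h1]; norm_num
        · right; rw [h3, h1]; norm_num
        · exact absurd h1 h2
        · right; rw [h3, h1]; norm_num
        · left; rw [h3, h1]; norm_num
    exact this J le_rfl
  -- the key property
  have key : ∀ ε : ℤ, ∀ i < J, ∀ r ∈ R i, ∀ x,
      ¬ (((∀ m < J, s m x ≠ 0) ∧ P x = ε) ∧
        ((∀ m < J, s m (x + ((r ^ 2 : ℕ) : ZMod N)) ≠ 0) ∧
          P (x + ((r ^ 2 : ℕ) : ZMod N)) = ε)) := by
    rintro ε i hi r hr x ⟨⟨h1, h2⟩, h3, h4⟩
    have hcast : ∀ m < J, (ZMod.cast (x + ((r ^ 2 : ℕ) : ZMod N)) : ZMod (p m)) =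
        ZMod.cast x + ((r ^ 2 : ℕ) : ZMod (p m)) := by
      intro m hm
      rw [ZMod.cast_add (hdvd m hm), ZMod.cast_natCast (hdvd m hm)]
    have hrel : ∀ m ∈ range J, s m (x + ((r ^ 2 : ℕ) : ZMod N)) =
        (if m = i then -1 else 1) * s m x := by
      intro m hm
      have hm' := mem_range.1 hm
      have a1 := h1 m hm'
      have a2 := h3 m hm'
      have b1 := hval m x
      have b2 := hval m (x + ((r ^ 2 : ℕ) : ZMod N))
      rcases lt_trichotomy m i with hmi | hmi | hmi
      · rw [if_neg (by omega), one_mul, hs, hs, hcast m hm']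
        have c1 : p m ∣ r ^ 2 := by
          have c2 : p m ∣ PP p i := Finset.dvd_prod_of_mem p (mem_range.2 hmi)
          exact (c2.trans (hC.div i r hr).1).trans (dvd_pow_self r two_ne_zero)
        rw [(ZMod.natCast_eq_zero_iff _ _).2 c1, add_zero]
      · subst hmi
        rw [if_pos rfl]
        have c1 := hC.flip m r hr (ZMod.cast x) a1
        rw [← hcast m hm', ← hs, ← hs] at c1
        omega
      · rw [if_neg (by omega), one_mul]
        have c1 := hC.stay i m hmi r hr (ZMod.cast x) a1
        rw [← hcast m hm', ← hs, ← hs] at c1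
        omega
    have hprod : P (x + ((r ^ 2 : ℕ) : ZMod N)) = - P x := by
      show ∏ m ∈ range J, s m (x + ((r ^ 2 : ℕ) : ZMod N)) = - ∏ m ∈ range J, s m x
      rw [Finset.prod_congr rfl hrel, Finset.prod_mul_distrib, Finset.prod_ite_eq',
        if_pos (mem_range.2 hi)]
      ring
    rcases hP x h1 with h5 | h5 <;> omega
  -- one of the two classes is large
  have hsum : (N : ℝ) = ((univ.filter fun x : ZMod N => ∃ i < J, s i x = 0).card : ℝ) +
      ((univ.filter fun x : ZMod N => (∀ m < J, s m x ≠ 0) ∧ P x = 1).card : ℝ) +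
      ((univ.filter fun x : ZMod N => (∀ m < J, s m x ≠ 0) ∧ P x = -1).card : ℝ) := by
    have h0 : (univ : Finset (ZMod N)).card = (univ.filter fun x : ZMod N => ∃ i < J, s i x = 0).card +
        (univ.filter fun x : ZMod N => ¬ ∃ i < J, s i x = 0).card :=
      (Finset.card_filter_add_card_filter_not _).symm
    have h1 : (univ.filter fun x : ZMod N => ¬ ∃ i < J, s i x = 0).card =
        ((univ.filter fun x : ZMod N => ¬ ∃ i < J, s i x = 0).filter fun x => P x = 1).card +
        ((univ.filter fun x : ZMod N => ¬ ∃ i < J, s i x = 0).filter fun x => ¬ P x = 1).card :=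
      (Finset.card_filter_add_card_filter_not _).symm
    have h2 : ((univ.filter fun x : ZMod N => ¬ ∃ i < J, s i x = 0).filter fun x => P x = 1) =
        univ.filter fun x : ZMod N => (∀ m < J, s m x ≠ 0) ∧ P x = 1 := by
      ext x
      simp
    have h3 : ((univ.filter fun x : ZMod N => ¬ ∃ i < J, s i x = 0).filter fun x => ¬ P x = 1) =
        univ.filter fun x : ZMod N => (∀ m < J, s m x ≠ 0) ∧ P x = -1 := by
      ext x
      simp only [Finset.mem_filter, Finset.mem_univ, true_and, not_exists, not_and]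
      constructor
      · rintro ⟨a1, a2⟩
        have := hP x a1
        exact ⟨a1, by omega⟩
      · rintro ⟨a1, a2⟩
        exact ⟨a1, by omega⟩
    rw [h2, h3] at h1
    rw [h1, Finset.card_univ, ZMod.card] at h0
    have h4 : (N : ℝ) = _ := congrArg (Nat.cast : ℕ → ℝ) h0
    rw [h4]
    push_cast
    ring
  by_cases hbig : (1 / 4 : ℝ) * N ≤
      ((univ.filter fun x : ZMod N => (∀ m < J, s m x ≠ 0) ∧ P x = 1).card : ℝ)
  · refine ⟨fun x => (∀ m < J, s m x ≠ 0) ∧ P x = 1, ?_, key 1⟩
    rw [AJ.nc]
    exact hbig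
  · refine ⟨fun x => (∀ m < J, s m x ≠ 0) ∧ P x = -1, ?_, key (-1)⟩
    rw [AJ.nc]
    push Not at hbig
    linarith

end Pool.Agent.H505PP
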