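import Pool.Agent.H505PP.Defs

/-! Task ALG of project PP (helper505), by helper954. -/

set_option autoImplicit false

namespace Pool.Agent.H505PP

open scoped BigOperators
open Finset

theorem t_ALG : S_ALG := by
  classical
  intro m k q v hq
  have : NeZero q := ⟨by omega⟩
  rcases Nat.eq_zero_or_pos k with hk | hk
  · subst hk
    exact ⟨∅, fun _ => 1, by simp, fun _ _ => rfl, fun i => by simp⟩
  have : Nonempty (Fin k) := ⟨⟨0, hk⟩⟩
  set κ : Fin k → (Fin m → ZMod q) := fun l i => (v i l : ZMod q) with hκ
  set rep : (Fin m → ZMod q) → Fin k := Function.invFun κ with hrep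
  have hr : ∀ l, κ (rep (κ l)) = κ l := fun l => Function.invFun_eq ⟨l, rfl⟩
  set n : (Fin m → ZMod q) → ℕ := fun w => (univ.filter fun l => κ l = w).card with hn
  refine ⟨univ.image rep, fun l => 1 - (if l = rep (κ l) then (n (κ l) : ℤ) else 0), ?_, ?_, ?_⟩
  · refine Finset.card_image_le.trans ?_
    rw [Finset.card_univ, Fintype.card_fun, ZMod.card, Fintype.card_fin]
  · intro l hl
    have : l ≠ rep (κ l) := by
      intro h
      exact hl (Finset.mem_image.2 ⟨κ l, Finset.mem_univ _, h.symm⟩)
    simp [this]
  · intro i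
    rw [← ZMod.intCast_zmod_eq_zero_iff_dvd, Int.cast_sum]
    rw [← Finset.sum_fiberwise (s := univ) (g := κ)]
    apply Finset.sum_eq_zero
    intro w _
    have h1 : ∑ l ∈ univ.filter (fun l => κ l = w),
        ((v i l * (1 - (if l = rep (κ l) then (n (κ l) : ℤ) else 0)) : ℤ) : ZMod q) =
        w i * (((∑ l ∈ univ.filter (fun l => κ l = w),
          (1 - (if l = rep w then (n w : ℤ) else 0))) : ℤ) : ZMod q) := by
      rw [Int.cast_sum, Finset.mul_sum]
      apply Finset.sum_congr rfl
      intro l hl
      rw [Finset.mem_filter] at hl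
      rw [Int.cast_mul, hl.2, ← hl.2]
    rw [h1]
    have h2 : ∑ l ∈ univ.filter (fun l => κ l = w),
        (1 - (if l = rep w then (n w : ℤ) else 0)) = 0 := by
      rw [Finset.sum_sub_distrib, Finset.sum_const, nsmul_eq_mul, mul_one, Finset.sum_ite_eq']
      by_cases hw : ∃ l, κ l = w
      · obtain ⟨l, rfl⟩ := hw
        have hm : rep (κ l) ∈ univ.filter (fun l' => κ l' = κ l) := by
          rw [Finset.mem_filter]
          exact ⟨Finset.mem_univ _, hr l⟩
        rw [if_pos hm]
        simp [hn]
      · have he : univ.filter (fun l => κ l = w) = ∅ := by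
          rw [Finset.filter_eq_empty_iff]
          intro l _ h
          exact hw ⟨l, h⟩
        rw [he]
        simp
    rw [h2]
    simp

end Pool.Agent.H505PP
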