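import Pool.Agent.H505PP.Defs

set_option autoImplicit false

namespace Pool.Agent.H505PP

theorem BIN.cb (h : ℕ) : (2 * h + 1) * (Nat.centralBinom h) ^ 2 ≤ 16 ^ h := by
  induction h with
  | zero => simp
  | succ h ih =>
    have h1 := Nat.succ_mul_centralBinom_succ h
    have h2 : 0 < (h + 1) ^ 2 := by positivity
    apply Nat.le_of_mul_le_mul_left _ h2
    calc (h + 1) ^ 2 * ((2 * (h + 1) + 1) * (Nat.centralBinom (h + 1)) ^ 2)
        = (2 * h + 3) * ((h + 1) * Nat.centralBinom (h + 1)) ^ 2 := by ring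
      _ = (2 * h + 3) * (2 * (2 * h + 1) * Nat.centralBinom h) ^ 2 := by rw [h1]
      _ = 4 * ((2 * h + 3) * (2 * h + 1)) * ((2 * h + 1) * Nat.centralBinom h ^ 2) := by ring
      _ ≤ 4 * (4 * (h + 1) ^ 2) * 16 ^ h := by
          apply Nat.mul_le_mul _ ih
          apply Nat.mul_le_mul_left
          nlinarith
      _ = (h + 1) ^ 2 * 16 ^ (h + 1) := by ring

theorem t_BIN : S_BIN := by
  intro h
  rw [← Nat.centralBinom_eq_two_mul_choose]
  exact BIN.cb h

end Pool.Agent.H505PP
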