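import Pool.Agent.H505PP.Defs

/-! CMP (helper991 for helper505) -/

set_option autoImplicit false

noncomputable section

namespace Pool.Agent.H505PP

open scoped BigOperators ENNReal Topology
open Finset Filter MeasureTheory

namespace CMP

theorem LS_exp (hWE : S_WE) {p : ℕ} [Fact p.Prime] {k : ℕ} (D : ℕ) (a : Fin k → ZMod p)
    (θ : Fin k → ℝ) (j : ℕ) (f : ZMod p → ℝ) :
    (LS D a θ j f : ℂ) = ∑ ξ ∈ bx k D, (hw D ξ : ℂ) * ph ξ θ *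
      ∑ x, ∑ d, e (dt ξ a * d ^ 2) * ((f x : ℂ) * f (x + j * d) * f (x + 2 * j * d)) := by
  unfold LS
  push_cast
  calc ∑ x, ∑ d, (wt D a θ d : ℂ) * ((f x : ℂ) * f (x + j * d) * f (x + 2 * j * d))
      = ∑ x, ∑ d, ∑ ξ ∈ bx k D, ((hw D ξ : ℂ) * ph ξ θ * e (dt ξ a * d ^ 2)) *
          ((f x : ℂ) * f (x + j * d) * f (x + 2 * j * d)) := by
        refine Finset.sum_congr rfl fun x _ => Finset.sum_congr rfl fun d _ => ?_
        rw [hWE p k D a θ d, Finset.sum_mul]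
    _ = ∑ x, ∑ ξ ∈ bx k D, ∑ d, ((hw D ξ : ℂ) * ph ξ θ * e (dt ξ a * d ^ 2)) *
          ((f x : ℂ) * f (x + j * d) * f (x + 2 * j * d)) := by
        refine Finset.sum_congr rfl fun x _ => ?_
        rw [Finset.sum_comm]
    _ = ∑ ξ ∈ bx k D, ∑ x, ∑ d, ((hw D ξ : ℂ) * ph ξ θ * e (dt ξ a * d ^ 2)) *
          ((f x : ℂ) * f (x + j * d) * f (x + 2 * j * d)) := by
        rw [Finset.sum_comm]
    _ = _ := by
        refine Finset.sum_congr rfl fun ξ _ => ?_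
        rw [Finset.mul_sum]
        refine Finset.sum_congr rfl fun x _ => ?_
        rw [Finset.mul_sum]
        refine Finset.sum_congr rfl fun d _ => ?_
        ring

theorem amgm (x y ε : ℝ) (hx : 0 ≤ x) (hy : 0 ≤ y) (hε : 0 < ε) :
    x ^ 2 * y ≤ x ^ 3 / ε + 4 / 27 * ε ^ 2 * y ^ 3 := by
  have h1 : 0 ≤ (3 * x - 2 * (ε * y)) ^ 2 * (3 * x + ε * y) := by positivity
  have h2 : x ^ 2 * y = (27 * x ^ 2 * (ε * y)) / (27 * ε) := by field_simp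
  have h3 : x ^ 3 / ε + 4 / 27 * ε ^ 2 * y ^ 3 = (27 * x ^ 3 + 4 * (ε * y) ^ 3) / (27 * ε) := by
    field_simp
  rw [h2, h3]
  apply div_le_div_of_nonneg_right _ (by positivity)
  nlinarith

theorem hw_bd {k D : ℕ} {ξ : Fin k → ℤ} (h : ξ ∈ bx k D) : 0 ≤ hw D ξ ∧ hw D ξ ≤ 1 := by
  have h1 : ∀ l, 0 ≤ 1 - |(ξ l : ℝ)| / (D + 1) ∧ 1 - |(ξ l : ℝ)| / (D + 1) ≤ 1 := by
    intro l
    have h2 := Fintype.mem_piFinset.1 h l
    rw [Finset.mem_Icc] at h2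
    have h3 : |(ξ l : ℝ)| ≤ D := by
      rw [abs_le]
      constructor
      · exact_mod_cast h2.1
      · exact_mod_cast h2.2
    have h4 : (0 : ℝ) < D + 1 := by positivity
    constructor
    · rw [sub_nonneg, div_le_one h4]
      linarith
    · have : 0 ≤ |(ξ l : ℝ)| / (D + 1) := by positivity
      linarith
  exact ⟨Finset.prod_nonneg fun l _ => (h1 l).1,
    Finset.prod_le_one (fun l _ => (h1 l).1) fun l _ => (h1 l).2⟩

theorem ph_norm {k : ℕ} (ξ : Fin k → ℤ) (θ : Fin k → ℝ) : ‖ph ξ θ‖ = 1 := by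
  unfold ph
  rw [Complex.norm_exp]
  have e1 : -(2 * Real.pi * Complex.I * ∑ l, (ξ l : ℂ) * (θ l : ℂ)) =
      ((-(2 * Real.pi * ∑ l, (ξ l : ℝ) * θ l) : ℝ) : ℂ) * Complex.I := by
    push_cast
    ring
  rw [e1, Complex.re_ofReal_mul, Complex.I_re, mul_zero, Real.exp_zero]

theorem ph_zero {k : ℕ} (ξ : Fin k → ℤ) : ph ξ 0 = 1 := by
  unfold ph
  simp

theorem cf_le {p : ℕ} [Fact p.Prime] (f : ZMod p → ℝ) (hf : ∀ x, |f x| ≤ 1) (c v : ZMod p) :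
    ‖cf f c v‖ ≤ 1 := by
  unfold cf
  have hp : (0 : ℝ) < p := by exact_mod_cast (Fact.out : p.Prime).pos
  rw [norm_mul, norm_div, norm_one, Complex.norm_natCast]
  have h1 : ‖∑ x, (f x : ℂ) * e (v * x ^ 2 + c * x)‖ ≤ p := by
    calc ‖∑ x, (f x : ℂ) * e (v * x ^ 2 + c * x)‖ ≤ ∑ x, ‖(f x : ℂ) * e (v * x ^ 2 + c * x)‖ :=
          norm_sum_le _ _
      _ ≤ ∑ _x : ZMod p, (1 : ℝ) := by
          refine Finset.sum_le_sum fun x _ => ?_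
          rw [norm_mul, AddChar.norm_apply, mul_one, Complex.norm_real]
          exact hf x
      _ = p := by simp [ZMod.card]
  rw [one_div, inv_mul_le_iff₀ hp, mul_one]
  exact h1

theorem dt_inj {p k D : ℕ} {a : Fin k → ZMod p} (h : Dis (2 * D + 2) a) {ξ ξ' : Fin k → ℤ}
    (hξ : ξ ∈ bx k D) (hξ' : ξ' ∈ bx k D) (he : dt ξ a = dt ξ' a) : ξ = ξ' := by
  by_contra hne
  have h1 : ξ - ξ' ∈ bx k (2 * D + 2) := by
    refine Fintype.mem_piFinset.2 fun l => ?_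
    have h2 := Finset.mem_Icc.1 (Fintype.mem_piFinset.1 hξ l)
    have h3 := Finset.mem_Icc.1 (Fintype.mem_piFinset.1 hξ' l)
    rw [Finset.mem_Icc, Pi.sub_apply]
    push_cast
    constructor <;> linarith [h2.1, h2.2, h3.1, h3.2]
  apply h _ h1 (sub_ne_zero.2 hne)
  unfold dt at he ⊢
  have h4 : ∑ l, ((ξ - ξ') l : ZMod p) * a l = ∑ l, (ξ l : ZMod p) * a l -
      ∑ l, (ξ' l : ZMod p) * a l := by
    rw [← Finset.sum_sub_distrib]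
    refine Finset.sum_congr rfl fun l _ => ?_
    rw [Pi.sub_apply]
    push_cast
    ring
  rw [h4, he, sub_self]

theorem card_bx (k D : ℕ) : (bx k D).card = (2 * D + 1) ^ k := by
  unfold bx
  rw [Fintype.card_piFinset]
  simp only [Int.card_Icc, Finset.prod_const, Finset.card_univ, Fintype.card_fin]
  congr 1
  omega

theorem small (k D : ℕ) (ε : ℝ) (hε : 0 < ε) : ∃ p0 : ℕ, ∀ p : ℕ, p0 ≤ p → 0 < p →
    2 * (4 / (p : ℝ)) ^ ((1 : ℝ) / 4) * ((2 * D + 1) ^ k : ℕ) ≤ ε ^ 3 := by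
  set N : ℝ := (((2 * D + 1) ^ k : ℕ) : ℝ) with hN
  have hN0 : 0 < N := by rw [hN]; positivity
  set δ : ℝ := ε ^ 3 / (2 * N) with hδ
  have hδ0 : 0 < δ := by positivity
  obtain ⟨p0, hp0⟩ := exists_nat_ge (4 / δ ^ 4)
  refine ⟨p0, fun p hp hpp => ?_⟩
  have hp' : (0 : ℝ) < p := by exact_mod_cast hpp
  have h1 : 4 / δ ^ 4 ≤ p := hp0.trans (by exact_mod_cast hp)
  have h2 : 4 / (p : ℝ) ≤ δ ^ 4 := by
    rw [div_le_iff₀ (by positivity)] at h1 ⊢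
    linarith
  have h3 : (4 / (p : ℝ)) ^ ((1 : ℝ) / 4) ≤ δ := by
    calc (4 / (p : ℝ)) ^ ((1 : ℝ) / 4) ≤ (δ ^ 4) ^ ((1 : ℝ) / 4) :=
          Real.rpow_le_rpow (by positivity) h2 (by norm_num)
      _ = δ := by
          have := Real.pow_rpow_inv_natCast hδ0.le (n := 4) (by norm_num)
          have e : ((1 : ℝ) / 4) = (((4 : ℕ) : ℝ))⁻¹ := by norm_num
          rw [e]
          exact this
  calc 2 * (4 / (p : ℝ)) ^ ((1 : ℝ) / 4) * N ≤ 2 * δ * N := by gcongr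
    _ = ε ^ 3 := by rw [hδ]; field_simp

end CMP

open CMP in
theorem t_CMP : S_WE → S_TJ → S_LSP → S_CUB → S_CMP := by
  intro hWE hTJ _ hCUB k D L ε hD hε hε1
  obtain ⟨p1, hp1⟩ := small k D ε hε
  refine ⟨p1 + L + 3, ?_⟩
  intro p _ hp a hdis j hj1 hjL f hf θ hθ
  classical
  have hprime : p.Prime := Fact.out
  have hp2 : 2 < p := by omega
  have hp0 : 0 < p := by omega
  have hsmall := hp1 p (by omega) hp0
  have h2ne : (2 : ZMod p) ≠ 0 := by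
    have : ((2 : ℕ) : ZMod p) ≠ 0 := by
      rw [Ne, ZMod.natCast_eq_zero_iff]
      intro h
      have := Nat.le_of_dvd (by norm_num) h
      omega
    exact_mod_cast this
  have hjne : (j : ZMod p) ≠ 0 := by
    rw [Ne, ZMod.natCast_eq_zero_iff]
    intro h
    have := Nat.le_of_dvd hj1 h
    omega
  have h2j : (2 * (j : ZMod p) ^ 2) ≠ 0 := mul_ne_zero h2ne (pow_ne_zero 2 hjne)
  set u : (Fin k → ℤ) → ZMod p := fun ξ => dt ξ a / (2 * (j : ZMod p) ^ 2) with hu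
  have huinj : ∀ ξ ∈ bx k D, ∀ ξ' ∈ bx k D, u ξ = u ξ' → ξ = ξ' := by
    intro ξ hξ ξ' hξ' h
    apply dt_inj hdis hξ hξ'
    simp only [hu] at h
    rwa [div_left_inj' h2j] at h
  set C1 : (Fin k → ℤ) → ZMod p → ℂ := fun ξ c => cf f (-c) (u ξ) with hC1
  set C2 : (Fin k → ℤ) → ZMod p → ℂ := fun ξ c => cf f (2 * c) (-2 * (u ξ)) with hC2
  have hexp : ∀ θ' : Fin k → ℝ, (LS D a θ' j f : ℂ) = ∑ ξ ∈ bx k D, (hw D ξ : ℂ) * ph ξ θ' *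
      ((p : ℂ) ^ 2 * ∑ c, C1 ξ c ^ 2 * C2 ξ c) := by
    intro θ'
    rw [LS_exp hWE]
    refine Finset.sum_congr rfl fun ξ _ => ?_
    rw [hTJ p hp2 j f (dt ξ a) hjne]
  have hdiff : ((LS D a θ j f - LS D a 0 j f : ℝ) : ℂ) = ∑ ξ ∈ bx k D,
      (hw D ξ : ℂ) * (ph ξ θ - 1) * ((p : ℂ) ^ 2 * ∑ c, C1 ξ c ^ 2 * C2 ξ c) := by
    rw [Complex.ofReal_sub, hexp θ, hexp 0, ← Finset.sum_sub_distrib]
    refine Finset.sum_congr rfl fun ξ _ => ?_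
    rw [ph_zero]
    ring
  set Bad := (bx k D).filter (fun ξ => ∀ c, ‖cf f c (u ξ)‖ < ε ^ 3) with hBad
  have hterm : ∀ ξ ∈ bx k D, ‖(hw D ξ : ℂ) * (ph ξ θ - 1) *
      ((p : ℂ) ^ 2 * ∑ c, C1 ξ c ^ 2 * C2 ξ c)‖ ≤
      if (∀ c, ‖cf f c (u ξ)‖ < ε ^ 3) then
        2 * ((p : ℝ) ^ 2 * ∑ c, ‖C1 ξ c‖ ^ 2 * ‖C2 ξ c‖) else 0 := by
    intro ξ hξ
    split_ifs with hb
    · obtain ⟨w0, w1⟩ := hw_bd hξ
      have h1 : ‖(hw D ξ : ℂ)‖ ≤ 1 := by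
        rw [Complex.norm_real, Real.norm_of_nonneg w0]
        exact w1
      have h2 : ‖ph ξ θ - 1‖ ≤ 2 := by
        calc ‖ph ξ θ - 1‖ ≤ ‖ph ξ θ‖ + ‖(1 : ℂ)‖ := norm_sub_le _ _
          _ = 2 := by rw [ph_norm, norm_one]; norm_num
      have h3 : ‖∑ c, C1 ξ c ^ 2 * C2 ξ c‖ ≤ ∑ c, ‖C1 ξ c‖ ^ 2 * ‖C2 ξ c‖ := by
        refine (norm_sum_le _ _).trans (le_of_eq ?_)
        refine Finset.sum_congr rfl fun c _ => ?_
        rw [norm_mul, norm_pow]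
      rw [norm_mul, norm_mul, norm_mul, norm_pow, Complex.norm_natCast]
      calc ‖(hw D ξ : ℂ)‖ * ‖ph ξ θ - 1‖ * ((p : ℝ) ^ 2 * ‖∑ c, C1 ξ c ^ 2 * C2 ξ c‖)
          ≤ 1 * 2 * ((p : ℝ) ^ 2 * ∑ c, ‖C1 ξ c‖ ^ 2 * ‖C2 ξ c‖) := by gcongr
        _ = _ := by ring
    · push Not at hb
      obtain ⟨c, hc⟩ := hb
      rw [hθ ξ hξ ⟨c, hc⟩, sub_self, mul_zero, zero_mul, norm_zero]
  have hmain : |LS D a θ j f - LS D a 0 j f| ≤
      2 * (p : ℝ) ^ 2 * ∑ z ∈ Bad ×ˢ (univ : Finset (ZMod p)), ‖C1 z.1 z.2‖ ^ 2 * ‖C2 z.1 z.2‖ := by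
    have h1 : |LS D a θ j f - LS D a 0 j f| = ‖((LS D a θ j f - LS D a 0 j f : ℝ) : ℂ)‖ := by
      rw [Complex.norm_real, Real.norm_eq_abs]
    rw [h1, hdiff]
    refine (norm_sum_le _ _).trans ((Finset.sum_le_sum hterm).trans (le_of_eq ?_))
    rw [← Finset.sum_filter, Finset.sum_product, Finset.mul_sum]
    refine Finset.sum_congr rfl fun ξ _ => ?_
    ring
  -- the two cubic sums
  have hBadsub : ∀ ξ ∈ Bad, ξ ∈ bx k D := fun ξ hξ => (Finset.mem_filter.1 hξ).1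
  have hcardV : ∀ g : (Fin k → ℤ) → ZMod p, ((Bad.image g).card : ℝ) ≤ (((2 * D + 1) ^ k : ℕ) : ℝ) := by
    intro g
    have h1 : (Bad.image g).card ≤ (bx k D).card :=
      Finset.card_image_le.trans (Finset.card_filter_le _ _)
    rw [card_bx] at h1
    exact_mod_cast h1
  have hpos : 0 ≤ 2 * (4 / (p : ℝ)) ^ ((1 : ℝ) / 4) := by positivity
  have hε3 : ε ^ 3 ≤ 1 := pow_le_one₀ hε.le hε1
  have s1 : ∑ z ∈ Bad ×ˢ (univ : Finset (ZMod p)), ‖C1 z.1 z.2‖ ^ 3 ≤ 17 * ε ^ 3 := by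
    have h1 := hCUB p hp2 f (ε ^ 3) hf (by positivity) (Bad.image u)
      ((Bad ×ˢ (univ : Finset (ZMod p))).image (fun z => (-z.2, u z.1))) (by
        intro z hz
        obtain ⟨y, hy, rfl⟩ := Finset.mem_image.1 hz
        have hy1 := (Finset.mem_product.1 hy).1
        exact ⟨Finset.mem_image_of_mem _ hy1, (Finset.mem_filter.1 hy1).2 _⟩)
    rw [Finset.sum_image (by
      rintro ⟨ξ, c⟩ hz ⟨ξ', c'⟩ hz' h
      have hz1 := (Finset.mem_product.1 hz).1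
      have hz1' := (Finset.mem_product.1 hz').1
      simp only [Prod.mk.injEq, neg_inj] at h
      rw [huinj ξ (hBadsub _ hz1) ξ' (hBadsub _ hz1') h.2, h.1])] at h1
    have h2 := mul_le_mul_of_nonneg_left (hcardV u) hpos
    calc ∑ z ∈ Bad ×ˢ (univ : Finset (ZMod p)), ‖C1 z.1 z.2‖ ^ 3 ≤ _ := h1
      _ ≤ 16 * ε ^ 3 + ε ^ 3 := by linarith
      _ = 17 * ε ^ 3 := by ring
  have s2 : ∑ z ∈ Bad ×ˢ (univ : Finset (ZMod p)), ‖C2 z.1 z.2‖ ^ 3 ≤ 33 := by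
    have h1 := hCUB p hp2 f 2 hf (by norm_num) (Bad.image fun ξ => -2 * u ξ)
      ((Bad ×ˢ (univ : Finset (ZMod p))).image (fun z => (2 * z.2, -2 * u z.1))) (by
        intro z hz
        obtain ⟨y, hy, rfl⟩ := Finset.mem_image.1 hz
        have hy1 := (Finset.mem_product.1 hy).1
        exact ⟨Finset.mem_image_of_mem (fun ξ => -2 * u ξ) hy1,
          (cf_le f hf _ _).trans_lt (by norm_num)⟩)
    have hn2 : (-2 : ZMod p) ≠ 0 := neg_ne_zero.2 h2ne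
    rw [Finset.sum_image (by
      rintro ⟨ξ, c⟩ hz ⟨ξ', c'⟩ hz' h
      have hz1 := (Finset.mem_product.1 hz).1
      have hz1' := (Finset.mem_product.1 hz').1
      simp only [Prod.mk.injEq] at h
      rw [huinj ξ (hBadsub _ hz1) ξ' (hBadsub _ hz1') (mul_left_cancel₀ hn2 h.2),
        mul_left_cancel₀ h2ne h.1])] at h1
    have h2 := mul_le_mul_of_nonneg_left (hcardV fun ξ => -2 * u ξ) hpos
    calc ∑ z ∈ Bad ×ˢ (univ : Finset (ZMod p)), ‖C2 z.1 z.2‖ ^ 3 ≤ _ := h1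
      _ ≤ 16 * 2 + 1 := by linarith
      _ = 33 := by norm_num
  have hprod : ∑ z ∈ Bad ×ˢ (univ : Finset (ZMod p)), ‖C1 z.1 z.2‖ ^ 2 * ‖C2 z.1 z.2‖ ≤
      (∑ z ∈ Bad ×ˢ (univ : Finset (ZMod p)), ‖C1 z.1 z.2‖ ^ 3) / ε +
      4 / 27 * ε ^ 2 * ∑ z ∈ Bad ×ˢ (univ : Finset (ZMod p)), ‖C2 z.1 z.2‖ ^ 3 := by
    rw [Finset.sum_div, Finset.mul_sum, ← Finset.sum_add_distrib]
    exact Finset.sum_le_sum fun z _ => amgm _ _ ε (norm_nonneg _) (norm_nonneg _) hε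
  have hfin : ∑ z ∈ Bad ×ˢ (univ : Finset (ZMod p)), ‖C1 z.1 z.2‖ ^ 2 * ‖C2 z.1 z.2‖ ≤
      25 * ε ^ 2 := by
    refine hprod.trans ?_
    have h1 : (∑ z ∈ Bad ×ˢ (univ : Finset (ZMod p)), ‖C1 z.1 z.2‖ ^ 3) / ε ≤ 17 * ε ^ 2 := by
      rw [div_le_iff₀ hε]
      calc _ ≤ 17 * ε ^ 3 := s1
        _ = 17 * ε ^ 2 * ε := by ring
    have h2 : 4 / 27 * ε ^ 2 * ∑ z ∈ Bad ×ˢ (univ : Finset (ZMod p)), ‖C2 z.1 z.2‖ ^ 3 ≤
        4 / 27 * ε ^ 2 * 33 := mul_le_mul_of_nonneg_left s2 (by positivity)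
    nlinarith [sq_nonneg ε]
  refine hmain.trans ?_
  calc 2 * (p : ℝ) ^ 2 * ∑ z ∈ Bad ×ˢ (univ : Finset (ZMod p)), ‖C1 z.1 z.2‖ ^ 2 * ‖C2 z.1 z.2‖
      ≤ 2 * (p : ℝ) ^ 2 * (25 * ε ^ 2) := mul_le_mul_of_nonneg_left hfin (by positivity)
    _ = 50 * ε ^ 2 * (p : ℝ) ^ 2 := by ring

end Pool.Agent.H505PP
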