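import Pool.Agent.H505PP.Defs

set_option autoImplicit false

noncomputable section

namespace Pool.Agent.H505PP

open scoped BigOperators ENNReal Topology
open Finset Filter MeasureTheory

namespace CT

theorem dg_lt (M : ℕ) (hM : 0 < M) {p : ℕ} [Fact p.Prime] (y : ZMod p) : dg M y < M := by
  unfold dg
  have hp : 0 < p := (Fact.out : p.Prime).pos
  rw [Nat.div_lt_iff_lt_mul hp]
  exact Nat.mul_lt_mul_of_pos_left (ZMod.val_lt y) hM

/-- the digit vector -/
def Dg (M N h : ℕ) (hM : 0 < M) {p : ℕ} [Fact p.Prime] (x : ZMod p) : Fin (2 * h) → Fin M :=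
  fun l => ⟨dg M ((N : ZMod p) ^ (l : ℕ) * x), dg_lt M hM _⟩

end CT

open Classical in
theorem t_CT : S_CV → S_DIG → S_CT := by
  intro hCV hDIG τ s hτ
  obtain ⟨h, M, hsh, hE, hM8, hcard⟩ := hCV (τ / 2) s (by linarith)
  refine ⟨h, M, hsh, hE, hM8, fun N hMN hN => ?_⟩
  obtain ⟨p0, hp0⟩ := hDIG (2 * h) M N 1 (by omega) hMN hN one_pos
  refine ⟨p0, fun p _ hp => ?_⟩
  have hM : 0 < M := by omega
  have hMr : (0 : ℝ) < M := by exact_mod_cast hM
  set V := (univ.filter fun v : Fin (2 * h) → Fin M =>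
    (univ.filter fun l => 1 ≤ (v l : ℕ) ∧ (v l : ℕ) + 2 ≤ M / 2).card ≤ h + s ∧
    (univ.filter fun l => M / 2 + 1 ≤ (v l : ℕ) ∧ (v l : ℕ) + 2 ≤ M).card ≤ h + s) with hV
  set X := (univ.filter fun x : ZMod p => sgn M N h s x = 0) with hX
  have hmaps : ∀ x ∈ X, CT.Dg M N h hM x ∈ V := by
    intro x hx
    rw [hX, mem_filter] at hx
    rw [hV, mem_filter]
    refine ⟨mem_univ _, ?_⟩
    have h0 := hx.2
    unfold sgn at h0
    have c1 : ¬ (h + s + 1 ≤ pc M N h x) := by
      intro c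
      rw [if_pos c] at h0
      exact absurd h0 one_ne_zero
    have c2 : ¬ (h + s + 1 ≤ mc M N h x) := by
      intro c
      rw [if_neg c1, if_pos c] at h0
      norm_num at h0
    refine ⟨?_, ?_⟩
    · have h1 : pc M N h x ≤ h + s := by omega
      exact h1
    · have h1 : mc M N h x ≤ h + s := by omega
      exact h1
  have h1 : X.card = ∑ v ∈ V, (X.filter fun x => CT.Dg M N h hM x = v).card :=
    card_eq_sum_card_fiberwise hmaps
  have h2 : ∀ v ∈ V, ((X.filter fun x => CT.Dg M N h hM x = v).card : ℝ) ≤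
      2 * p / (M : ℝ) ^ (2 * h) := by
    intro v _
    have h3 := hp0 p hp (fun l => (v l : ℕ)) (fun l => (v l).2)
    have h4 : (X.filter fun x => CT.Dg M N h hM x = v).card ≤
        (univ.filter fun x : ZMod p => ∀ l : Fin (2 * h),
          dg M ((N : ZMod p) ^ (l : ℕ) * x) = v l).card := by
      refine card_le_card fun x hx => ?_
      rw [mem_filter] at hx ⊢
      refine ⟨mem_univ _, fun l => ?_⟩
      have h5 := congrFun hx.2 l
      exact congrArg Fin.val h5
    have h6 : ((X.filter fun x => CT.Dg M N h hM x = v).card : ℝ) ≤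
        ((univ.filter fun x : ZMod p => ∀ l : Fin (2 * h),
          dg M ((N : ZMod p) ^ (l : ℕ) * x) = v l).card : ℝ) := by exact_mod_cast h4
    refine h6.trans (h3.trans (le_of_eq ?_))
    norm_num
  have h7 : (X.card : ℝ) = ∑ v ∈ V, ((X.filter fun x => CT.Dg M N h hM x = v).card : ℝ) := by
    exact_mod_cast h1
  rw [h7]
  refine (sum_le_sum h2).trans ?_
  rw [sum_const, nsmul_eq_mul]
  have hpow : (0 : ℝ) < (M : ℝ) ^ (2 * h) := by positivity
  calc (V.card : ℝ) * (2 * p / (M : ℝ) ^ (2 * h)) ≤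
        (τ / 2 * (M : ℝ) ^ (2 * h)) * (2 * p / (M : ℝ) ^ (2 * h)) :=
        mul_le_mul_of_nonneg_right hcard (by positivity)
    _ = τ * p := by field_simp

end Pool.Agent.H505PP
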