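import Pool.Agent.H505PP.Defs

/-! Task CUB (helper483). -/

set_option autoImplicit false

namespace Pool.Agent.H505PP

open scoped BigOperators ENNReal Topology
open Finset Filter MeasureTheory

theorem t_CUB : S_LSP → S_PAR → S_CUB := by
  intro hL hP p _ hp f η hf hη V Ψ hΨ
  classical
  obtain ⟨F, hF⟩ : ∃ F : ZMod p × ZMod p → ℝ, F = fun z => ‖cf f z.1 z.2‖ := ⟨_, rfl⟩
  have hF0 : ∀ z, 0 ≤ F z := by
    intro z
    rw [hF]
    exact norm_nonneg _
  have hp0 : (0 : ℝ) < p := by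
    have : 0 < p := by omega
    exact_mod_cast this
  obtain ⟨τ, hτd⟩ : ∃ τ : ℝ, τ = (4 / (p : ℝ)) ^ ((1 : ℝ) / 4) := ⟨_, rfl⟩
  have hq : (0 : ℝ) < 4 / p := by positivity
  have hτ : 0 < τ := by
    rw [hτd]
    exact Real.rpow_pos_of_pos hq _
  have hτ4 : τ ^ 4 * p = 4 := by
    have h0 : τ ^ 4 = 4 / p := by
      rw [hτd, ← Real.rpow_natCast, ← Real.rpow_mul hq.le]
      norm_num
    rw [h0]
    field_simp
  have hsum : ∑ z ∈ Ψ, ‖cf f z.1 z.2‖ ^ 3 = ∑ z ∈ Ψ, F z ^ 3 := by rw [hF]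
  have hΨ' : ∀ z ∈ Ψ, z.2 ∈ V ∧ F z < η := by
    intro z hz
    rw [hF]
    exact hΨ z hz
  rw [hsum, ← hτd, ← Finset.sum_filter_add_sum_filter_not Ψ (fun z => F z < 2 * τ)]
  have h1 : ∑ z ∈ Ψ.filter (fun z => F z < 2 * τ), F z ^ 3 ≤ 2 * τ * V.card := by
    have e1 : ∑ z ∈ Ψ.filter (fun z => F z < 2 * τ), F z ^ 3 ≤
        ∑ z ∈ Ψ.filter (fun z => F z < 2 * τ), 2 * τ * F z ^ 2 := by
      apply Finset.sum_le_sum
      intro z hz
      have h2 := (Finset.mem_filter.1 hz).2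
      have h3 : F z ^ 3 = F z * F z ^ 2 := by ring
      rw [h3]
      exact mul_le_mul_of_nonneg_right h2.le (sq_nonneg _)
    have e2 : ∑ z ∈ Ψ.filter (fun z => F z < 2 * τ), F z ^ 2 ≤
        ∑ z ∈ (Finset.univ : Finset (ZMod p)) ×ˢ V, F z ^ 2 := by
      apply Finset.sum_le_sum_of_subset_of_nonneg
      · intro z hz
        have h2 := (Finset.mem_filter.1 hz).1
        exact Finset.mem_product.2 ⟨Finset.mem_univ _, (hΨ' z h2).1⟩
      · intro z _ _
        exact sq_nonneg _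
    have e3 : ∑ z ∈ (Finset.univ : Finset (ZMod p)) ×ˢ V, F z ^ 2 ≤ V.card := by
      rw [Finset.sum_product_right]
      have e4 : ∀ v ∈ V, ∑ c : ZMod p, F (c, v) ^ 2 ≤ 1 := by
        intro v _
        rw [hF]
        exact hP p f v hf
      refine (Finset.sum_le_sum e4).trans ?_
      simp
    rw [← Finset.mul_sum] at e1
    refine e1.trans ?_
    exact mul_le_mul_of_nonneg_left (e2.trans e3) (by positivity)
  have h2 : ∑ z ∈ Ψ.filter (fun z => ¬ F z < 2 * τ), F z ^ 3 ≤ 16 * η := by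
    obtain ⟨Ω, hΩ⟩ : ∃ Ω : Finset (ZMod p × ZMod p), Ω = Ψ.filter (fun z => ¬ F z < 2 * τ) :=
      ⟨_, rfl⟩
    rw [← hΩ]
    have hΩ1 : ∀ z ∈ Ω, 2 * τ ≤ F z ∧ F z < η := by
      intro z hz
      rw [hΩ, Finset.mem_filter] at hz
      exact ⟨not_lt.1 hz.2, (hΨ' z hz.1).2⟩
    have hlev : ∀ z, ∃ i : ℕ, z ∈ Ω → η / 2 ^ (i + 1) < F z ∧ F z ≤ η / 2 ^ i := by
      intro z
      by_cases hz : z ∈ Ω
      · obtain ⟨h3, h4⟩ := hΩ1 z hz
        have h5 : 0 < F z := by linarith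
        have h6 : 1 ≤ η / F z := by
          rw [le_div_iff₀ h5]
          linarith
        obtain ⟨i, hi1, hi2⟩ := exists_nat_pow_near h6 (one_lt_two : (1 : ℝ) < 2)
        refine ⟨i, fun _ => ⟨?_, ?_⟩⟩
        · rw [div_lt_iff₀ h5] at hi2
          rw [div_lt_iff₀ (by positivity)]
          linarith
        · rw [le_div_iff₀ h5] at hi1
          rw [le_div_iff₀ (by positivity)]
          linarith
      · exact ⟨0, fun h => absurd h hz⟩
    choose lev hlev using hlev
    rw [← Finset.sum_fiberwise_of_maps_to (s := Ω) (t := Ω.image lev) (g := lev)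
      (fun z hz => Finset.mem_image_of_mem _ hz)]
    have h3 : ∀ i ∈ Ω.image lev, ∑ z ∈ Ω.filter (fun z => lev z = i), F z ^ 3 ≤
        8 * η * (1 / 2) ^ i := by
      intro i hi
      obtain ⟨z0, hz0, hz1⟩ := Finset.mem_image.1 hi
      have h4 := hΩ1 z0 hz0
      have h5 := hlev z0 hz0
      rw [hz1] at h5
      obtain ⟨η', hη'⟩ : ∃ η' : ℝ, η' = η / 2 ^ (i + 1) := ⟨_, rfl⟩
      have h6 : η / 2 ^ i = 2 * η' := by
        rw [hη', pow_succ]
        field_simp
      have hη'0 : 0 < η' := by rw [hη']; positivity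
      have h7 : τ ≤ η' := by
        have := h5.2
        rw [h6] at this
        linarith [h4.1]
      have h8 : 4 ≤ η' ^ 4 * p := by
        rw [← hτ4]
        exact mul_le_mul_of_nonneg_right (pow_le_pow_left₀ hτ.le h7 4) hp0.le
      have h9 := hL p hp f η' hf hη'0 h8 (Ω.filter (fun z => lev z = i)) (by
        intro z hz
        obtain ⟨hz2, hz3⟩ := Finset.mem_filter.1 hz
        have h10 := (hlev z hz2).1
        rw [hz3, ← hη', hF] at h10
        exact h10.le)
      have h11 : ∀ z ∈ Ω.filter (fun z => lev z = i), F z ^ 3 ≤ (2 * η') ^ 3 := by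
        intro z hz
        obtain ⟨hz2, hz3⟩ := Finset.mem_filter.1 hz
        have h10 := (hlev z hz2).2
        rw [hz3, h6] at h10
        exact pow_le_pow_left₀ (hF0 z) h10 3
      refine (Finset.sum_le_sum h11).trans ?_
      rw [Finset.sum_const, nsmul_eq_mul]
      refine (mul_le_mul_of_nonneg_right h9 (by positivity)).trans (le_of_eq ?_)
      have h12 : 8 * η * (1 / 2) ^ i = 16 * η' := by
        rw [hη', pow_succ, one_div, inv_pow]
        field_simp
        ring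
      rw [h12]
      field_simp
      ring
    refine (Finset.sum_le_sum h3).trans ?_
    rw [← Finset.mul_sum]
    have h4 : ∑ i ∈ Ω.image lev, ((1 : ℝ) / 2) ^ i ≤ 2 := by
      have h13 : ∑ i ∈ Ω.image lev, ((1 : ℝ) / 2) ^ i ≤ ∑' i : ℕ, ((1 : ℝ) / 2) ^ i :=
        summable_geometric_two.sum_le_tsum _ (fun i _ => by positivity)
      rw [tsum_geometric_two] at h13
      exact h13
    have h5 := mul_le_mul_of_nonneg_left h4 (by positivity : (0 : ℝ) ≤ 8 * η)
    linarith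
  linarith

end Pool.Agent.H505PP
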