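import Pool.Agent.H505PP.Defs

set_option autoImplicit false

noncomputable section

namespace Pool.Agent.H505PP

open scoped BigOperators
open Finset Filter

namespace CV

lemma bad {n M : ℕ} (hM : 0 < M) (F : Finset (Fin M)) (l : Fin n) :
    (((univ : Finset (Fin n → Fin M)).filter fun v => v l ∈ F).card : ℝ) =
      (F.card : ℝ) / M * (M : ℝ) ^ n := by
  classical
  have hM' : (M : ℝ) ≠ 0 := by positivity
  have h1 : ((univ : Finset (Fin n → Fin M)).filter fun v => v l ∈ F) =
      Fintype.piFinset (fun i : Fin n => if i = l then F else univ) := by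
    ext v
    simp only [mem_filter, mem_univ, true_and, Fintype.mem_piFinset]
    constructor
    · intro h i
      by_cases hi : i = l
      · subst hi; simpa using h
      · simp [hi]
    · intro h
      simpa using h l
  rw [h1, Fintype.card_piFinset]
  push_cast
  have h2 : ∀ i : Fin n, (((if i = l then F else (univ : Finset (Fin M))).card : ℕ) : ℝ) =
      (M : ℝ) * (if i = l then (F.card : ℝ) / M else 1) := by
    intro i
    by_cases hi : i = l
    · simp [hi]; field_simp
    · simp [hi]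
  rw [Finset.prod_congr rfl (fun i _ => h2 i), Finset.prod_mul_distrib, Finset.prod_ite_eq']
  simp
  ring

lemma low_card (m : ℕ) : ((univ : Finset (Fin (2 * m))).filter fun x : Fin (2 * m) => (x : ℕ) < m).card ≤ m := by
  calc _ ≤ (range m).card := by
        apply Finset.card_le_card_of_injOn (fun x : Fin (2 * m) => (x : ℕ))
        · intro x hx
          have := (mem_filter.1 (Finset.mem_coe.1 hx)).2
          simpa using this
        · intro x _ y _ hxy
          exact Fin.ext hxy
    _ = m := card_range m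

lemma up_card (m : ℕ) : ((univ : Finset (Fin (2 * m))).filter fun x : Fin (2 * m) => m ≤ (x : ℕ)).card ≤ m := by
  calc _ ≤ (range m).card := by
        apply Finset.card_le_card_of_injOn (fun x : Fin (2 * m) => (x : ℕ) - m)
        · intro x hx
          have h1 := (mem_filter.1 (Finset.mem_coe.1 hx)).2
          have h2 := x.2
          simp only [coe_range, Set.mem_Iio]
          omega
        · intro x hx y hy hxy
          have h1 := (mem_filter.1 (Finset.mem_coe.1 hx)).2
          have h2 := (mem_filter.1 (Finset.mem_coe.1 hy)).2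
          simp only at hxy
          apply Fin.ext
          omega
    _ = m := card_range m

lemma fib (n m : ℕ) (U : Finset (Fin n)) :
    ((univ : Finset (Fin n → Fin (2 * m))).filter fun v =>
      (univ.filter fun l => (v l : ℕ) < m) = U).card ≤ m ^ n := by
  classical
  calc _ ≤ (Fintype.piFinset (fun l : Fin n => if l ∈ U then
          (univ : Finset (Fin (2 * m))).filter fun x : Fin (2 * m) => (x : ℕ) < m else
          (univ : Finset (Fin (2 * m))).filter fun x : Fin (2 * m) => m ≤ (x : ℕ))).card := by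
        apply Finset.card_le_card
        intro v hv
        have hU := (mem_filter.1 hv).2
        rw [Fintype.mem_piFinset]
        intro l
        by_cases hl : l ∈ U
        · rw [if_pos hl]
          rw [← hU] at hl
          simpa using (mem_filter.1 hl).2
        · rw [if_neg hl]
          rw [← hU] at hl
          simp only [mem_filter, mem_univ, true_and, not_lt] at hl ⊢
          exact hl
    _ = ∏ l : Fin n, (if l ∈ U then
          (univ : Finset (Fin (2 * m))).filter fun x : Fin (2 * m) => (x : ℕ) < m else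
          (univ : Finset (Fin (2 * m))).filter fun x : Fin (2 * m) => m ≤ (x : ℕ)).card :=
        Fintype.card_piFinset _
    _ ≤ ∏ _l : Fin n, m := by
        apply Finset.prod_le_prod'
        intro l _
        by_cases hl : l ∈ U
        · rw [if_pos hl]; exact low_card m
        · rw [if_neg hl]; exact up_card m
    _ = m ^ n := by simp

lemma mid (h s m : ℕ) :
    ((univ : Finset (Fin (2 * h) → Fin (2 * m))).filter fun v =>
      h ≤ (univ.filter fun l => (v l : ℕ) < m).card + s ∧
      (univ.filter fun l => (v l : ℕ) < m).card ≤ h + s).card ≤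
      m ^ (2 * h) * ((2 * s + 1) * Nat.choose (2 * h) h) := by
  classical
  set T : Finset (Finset (Fin (2 * h))) :=
    (Icc (h - s) (h + s)).biUnion (fun u => powersetCard u univ) with hT
  have hTc : T.card ≤ (2 * s + 1) * Nat.choose (2 * h) h := by
    refine le_trans (Finset.card_biUnion_le_card_mul _ _ (Nat.choose (2 * h) h) ?_) ?_
    · intro u _
      rw [card_powersetCard, card_univ, Fintype.card_fin]
      have := Nat.choose_le_centralBinom u h
      rwa [Nat.centralBinom_eq_two_mul_choose] at this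
    · apply Nat.mul_le_mul_right
      rw [Nat.card_Icc]
      omega
  refine le_trans (Finset.card_le_mul_card_image_of_maps_to
    (f := fun v : Fin (2 * h) → Fin (2 * m) => (univ.filter fun l => (v l : ℕ) < m))
    (t := T) ?_ (m ^ (2 * h)) ?_) (Nat.mul_le_mul_left _ hTc)
  · intro v hv
    have h1 := (mem_filter.1 hv).2
    rw [hT, mem_biUnion]
    refine ⟨_, ?_, mem_powersetCard.2 ⟨subset_univ _, rfl⟩⟩
    rw [mem_Icc]
    omega
  · intro U _
    refine le_trans (Finset.card_le_card ?_) (fib (2 * h) m U)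
    intro v hv
    rw [mem_filter] at hv ⊢
    exact ⟨mem_univ _, hv.2⟩

end CV

open Classical in
theorem t_CV : S_BIN → S_CV := by
  intro hB τ s hτ
  obtain ⟨h0, hh0⟩ := exists_nat_ge ((2 * (2 * (s : ℝ) + 1) / τ) ^ 2)
  obtain ⟨h, hh⟩ : ∃ h, h = h0 + s + 1 := ⟨_, rfl⟩
  obtain ⟨m0, hm0⟩ := exists_nat_ge (16 * (h : ℝ) / τ)
  obtain ⟨m, hm⟩ : ∃ m, m = m0 + 4 := ⟨_, rfl⟩
  refine ⟨h, 2 * m, by omega, even_two_mul m, by omega, ?_⟩
  have hmpos : (0 : ℝ) < m := by
    have : 0 < m := by omega
    exact_mod_cast this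
  -- the finite set of bad digits
  let F : Finset (Fin (2 * m)) :=
    {⟨0, by omega⟩, ⟨m - 1, by omega⟩, ⟨m, by omega⟩, ⟨2 * m - 1, by omega⟩}
  have hF : (F.card : ℝ) ≤ 4 := by
    have : F.card ≤ 4 := Finset.card_le_four
    exact_mod_cast this
  have hsub : ((univ : Finset (Fin (2 * h) → Fin (2 * m))).filter fun v =>
      (univ.filter fun l => 1 ≤ (v l : ℕ) ∧ (v l : ℕ) + 2 ≤ 2 * m / 2).card ≤ h + s ∧
      (univ.filter fun l => 2 * m / 2 + 1 ≤ (v l : ℕ) ∧ (v l : ℕ) + 2 ≤ 2 * m).card ≤ h + s) ⊆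
      (univ : Finset (Fin (2 * h))).biUnion (fun l =>
        ((univ : Finset (Fin (2 * h) → Fin (2 * m))).filter fun v => v l ∈ F)) ∪
      ((univ : Finset (Fin (2 * h) → Fin (2 * m))).filter fun v =>
      h ≤ (univ.filter fun l => (v l : ℕ) < m).card + s ∧
      (univ.filter fun l => (v l : ℕ) < m).card ≤ h + s) := by
    intro v hv
    have hv2 := (mem_filter.1 hv).2
    rw [mem_union]
    by_cases hbad : ∃ l, v l ∈ F
    · left
      obtain ⟨l, hl⟩ := hbad
      rw [mem_biUnion]
      exact ⟨l, mem_univ _, mem_filter.2 ⟨mem_univ _, hl⟩⟩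
    · right
      push Not at hbad
      have hd : ∀ l, (v l : ℕ) ≠ 0 ∧ (v l : ℕ) ≠ m - 1 ∧ (v l : ℕ) ≠ m ∧ (v l : ℕ) ≠ 2 * m - 1 := by
        intro l
        have := hbad l
        simp only [F, mem_insert, mem_singleton, not_or, Fin.ext_iff] at this
        exact this
      have e1 : (univ.filter fun l => 1 ≤ (v l : ℕ) ∧ (v l : ℕ) + 2 ≤ 2 * m / 2) =
          (univ.filter fun l => (v l : ℕ) < m) := by
        ext l
        have := hd l
        simp only [mem_filter, mem_univ, true_and]
        omega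
      have e2 : (univ.filter fun l => 2 * m / 2 + 1 ≤ (v l : ℕ) ∧ (v l : ℕ) + 2 ≤ 2 * m) =
          (univ.filter fun l => ¬ (v l : ℕ) < m) := by
        ext l
        have := hd l
        have := (v l).2
        simp only [mem_filter, mem_univ, true_and]
        omega
      have e3 := Finset.card_filter_add_card_filter_not (s := (univ : Finset (Fin (2 * h))))
        (fun l => (v l : ℕ) < m)
      rw [card_univ, Fintype.card_fin] at e3
      rw [e1, e2] at hv2
      refine mem_filter.2 ⟨mem_univ _, ?_, hv2.1⟩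
      omega
  have hcard := (Finset.card_le_card hsub).trans (Finset.card_union_le _ _)
  have hb1 : (((univ : Finset (Fin (2 * h))).biUnion (fun l =>
        ((univ : Finset (Fin (2 * h) → Fin (2 * m))).filter fun v => v l ∈ F))).card : ℝ) ≤
      (2 * h : ℝ) * (4 / (2 * m) * (2 * m : ℝ) ^ (2 * h)) := by
    calc (((univ : Finset (Fin (2 * h))).biUnion (fun l =>
        ((univ : Finset (Fin (2 * h) → Fin (2 * m))).filter fun v => v l ∈ F))).card : ℝ)
        ≤ ((∑ l : Fin (2 * h),
          ((univ : Finset (Fin (2 * h) → Fin (2 * m))).filter fun v => v l ∈ F).card : ℕ) : ℝ) := by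
          exact_mod_cast Finset.card_biUnion_le
      _ = ∑ l : Fin (2 * h), ((F.card : ℝ) / ((2 * m : ℕ) : ℝ) * ((2 * m : ℕ) : ℝ) ^ (2 * h)) := by
          push_cast
          apply Finset.sum_congr rfl
          intro l _
          have := CV.bad (n := 2 * h) (M := 2 * m) (by omega) F l
          push_cast at this
          exact this
      _ ≤ ∑ l : Fin (2 * h), ((4 : ℝ) / ((2 * m : ℕ) : ℝ) * ((2 * m : ℕ) : ℝ) ^ (2 * h)) := by
          apply Finset.sum_le_sum
          intro l _
          gcongr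
      _ = (2 * h : ℝ) * (4 / (2 * m) * (2 * m : ℝ) ^ (2 * h)) := by
          rw [Finset.sum_const, card_univ, Fintype.card_fin, nsmul_eq_mul]
          push_cast
          ring
  have hb2 : (((univ : Finset (Fin (2 * h) → Fin (2 * m))).filter fun v =>
      h ≤ (univ.filter fun l => (v l : ℕ) < m).card + s ∧
      (univ.filter fun l => (v l : ℕ) < m).card ≤ h + s).card : ℝ) ≤
      (m : ℝ) ^ (2 * h) * ((2 * s + 1) * (Nat.choose (2 * h) h : ℝ)) := by
    exact_mod_cast CV.mid h s m
  have hC : (2 * (s : ℝ) + 1) * (Nat.choose (2 * h) h : ℝ) ≤ τ / 2 * 4 ^ h := by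
    have h1 : (2 * (h : ℝ) + 1) * (Nat.choose (2 * h) h : ℝ) ^ 2 ≤ 16 ^ h := by
      exact_mod_cast hB h
    have h2 : (2 * (2 * (s : ℝ) + 1) / τ) ^ 2 ≤ 2 * (h : ℝ) + 1 := by
      refine hh0.trans ?_
      have : (h0 : ℝ) ≤ h := by exact_mod_cast (by omega : h0 ≤ h)
      have h' : (0 : ℝ) ≤ h := by positivity
      linarith
    have h3 : (2 * (2 * (s : ℝ) + 1) / τ) ^ 2 * (Nat.choose (2 * h) h : ℝ) ^ 2 ≤ 16 ^ h :=
      (mul_le_mul_of_nonneg_right h2 (by positivity)).trans h1
    have h4 : (2 * (2 * (s : ℝ) + 1) / τ * (Nat.choose (2 * h) h : ℝ)) ^ 2 ≤ (4 ^ h) ^ 2 := by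
      rw [mul_pow]
      refine h3.trans (le_of_eq ?_)
      rw [← pow_mul, mul_comm h 2, pow_mul]
      norm_num
    have h5 := le_of_sq_le_sq h4 (by positivity)
    have h6 : 2 * (2 * (s : ℝ) + 1) / τ * (Nat.choose (2 * h) h : ℝ) =
        (2 * (s : ℝ) + 1) * (Nat.choose (2 * h) h : ℝ) / (τ / 2) := by
      field_simp
    rw [h6, div_le_iff₀ (by positivity)] at h5
    linarith
  have hM1 : (2 * h : ℝ) * (4 / (2 * m) * (2 * m : ℝ) ^ (2 * h)) ≤
      τ / 2 * (2 * m : ℝ) ^ (2 * h) := by
    have h1 : 16 * (h : ℝ) / τ ≤ m := by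
      refine hm0.trans ?_
      exact_mod_cast (by omega : m0 ≤ m)
    rw [div_le_iff₀ hτ] at h1
    have h2 : (2 * h : ℝ) * (4 / (2 * m)) ≤ τ / 2 := by
      rw [show (2 * h : ℝ) * (4 / (2 * m)) = 4 * h / m by field_simp, div_le_iff₀ hmpos]
      have : (0 : ℝ) ≤ h := by positivity
      nlinarith
    calc (2 * h : ℝ) * (4 / (2 * m) * (2 * m : ℝ) ^ (2 * h))
        = ((2 * h : ℝ) * (4 / (2 * m))) * (2 * m : ℝ) ^ (2 * h) := by ring
      _ ≤ τ / 2 * (2 * m : ℝ) ^ (2 * h) := by gcongr
  have hM2 : (m : ℝ) ^ (2 * h) * ((2 * s + 1) * (Nat.choose (2 * h) h : ℝ)) ≤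
      τ / 2 * (2 * m : ℝ) ^ (2 * h) := by
    calc (m : ℝ) ^ (2 * h) * ((2 * s + 1) * (Nat.choose (2 * h) h : ℝ))
        ≤ (m : ℝ) ^ (2 * h) * (τ / 2 * 4 ^ h) := by gcongr
      _ = τ / 2 * (2 * m : ℝ) ^ (2 * h) := by
          rw [mul_pow (2 : ℝ) (m : ℝ), pow_mul (2 : ℝ) 2 h]
          norm_num
          ring
  have hcardR : (((univ : Finset (Fin (2 * h) → Fin (2 * m))).filter fun v =>
      (univ.filter fun l => 1 ≤ (v l : ℕ) ∧ (v l : ℕ) + 2 ≤ 2 * m / 2).card ≤ h + s ∧
      (univ.filter fun l => 2 * m / 2 + 1 ≤ (v l : ℕ) ∧ (v l : ℕ) + 2 ≤ 2 * m).card ≤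
        h + s).card : ℝ) ≤
      (2 * h : ℝ) * (4 / (2 * m) * (2 * m : ℝ) ^ (2 * h)) +
        (m : ℝ) ^ (2 * h) * ((2 * s + 1) * (Nat.choose (2 * h) h : ℝ)) := by
    refine le_trans ?_ (add_le_add hb1 hb2)
    exact_mod_cast hcard
  calc _ ≤ _ := hcardR
    _ ≤ τ / 2 * (2 * m : ℝ) ^ (2 * h) + τ / 2 * (2 * m : ℝ) ^ (2 * h) := add_le_add hM1 hM2
    _ = τ * (((2 * m : ℕ) : ℝ)) ^ (2 * h) := by push_cast; ring

end Pool.Agent.H505PP
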