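import Pool.Agent.H505PP.Defs

set_option autoImplicit false

noncomputable section

namespace Pool.Agent.H505PP

open scoped BigOperators ENNReal Topology
open Finset Filter MeasureTheory

namespace DIG

/-- `⌊N^l t / p⌋` -/
def yy (p N t l : ℕ) : ℕ := N ^ l * t / p

lemma step (p N t l : ℕ) (hp : 0 < p) :
    yy p N t (l + 1) = N * yy p N t l + N * (N ^ l * t % p) / p := by
  unfold yy
  have h1 : N ^ (l + 1) * t = N * (N ^ l * t % p) + p * (N * (N ^ l * t / p)) := by
    have := Nat.mod_add_div (N ^ l * t) p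
    calc N ^ (l + 1) * t = N * (N ^ l * t) := by ring
      _ = N * (N ^ l * t % p + p * (N ^ l * t / p)) := by rw [this]
      _ = _ := by ring
  rw [h1, Nat.add_mul_div_left _ _ hp, add_comm]

lemma digit (p M N' t l : ℕ) (hp : 0 < p) (hN' : 0 < N') :
    (M * (((M * N') ^ l * t) % p)) / p = ((M * N') * (((M * N') ^ l * t) % p) / p) / N' := by
  rw [Nat.div_div_eq_div_mul]
  set r := ((M * N') ^ l * t) % p
  have : M * N' * r = N' * (M * r) := by ring
  rw [this, mul_comm p N', Nat.mul_div_mul_left _ _ hN']

lemma valpow {p : ℕ} [NeZero p] (N l : ℕ) (x : ZMod p) :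
    ((N : ZMod p) ^ l * x).val = (N ^ l * x.val) % p := by
  have h : (N : ZMod p) ^ l * x = ((N ^ l * x.val : ℕ) : ZMod p) := by
    push_cast
    rw [ZMod.natCast_zmod_val]
  rw [h, ZMod.val_natCast]

end DIG

open DIG in
theorem t_DIG : S_DIG := by
  classical
  intro k M N τ hM hMN hN hτ
  obtain ⟨N', rfl⟩ := hMN
  have hN' : 0 < N' := Nat.pos_of_ne_zero (by rintro rfl; simp at hN)
  obtain ⟨p0, hp0⟩ := exists_nat_ge ((((M * N') ^ k : ℕ) : ℝ) / τ)
  refine ⟨p0, ?_⟩
  intro p hpf hpp v hv
  have hp : 0 < p := hpf.out.pos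
  haveI : NeZero p := ⟨hp.ne'⟩
  set A : Finset (ZMod p) := univ.filter fun x : ZMod p =>
    ∀ l : Fin k, dg M (((M * N' : ℕ) : ZMod p) ^ (l : ℕ) * x) = v l with hA
  -- the top digits base N
  let z : ZMod p → ℕ → ℕ := fun x l => (M * N') * (((M * N') ^ l * x.val) % p) / p
  let φ : ZMod p → (Fin k → ℕ) := fun x l => z x l % N'
  have hmaps : ∀ x ∈ A, φ x ∈ Fintype.piFinset (fun _ : Fin k => range N') := by
    intro x _
    rw [Fintype.mem_piFinset]
    intro l
    exact Finset.mem_range.2 (Nat.mod_lt _ hN')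
  have hz : ∀ x ∈ A, ∀ l : Fin k, z x l / N' = v l := by
    intro x hx l
    have h1 := (Finset.mem_filter.1 hx).2 l
    unfold dg at h1
    rw [valpow] at h1
    rw [← h1]
    exact (digit p M N' x.val l hp hN').symm
  have hsame : ∀ x ∈ A, ∀ x' ∈ A, φ x = φ x' →
      yy p (M * N') x.val k = yy p (M * N') x'.val k := by
    intro x hx x' hx' he
    have hzz : ∀ l : Fin k, z x l = z x' l := by
      intro l
      have h1 := hz x hx l
      have h2 := hz x' hx' l
      have h3 : z x l % N' = z x' l % N' := congrFun he l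
      rw [← Nat.mod_add_div (z x l) N', ← Nat.mod_add_div (z x' l) N', h1, h2, h3]
    have hind : ∀ m ≤ k, yy p (M * N') x.val m = yy p (M * N') x'.val m := by
      intro m
      induction m with
      | zero =>
        intro _
        unfold yy
        rw [pow_zero, one_mul, one_mul, Nat.div_eq_of_lt (ZMod.val_lt x),
          Nat.div_eq_of_lt (ZMod.val_lt x')]
      | succ m ih =>
        intro hm
        rw [step _ _ _ _ hp, step _ _ _ _ hp, ih (by omega)]
        have := hzz ⟨m, by omega⟩
        simp only [z] at this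
        rw [this]
    exact hind k le_rfl
  have hfib : ∀ b ∈ Fintype.piFinset (fun _ : Fin k => range N'),
      (A.filter fun x => φ x = b).card ≤ p / (M * N') ^ k + 1 := by
    intro b _
    rcases (A.filter fun x => φ x = b).eq_empty_or_nonempty with he | hne
    · rw [he]; simp
    · -- the image under val
      have hinj : Set.InjOn (ZMod.val : ZMod p → ℕ) ((A.filter fun x => φ x = b : Finset _) : Set _) :=
        fun x _ y _ h => ZMod.val_injective p h
      rw [← Finset.card_image_of_injOn hinj]
      set T := (A.filter fun x => φ x = b).image ZMod.val with hT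
      have hTne : T.Nonempty := hne.image _
      have hsub : T ⊆ Finset.Icc (T.min' hTne) (T.min' hTne + p / (M * N') ^ k) := by
        intro t ht
        rw [Finset.mem_Icc]
        refine ⟨Finset.min'_le _ _ ht, ?_⟩
        obtain ⟨x, hx, hxt⟩ := Finset.mem_image.1 ht
        obtain ⟨x', hx', hxt'⟩ := Finset.mem_image.1 (Finset.min'_mem T hTne)
        rw [Finset.mem_filter] at hx hx'
        have h1 := hsame x hx.1 x' hx'.1 (by rw [hx.2, hx'.2])
        rw [hxt, hxt'] at h1
        unfold yy at h1
        set m := T.min' hTne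
        have hle : m ≤ t := Finset.min'_le _ _ ht
        -- N^k t < p (y+1), p y ≤ N^k m
        have h2 : (M * N') ^ k * t < p * ((M * N') ^ k * t / p) + p := Nat.lt_mul_div_succ _ hp |> fun h => by
          rw [Nat.mul_add] at h; simpa using h
        have h3 : p * ((M * N') ^ k * m / p) ≤ (M * N') ^ k * m := Nat.mul_div_le _ _
        rw [← h1] at h3
        have h4 : (M * N') ^ k * (t - m) < p := by
          rw [Nat.mul_sub]
          omega
        have h5 : t - m ≤ p / (M * N') ^ k := by
          rw [Nat.le_div_iff_mul_le (pow_pos (by omega) _), mul_comm]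
          exact h4.le
        omega
      have := Finset.card_le_card hsub
      rw [Nat.card_Icc] at this
      generalize p / (M * N') ^ k = q at this ⊢
      omega
  have hcard := Finset.card_le_mul_card_image_of_maps_to hmaps (p / (M * N') ^ k + 1) hfib
  rw [Fintype.card_piFinset] at hcard
  simp only [Finset.card_range, Finset.prod_const, Finset.card_univ, Fintype.card_fin] at hcard
  have hM0 : (0 : ℝ) < M := by exact_mod_cast hM
  have hN0 : (0 : ℝ) < N' := by exact_mod_cast hN'
  have h1 : (A.card : ℝ) ≤ (((p / (M * N') ^ k : ℕ) : ℝ) + 1) * (N' : ℝ) ^ k := by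
    exact_mod_cast hcard
  have h2 : ((p / (M * N') ^ k : ℕ) : ℝ) ≤ (p : ℝ) / ((M : ℝ) * N') ^ k := by
    refine le_trans Nat.cast_div_le ?_
    push_cast
    exact le_rfl
  have h3 : (p : ℝ) ≥ ((M : ℝ) * N') ^ k / τ := by
    have : (p0 : ℝ) ≤ p := by exact_mod_cast hpp
    push_cast at hp0
    linarith
  have h4 : ((M : ℝ) * N') ^ k ≤ τ * p := by
    rw [ge_iff_le, div_le_iff₀ hτ] at h3
    linarith
  calc (A.card : ℝ) ≤ ((p : ℝ) / ((M : ℝ) * N') ^ k + 1) * (N' : ℝ) ^ k := by
        refine h1.trans (mul_le_mul_of_nonneg_right (by linarith) (by positivity))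
    _ = (p + ((M : ℝ) * N') ^ k) / (M : ℝ) ^ k := by
        rw [mul_pow]
        field_simp
    _ ≤ (1 + τ) * p / (M : ℝ) ^ k := by
        apply div_le_div_of_nonneg_right _ (by positivity)
        linarith

end Pool.Agent.H505PP
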