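import Pool.Agent.H505PP.Defs

/-!
Project PP, task DN: powers of a large integer are dissociated.
-/

set_option autoImplicit false

noncomputable section

namespace Pool.Agent.H505PP

open scoped BigOperators
open Finset

namespace DN

theorem zero_of_sum (N D : ℕ) (hN : D < N) : ∀ (k : ℕ) (ξ : Fin k → ℤ), (∀ l, |ξ l| ≤ D) →
    ∑ l, ξ l * (N : ℤ) ^ (l : ℕ) = 0 → ∀ l, ξ l = 0 := by
  intro k
  induction k with
  | zero =>
    intro ξ _ _ l
    exact l.elim0
  | succ k ih =>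
    intro ξ hξ hs
    rw [Fin.sum_univ_succ] at hs
    have h1 : ∑ l : Fin k, ξ l.succ * (N : ℤ) ^ ((l.succ : Fin (k + 1)) : ℕ) =
        (N : ℤ) * ∑ l : Fin k, ξ l.succ * (N : ℤ) ^ (l : ℕ) := by
      rw [Finset.mul_sum]
      refine Finset.sum_congr rfl fun l _ => ?_
      rw [Fin.val_succ, pow_succ]
      ring
    rw [h1] at hs
    simp only [Fin.val_zero, pow_zero, mul_one] at hs
    have hN0 : (0 : ℤ) < N := by
      have : 0 < N := by omega
      exact_mod_cast this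
    have h2 : ξ 0 = 0 := by
      have hd : (N : ℤ) ∣ ξ 0 := ⟨-(∑ l : Fin k, ξ l.succ * (N : ℤ) ^ (l : ℕ)), by linarith⟩
      have hlt : |ξ 0| < (N : ℤ) := lt_of_le_of_lt (hξ 0) (by exact_mod_cast hN)
      exact Int.eq_zero_of_abs_lt_dvd hd hlt
    rw [h2, zero_add] at hs
    have h3 : ∑ l : Fin k, ξ l.succ * (N : ℤ) ^ (l : ℕ) = 0 := by
      rcases mul_eq_zero.1 hs with h | h
      · exact absurd h hN0.ne'
      · exact h
    have h4 := ih (fun l => ξ l.succ) (fun l => hξ l.succ) h3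
    intro l
    refine Fin.cases h2 (fun i => h4 i) l

theorem abs_sum_le (N D k : ℕ) (hN : 1 ≤ N) (ξ : Fin k → ℤ) (hξ : ∀ l, |ξ l| ≤ D) :
    |∑ l, ξ l * (N : ℤ) ^ (l : ℕ)| ≤ (k * (D * N ^ k) : ℕ) := by
  calc |∑ l, ξ l * (N : ℤ) ^ (l : ℕ)| ≤ ∑ l, |ξ l * (N : ℤ) ^ (l : ℕ)| :=
        Finset.abs_sum_le_sum_abs _ _
    _ ≤ ∑ _l : Fin k, ((D : ℤ) * (N : ℤ) ^ k) := by
        refine Finset.sum_le_sum fun l _ => ?_
        have hN1 : (1 : ℤ) ≤ N := by exact_mod_cast hN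
        rw [abs_mul, abs_of_nonneg (show (0 : ℤ) ≤ (N : ℤ) ^ (l : ℕ) by positivity)]
        have h1 : (N : ℤ) ^ (l : ℕ) ≤ (N : ℤ) ^ k := pow_le_pow_right₀ hN1 l.2.le
        have h2 := hξ l
        have h3 : (0 : ℤ) ≤ |ξ l| := abs_nonneg _
        exact mul_le_mul h2 h1 (by positivity) (by positivity)
    _ = (k * (D * N ^ k) : ℕ) := by
        rw [Finset.sum_const, Finset.card_univ, Fintype.card_fin, nsmul_eq_mul]
        push_cast
        ring

end DN

theorem t_DN : S_DN := by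
  intro k D N P hN hP
  refine ⟨k * (D * N ^ k) + P + 1, ?_⟩
  intro p hp hp0 ξ hξ hne
  have hξ' : ∀ l, |ξ l| ≤ (D : ℤ) := by
    intro l
    have := Fintype.mem_piFinset.1 hξ l
    rw [Finset.mem_Icc] at this
    exact abs_le.2 this
  set T : ℤ := ∑ l, ξ l * (N : ℤ) ^ (l : ℕ) with hT
  have hT0 : T ≠ 0 := by
    intro h
    exact hne (funext fun l => DN.zero_of_sum N D (by omega) k ξ hξ' h l)
  have hTle := DN.abs_sum_le N D k (by omega) ξ hξ'
  rw [← hT] at hTle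
  have hTp : (T : ZMod p) ≠ 0 := by
    intro h
    have hd : (p : ℤ) ∣ T := (ZMod.intCast_zmod_eq_zero_iff_dvd T p).1 h
    have hlt : |T| < (p : ℤ) := by
      refine lt_of_le_of_lt hTle ?_
      exact_mod_cast (by omega : k * (D * N ^ k) < p)
    exact hT0 (Int.eq_zero_of_abs_lt_dvd hd hlt)
  have hPp : (P : ZMod p) ≠ 0 := by
    intro h
    have hd : p ∣ P := (ZMod.natCast_eq_zero_iff P p).1 h
    have := Nat.le_of_dvd (by omega) hd
    omega
  have hdt : dt ξ (fun l : Fin k => (N : ZMod p) ^ (l : ℕ) * (P : ZMod p) ^ 2) =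
      (T : ZMod p) * (P : ZMod p) ^ 2 := by
    unfold dt
    rw [hT]
    push_cast
    rw [Finset.sum_mul]
    refine Finset.sum_congr rfl fun l _ => ?_
    ring
  rw [hdt]
  exact mul_ne_zero hTp (pow_ne_zero 2 hPp)

end Pool.Agent.H505PP
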