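import Mathlib

/-!
Project PP (helper505), MP_50c6da_an: a sequence good for 2-recurrence of powers whose squares are
not good for 1-recurrence.  Definitions and the statements of all the tasks.
-/

set_option autoImplicit false

noncomputable section

namespace Pool.Agent.H505PP

open scoped BigOperators ENNReal Topology
open Finset Filter MeasureTheory

universe u

/-- the standard additive character of `ZMod p` -/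
abbrev e {p : ℕ} [NeZero p] (t : ZMod p) : ℂ := ZMod.stdAddChar t

/-- quadratic Fourier coefficients -/
def cf {p : ℕ} [NeZero p] (f : ZMod p → ℝ) (c v : ZMod p) : ℂ :=
  (1 / (p : ℂ)) * ∑ x, (f x : ℂ) * e (v * x ^ 2 + c * x)

open Classical in
/-- indicator of a finite set -/
def ind {α : Type*} (B : Finset α) (x : α) : ℝ := if x ∈ B then 1 else 0

/-- Fejér kernel -/
def FK (D : ℕ) (t : ℝ) : ℝ :=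
  ∑ m ∈ Icc (-(D : ℤ)) D, (1 - |(m : ℝ)| / (D + 1)) * Real.cos (2 * Real.pi * m * t)

/-- box of integer vectors -/
def bx (k D : ℕ) : Finset (Fin k → ℤ) := Fintype.piFinset fun _ => Icc (-(D : ℤ)) D

/-- coefficients of the product kernel -/
def hw {k : ℕ} (D : ℕ) (ξ : Fin k → ℤ) : ℝ := ∏ l, (1 - |(ξ l : ℝ)| / (D + 1))

/-- the phase `e(- ξ · θ)` -/
def ph {k : ℕ} (ξ : Fin k → ℤ) (θ : Fin k → ℝ) : ℂ :=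
  Complex.exp (-(2 * Real.pi * Complex.I * ∑ l, (ξ l : ℂ) * (θ l : ℂ)))

/-- `ξ · a` -/
def dt {p k : ℕ} (ξ : Fin k → ℤ) (a : Fin k → ZMod p) : ZMod p := ∑ l, (ξ l : ZMod p) * a l

/-- dissociated -/
def Dis {p k : ℕ} (D : ℕ) (a : Fin k → ZMod p) : Prop := ∀ ξ ∈ bx k D, ξ ≠ 0 → dt ξ a ≠ 0

/-- the weight localising `a_l d² / p` near `θ_l` -/
def wt {p k : ℕ} (D : ℕ) (a : Fin k → ZMod p) (θ : Fin k → ℝ) (d : ZMod p) : ℝ :=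
  ∏ l, FK D (((a l * d ^ 2).val : ℝ) / p - θ l)

/-- weighted count of progressions with difference `j d` -/
def LS {p k : ℕ} [NeZero p] (D : ℕ) (a : Fin k → ZMod p) (θ : Fin k → ℝ) (j : ℕ)
    (f : ZMod p → ℝ) : ℝ :=
  ∑ x, ∑ d, wt D a θ d * (f x * f (x + j * d) * f (x + 2 * j * d))

/-! ### tasks: finite Fourier analysis -/

/-- GS -/
def S_GS : Prop := ∀ (p : ℕ) [Fact p.Prime], 2 < p → ∀ v c : ZMod p, v ≠ 0 →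
  ‖∑ x : ZMod p, e (v * x ^ 2 + c * x)‖ ^ 2 = p

/-- PAR -/
def S_PAR : Prop := ∀ (p : ℕ) [Fact p.Prime] (f : ZMod p → ℝ) (v : ZMod p), (∀ x, |f x| ≤ 1) →
  ∑ c : ZMod p, ‖cf f c v‖ ^ 2 ≤ 1

/-- LSP (input GS) -/
def S_LSP : Prop := ∀ (p : ℕ) [Fact p.Prime], 2 < p → ∀ (f : ZMod p → ℝ) (η : ℝ),
  (∀ x, |f x| ≤ 1) → 0 < η → 4 ≤ η ^ 4 * p → ∀ Φ : Finset (ZMod p × ZMod p),
  (∀ z ∈ Φ, η ≤ ‖cf f z.1 z.2‖) → (Φ.card : ℝ) ≤ 2 / η ^ 2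

/-- CUB (inputs LSP, PAR) -/
def S_CUB : Prop := ∀ (p : ℕ) [Fact p.Prime], 2 < p → ∀ (f : ZMod p → ℝ) (η : ℝ),
  (∀ x, |f x| ≤ 1) → 0 < η → ∀ (V : Finset (ZMod p)) (Ψ : Finset (ZMod p × ZMod p)),
  (∀ z ∈ Ψ, z.2 ∈ V ∧ ‖cf f z.1 z.2‖ < η) →
  ∑ z ∈ Ψ, ‖cf f z.1 z.2‖ ^ 3 ≤ 16 * η + 2 * (4 / (p : ℝ)) ^ ((1 : ℝ) / 4) * V.card

/-- VAR: Varnavides with weights (Roth's theorem is in Mathlib) -/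
def S_VAR : Prop := ∀ δ : ℝ, 0 < δ → ∃ (L : ℕ) (c0 : ℝ), 2 ≤ L ∧ 0 < c0 ∧
  ∀ (p : ℕ) [Fact p.Prime], L < p → ∀ B : Finset (ZMod p), δ * p ≤ B.card →
  ∀ w : ZMod p → ℝ, (∀ d, 0 ≤ w d) → ∃ j : ℕ, 1 ≤ j ∧ j < L ∧
    c0 * p * ∑ d, w d ≤
      ∑ x, ∑ d, w d * (ind B x * ind B (x + j * d) * ind B (x + 2 * j * d))

/-- FEJ -/
def S_FEJ : Prop := ∀ (D : ℕ) (t : ℝ), 0 ≤ FK D t

/-- WE: expansion of the weight -/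
def S_WE : Prop := ∀ (p : ℕ) [Fact p.Prime] (k D : ℕ) (a : Fin k → ZMod p) (θ : Fin k → ℝ)
  (d : ZMod p), (wt D a θ d : ℂ) =
    ∑ ξ ∈ bx k D, (hw D ξ : ℂ) * ph ξ θ * e (dt ξ a * d ^ 2)

/-- MASS (inputs GS, WE) -/
def S_MASS : Prop := ∀ (k D : ℕ) (ε : ℝ), 1 ≤ D → 0 < ε → ∃ p0 : ℕ, ∀ (p : ℕ) [Fact p.Prime],
  p0 ≤ p → ∀ a : Fin k → ZMod p, Dis (2 * D + 2) a → ∀ θ : Fin k → ℝ,
  |(∑ d, wt D a θ d) / p - 1| ≤ ε ∧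
  ∀ l, (∑ d, wt D a θ d * Real.sin (Real.pi * (((a l * d ^ 2).val : ℝ) / p - θ l)) ^ 2) / p ≤
    1 / (2 * ((D : ℝ) + 1)) + ε

/-- TJ -/
def S_TJ : Prop := ∀ (p : ℕ) [Fact p.Prime], 2 < p → ∀ (j : ℕ) (f : ZMod p → ℝ) (v : ZMod p),
  (j : ZMod p) ≠ 0 →
  ∑ x, ∑ d, e (v * d ^ 2) * ((f x : ℂ) * f (x + j * d) * f (x + 2 * j * d)) =
    (p : ℂ) ^ 2 * ∑ c, cf f (-c) (v / (2 * j ^ 2)) ^ 2 * cf f (2 * c) (-2 * (v / (2 * j ^ 2)))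

/-- CMP (inputs WE, TJ, LSP, CUB) -/
def S_CMP : Prop := ∀ (k D L : ℕ) (ε : ℝ), 1 ≤ D → 0 < ε → ε ≤ 1 → ∃ p0 : ℕ,
  ∀ (p : ℕ) [Fact p.Prime], p0 ≤ p → ∀ a : Fin k → ZMod p, Dis (2 * D + 2) a →
  ∀ j : ℕ, 1 ≤ j → j < L → ∀ f : ZMod p → ℝ, (∀ x, |f x| ≤ 1) → ∀ θ : Fin k → ℝ,
  (∀ ξ ∈ bx k D, (∃ c, ε ^ 3 ≤ ‖cf f c (dt ξ a / (2 * j ^ 2))‖) → ph ξ θ = 1) →
  |LS D a θ j f - LS D a 0 j f| ≤ 50 * ε ^ 2 * (p : ℝ) ^ 2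

/-- ALG -/
def S_ALG : Prop := ∀ (m k : ℕ) (q : ℕ) (v : Fin m → Fin k → ℤ), 1 ≤ q →
  ∃ (S : Finset (Fin k)) (c : Fin k → ℤ), S.card ≤ q ^ m ∧ (∀ l ∉ S, c l = 1) ∧
    ∀ i, (q : ℤ) ∣ ∑ l, v i l * c l

/-- TH (inputs LSP, ALG) -/
def S_TH : Prop := ∀ (L : ℕ) (ε : ℝ), 0 < ε → ε ≤ 1 → ∃ s : ℕ, ∀ k D : ℕ, 1 ≤ D → ∃ p0 : ℕ,
  ∀ (p : ℕ) [Fact p.Prime], p0 ≤ p → ∀ a : Fin k → ZMod p, Dis (2 * D + 2) a →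
  ∀ j : ℕ, 1 ≤ j → j < L → ∀ f : ZMod p → ℝ, (∀ x, |f x| ≤ 1) →
  ∃ (θ : Fin k → ℝ) (S : Finset (Fin k)), S.card ≤ s ∧
    (∀ l ∉ S, θ l = 1 / (2 * (j : ℝ) ^ 2)) ∧
    ∀ ξ ∈ bx k D, (∃ c, ε ^ 3 ≤ ‖cf f c (dt ξ a / (2 * j ^ 2))‖) → ph ξ θ = 1

/-- FST: the main Fourier statement (inputs VAR, FEJ, MASS, CMP, TH) -/
def S_FST : Prop := ∀ δ : ℝ, 0 < δ → ∃ s : ℕ, ∀ (k : ℕ) (ε : ℝ), 0 < ε → ∃ D p0 : ℕ,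
  ∀ (p : ℕ) [Fact p.Prime], p0 ≤ p → ∀ a : Fin k → ZMod p, Dis (2 * D + 2) a →
  ∀ B : Finset (ZMod p), δ * p ≤ B.card → ∃ (r x : ZMod p) (S : Finset (Fin k)), S.card ≤ s ∧
    (∀ l ∉ S, |((a l * r ^ 2).val : ℝ) / p - 1 / 2| < ε) ∧ x ∈ B ∧ x + r ∈ B ∧ x + 2 * r ∈ B

/-! ### tasks: the sign functions -/

/-- top digit in base `M` of `y / p` -/
def dg (M : ℕ) {p : ℕ} (y : ZMod p) : ℕ := (M * y.val) / p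

open Classical in
/-- number of digits well inside the lower half -/
def pc (M N h : ℕ) {p : ℕ} (x : ZMod p) : ℕ :=
  (univ.filter fun l : Fin (2 * h) => 1 ≤ dg M ((N : ZMod p) ^ (l : ℕ) * x) ∧
    dg M ((N : ZMod p) ^ (l : ℕ) * x) + 2 ≤ M / 2).card

open Classical in
/-- number of digits well inside the upper half -/
def mc (M N h : ℕ) {p : ℕ} (x : ZMod p) : ℕ :=
  (univ.filter fun l : Fin (2 * h) => M / 2 + 1 ≤ dg M ((N : ZMod p) ^ (l : ℕ) * x) ∧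
    dg M ((N : ZMod p) ^ (l : ℕ) * x) + 2 ≤ M).card

/-- the sign function -/
def sgn (M N h s : ℕ) {p : ℕ} (x : ZMod p) : ℤ :=
  if h + s + 1 ≤ pc M N h x then 1 else if h + s + 1 ≤ mc M N h x then -1 else 0

/-- SH -/
def S_SH : Prop := ∀ (p : ℕ) [Fact p.Prime] (M N h s : ℕ), Even M → 8 ≤ M →
  ∀ (S : Finset (Fin (2 * h))) (n : ZMod p), S.card ≤ s →
  ((∀ l ∉ S, |((((N : ZMod p) ^ (l : ℕ)) * n).val : ℝ) / p - 1 / 2| < 1 / M) →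
    ∀ x, sgn M N h s x ≠ 0 → sgn M N h s (x + n) ≠ sgn M N h s x) ∧
  ((∀ l : Fin (2 * h), ((((N : ZMod p) ^ (l : ℕ)) * n).val : ℝ) / p < 1 / M) →
    ∀ x, sgn M N h s x ≠ 0 → sgn M N h s (x + n) ≠ -sgn M N h s x)

/-- BIN -/
def S_BIN : Prop := ∀ h : ℕ, (2 * h + 1) * (Nat.choose (2 * h) h) ^ 2 ≤ 16 ^ h

open Classical in
/-- CV: counting digit vectors (input BIN) -/
def S_CV : Prop := ∀ (τ : ℝ) (s : ℕ), 0 < τ → ∃ h M : ℕ, s < h ∧ Even M ∧ 8 ≤ M ∧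
  ((univ.filter fun v : Fin (2 * h) → Fin M =>
    (univ.filter fun l => 1 ≤ (v l : ℕ) ∧ (v l : ℕ) + 2 ≤ M / 2).card ≤ h + s ∧
    (univ.filter fun l => M / 2 + 1 ≤ (v l : ℕ) ∧ (v l : ℕ) + 2 ≤ M).card ≤ h + s).card : ℝ) ≤
    τ * (M : ℝ) ^ (2 * h)

open Classical in
/-- DIG: equidistribution of the digits -/
def S_DIG : Prop := ∀ (k M N : ℕ) (τ : ℝ), 1 ≤ M → M ∣ N → 1 ≤ N → 0 < τ → ∃ p0 : ℕ,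
  ∀ (p : ℕ) [Fact p.Prime], p0 ≤ p → ∀ v : Fin k → ℕ, (∀ l, v l < M) →
  ((univ.filter fun x : ZMod p => ∀ l : Fin k, dg M ((N : ZMod p) ^ (l : ℕ) * x) = v l).card : ℝ)
    ≤ (1 + τ) * p / (M : ℝ) ^ k

open Classical in
/-- CT (inputs CV, DIG) -/
def S_CT : Prop := ∀ (τ : ℝ) (s : ℕ), 0 < τ → ∃ h M : ℕ, s < h ∧ Even M ∧ 8 ≤ M ∧
  ∀ N : ℕ, M ∣ N → 1 ≤ N → ∃ p0 : ℕ, ∀ (p : ℕ) [Fact p.Prime], p0 ≤ p →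
  ((univ.filter fun x : ZMod p => sgn M N h s x = 0).card : ℝ) ≤ τ * p

/-- DN: powers of a large integer are dissociated -/
def S_DN : Prop := ∀ (k D N P : ℕ), 2 * D + 2 ≤ N → 1 ≤ P → ∃ p0 : ℕ, ∀ (p : ℕ) [Fact p.Prime],
  p0 ≤ p → Dis D (fun l : Fin k => (N : ZMod p) ^ (l : ℕ) * (P : ZMod p) ^ 2)

/-- data of one level -/
structure Lev where
  p : ℕ
  σ : ZMod p → ℤ
  R : Finset ℕ
  N : ℕ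

open Classical in
/-- properties of one level -/
structure LevOK (δ τ : ℝ) (P H : ℕ) (v : Lev) : Prop where
  pr : v.p.Prime
  big : P < v.p
  val : ∀ x, v.σ x = 0 ∨ v.σ x = 1 ∨ v.σ x = -1
  zer : ((Set.ncard {x : ZMod v.p | v.σ x = 0} : ℕ) : ℝ) ≤ τ * v.p
  pos : ∀ r ∈ v.R, 1 ≤ r
  flip : ∀ r ∈ v.R, ∀ x, v.σ x ≠ 0 → v.σ (x + (((P * r) ^ 2 : ℕ) : ZMod v.p)) ≠ v.σ x
  stay : ∀ n : ℕ, n ≤ H → ∀ x, v.σ x ≠ 0 → v.σ (x + (n : ZMod v.p)) ≠ -v.σ x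
  N1 : 1 ≤ v.N
  rec2 : ∀ B : Finset ℕ, B ⊆ range v.N → δ * v.N ≤ B.card →
    ∃ r ∈ v.R, ∃ x, x ∈ B ∧ x + r ∈ B ∧ x + 2 * r ∈ B

/-- LV (inputs FST, SH, CT, DN) -/
def S_LV : Prop := ∀ (δ τ : ℝ) (P H : ℕ), 0 < δ → 0 < τ → 1 ≤ P → ∃ v : Lev, LevOK δ τ P H v

/-- the product of the previous primes -/
def PP (p : ℕ → ℕ) (i : ℕ) : ℕ := ∏ m ∈ range i, p m

/-- the whole construction -/
structure Con (p : ℕ → ℕ) (σ : ∀ i, ZMod (p i) → ℤ) (R : ℕ → Finset ℕ) : Prop where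
  pr : ∀ i, (p i).Prime
  big : ∀ i, PP p i < p i
  val : ∀ i x, σ i x = 0 ∨ σ i x = 1 ∨ σ i x = -1
  zer : ∀ i, ((Set.ncard {x : ZMod (p i) | σ i x = 0} : ℕ) : ℝ) ≤ (1 / 4) ^ (i + 1) * p i
  div : ∀ i, ∀ r ∈ R i, PP p i ∣ r ∧ 1 ≤ r
  flip : ∀ i, ∀ r ∈ R i, ∀ x, σ i x ≠ 0 → σ i (x + ((r ^ 2 : ℕ) : ZMod (p i))) ≠ σ i x
  stay : ∀ i m, i < m → ∀ r ∈ R i, ∀ x, σ m x ≠ 0 →
    σ m (x + ((r ^ 2 : ℕ) : ZMod (p m))) ≠ -σ m x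
  rec2 : ∀ i : ℕ, ∃ N : ℕ, 1 ≤ N ∧ ∀ B : Finset ℕ, B ⊆ range N →
    (N : ℝ) / ((i : ℝ) + 1) ≤ B.card → ∃ r ∈ R i, ∃ x, x ∈ B ∧ x + r ∈ B ∧ x + 2 * r ∈ B

/-- REC (input LV) -/
def S_REC : Prop := ∃ (p : ℕ → ℕ) (σ : ∀ i, ZMod (p i) → ℤ) (R : ℕ → Finset ℕ), Con p σ R

/-- AJ -/
def S_AJ : Prop := ∀ (p : ℕ → ℕ) (σ : ∀ i, ZMod (p i) → ℤ) (R : ℕ → Finset ℕ), Con p σ R →
  ∀ J : ℕ, ∃ A : ZMod (PP p J) → Prop,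
    (1 / 4 : ℝ) * PP p J ≤ (Set.ncard {x : ZMod (PP p J) | A x} : ℕ) ∧
    ∀ i < J, ∀ r ∈ R i, ∀ x, ¬ (A x ∧ A (x + ((r ^ 2 : ℕ) : ZMod (PP p J))))

/-- LIM -/
def S_LIM : Prop := ∀ (S : ℕ → Prop) (c : ℝ), 0 < c →
  (∀ K : ℕ, ∃ (N : ℕ) (_ : NeZero N) (A : ZMod N → Prop),
    c * N ≤ (Set.ncard {x : ZMod N | A x} : ℕ) ∧
    ∀ n, S n → n < K → ∀ x, ¬ (A x ∧ A (x + (n : ZMod N)))) →
  ∃ (X : Type) (_ : MeasurableSpace X) (μ : Measure X) (_ : IsProbabilityMeasure μ) (T : X ≃ᵐ X)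
    (A : Set X), MeasurePreserving T μ μ ∧ MeasurableSet A ∧ 0 < μ A ∧
    ∀ n, S n → μ (A ∩ (T^[n]) ⁻¹' A) = 0

/-- GD -/
def S_GD : Prop := ∀ R : ℕ → Finset ℕ,
  (∀ i : ℕ, ∃ N : ℕ, 1 ≤ N ∧ ∀ B : Finset ℕ, B ⊆ range N →
    (N : ℝ) / ((i : ℝ) + 1) ≤ B.card → ∃ r ∈ R i, ∃ x, x ∈ B ∧ x + r ∈ B ∧ x + 2 * r ∈ B) →
  ∀ (X : Type u) [MeasurableSpace X] (μ : Measure X) [IsProbabilityMeasure μ] (T : X → X),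
    MeasurePreserving T μ μ → ∀ A : Set X, MeasurableSet A → 0 < μ A →
    ∃ i, ∃ r ∈ R i, 0 < μ (A ∩ (T^[r]) ⁻¹' A ∩ (T^[2 * r]) ⁻¹' A)

/-- the powers of an invertible map -/
def zpw {X : Type u} [MeasurableSpace X] (T : X ≃ᵐ X) (n : ℤ) : Equiv.Perm X :=
  (T.toEquiv : Equiv.Perm X) ^ n

/-- good for `ℓ`-recurrence of powers -/
def GoodRec (l : ℕ) (a : ℕ → ℤ) : Prop :=
  ∀ (X : Type u) [MeasurableSpace X] (μ : Measure X) [IsProbabilityMeasure μ]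
    (T : X ≃ᵐ X), MeasurePreserving T μ μ → ∀ A : Set X, MeasurableSet A → 0 < μ A →
      ∃ n, a n ≠ 0 ∧ 0 < μ (⋂ i ∈ Finset.range (l + 1), (zpw T ((i : ℤ) * a n)) ⁻¹' A)

/-- FIN (inputs AJ, LIM, GD) -/
def S_FIN : Prop := ∀ (p : ℕ → ℕ) (σ : ∀ i, ZMod (p i) → ℤ) (R : ℕ → Finset ℕ), Con p σ R →
  ∃ a : ℕ → ℤ, StrictMono a ∧ (∀ n, 0 < a n) ∧ GoodRec.{u} 2 a ∧
    ¬ GoodRec.{0} 1 (fun n => a n ^ 2)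

end Pool.Agent.H505PP
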