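import Pool.Agent.H505PP.Defs

/-! Task FEJ: the Fejér kernel is nonnegative. -/

set_option autoImplicit false

noncomputable section

namespace Pool.Agent.H505PP

open scoped BigOperators ENNReal Topology
open Finset Filter MeasureTheory

namespace FEJ

/-- Dirichlet kernel -/
def A (t : ℝ) (n : ℕ) : ℝ := ∑ m ∈ Icc (-(n : ℤ)) n, Real.cos (2 * Real.pi * m * t)

lemma Icc_succ (n : ℕ) : Icc (-((n + 1 : ℕ) : ℤ)) ((n + 1 : ℕ) : ℤ) =
    insert (-((n + 1 : ℕ) : ℤ)) (insert ((n + 1 : ℕ) : ℤ) (Icc (-(n : ℤ)) n)) := by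
  ext m
  simp only [mem_Icc, mem_insert]
  push_cast
  omega

lemma sum_succ (n : ℕ) (g : ℤ → ℝ) : ∑ m ∈ Icc (-((n + 1 : ℕ) : ℤ)) ((n + 1 : ℕ) : ℤ), g m =
    g (-((n + 1 : ℕ) : ℤ)) + (g ((n + 1 : ℕ) : ℤ) + ∑ m ∈ Icc (-(n : ℤ)) n, g m) := by
  rw [Icc_succ, sum_insert, sum_insert]
  · simp only [mem_Icc]
    push_cast
    omega
  · simp only [mem_insert, mem_Icc]
    push_cast
    omega

lemma A_succ (t : ℝ) (n : ℕ) :
    A t (n + 1) = A t n + 2 * Real.cos (2 * Real.pi * ((n : ℝ) + 1) * t) := by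
  unfold A
  rw [sum_succ]
  push_cast
  have : 2 * Real.pi * (-1 + -(n : ℝ)) * t = -(2 * Real.pi * ((n : ℝ) + 1) * t) := by ring
  have h2 : 2 * Real.pi * (-((n : ℝ) + 1)) * t = -(2 * Real.pi * ((n : ℝ) + 1) * t) := by ring
  first
  | rw [h2, Real.cos_neg]; ring
  | rw [this, Real.cos_neg]; ring

lemma A_eq (t : ℝ) (n : ℕ) :
    A t n = 1 + 2 * ∑ k ∈ range n, Real.cos (2 * Real.pi * ((k : ℝ) + 1) * t) := by
  induction n with
  | zero => simp [A]
  | succ n ih =>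
    rw [A_succ, ih, sum_range_succ]
    ring

lemma F_eq (t : ℝ) (D : ℕ) :
    ∑ m ∈ Icc (-(D : ℤ)) D, ((D : ℝ) + 1 - |(m : ℝ)|) * Real.cos (2 * Real.pi * m * t) =
      ∑ n ∈ range (D + 1), A t n := by
  induction D with
  | zero => simp [A]
  | succ D ih =>
    rw [sum_range_succ, ← ih]
    have h1 : ∑ m ∈ Icc (-(D : ℤ)) D, ((D : ℝ) + 1 - |(m : ℝ)|) * Real.cos (2 * Real.pi * m * t) =
        ∑ m ∈ Icc (-((D + 1 : ℕ) : ℤ)) ((D + 1 : ℕ) : ℤ),
          ((D : ℝ) + 1 - |(m : ℝ)|) * Real.cos (2 * Real.pi * m * t) := by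
      rw [sum_succ]
      have e1 : |(((-((D + 1 : ℕ) : ℤ)) : ℤ) : ℝ)| = (D : ℝ) + 1 := by
        push_cast
        rw [abs_neg, abs_of_nonneg (by positivity)]
      have e2 : |((((D + 1 : ℕ) : ℤ)) : ℝ)| = (D : ℝ) + 1 := by
        push_cast
        rw [abs_of_nonneg (by positivity)]
      rw [e1, e2]
      ring
    rw [h1]
    unfold A
    rw [← sum_add_distrib]
    refine sum_congr rfl fun m _ => ?_
    push_cast
    ring

lemma S_eq (t : ℝ) (D : ℕ) :
    (∑ r ∈ range (D + 1), Real.cos (2 * Real.pi * r * t)) ^ 2 +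
      (∑ r ∈ range (D + 1), Real.sin (2 * Real.pi * r * t)) ^ 2 =
      ∑ n ∈ range (D + 1), A t n := by
  induction D with
  | zero => simp [A]
  | succ D ih =>
    rw [sum_range_succ (fun n => A t n), ← ih, sum_range_succ _ (D + 1), sum_range_succ _ (D + 1)]
    have h1 : A t (D + 1) = 1 + 2 * ((∑ r ∈ range (D + 1), Real.cos (2 * Real.pi * r * t)) *
        Real.cos (2 * Real.pi * ((D + 1 : ℕ) : ℝ) * t) +
        (∑ r ∈ range (D + 1), Real.sin (2 * Real.pi * r * t)) *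
        Real.sin (2 * Real.pi * ((D + 1 : ℕ) : ℝ) * t)) := by
      rw [A_eq, sum_mul, sum_mul, ← sum_add_distrib]
      congr 2
      rw [← sum_range_reflect]
      refine sum_congr rfl fun r hr => ?_
      have hr' : r ≤ D := by
        rw [mem_range] at hr
        omega
      have e : ((D + 1 - 1 - r : ℕ) : ℝ) = (D : ℝ) - r := by
        rw [Nat.add_sub_cancel, Nat.cast_sub hr']
      rw [e]
      have e2 : 2 * Real.pi * ((D : ℝ) - r + 1) * t =
          2 * Real.pi * ((D + 1 : ℕ) : ℝ) * t - 2 * Real.pi * r * t := by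
        push_cast
        ring
      rw [e2, Real.cos_sub]
      ring
    rw [h1]
    have h2 := Real.sin_sq_add_cos_sq (2 * Real.pi * ((D + 1 : ℕ) : ℝ) * t)
    linear_combination h2

end FEJ

theorem t_FEJ : S_FEJ := by
  intro D t
  have hD : (0 : ℝ) < (D : ℝ) + 1 := by positivity
  have h1 : FK D t = ((D : ℝ) + 1)⁻¹ *
      ((∑ r ∈ range (D + 1), Real.cos (2 * Real.pi * r * t)) ^ 2 +
      (∑ r ∈ range (D + 1), Real.sin (2 * Real.pi * r * t)) ^ 2) := by
    rw [FEJ.S_eq, ← FEJ.F_eq, mul_sum]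
    unfold FK
    refine sum_congr rfl fun m _ => ?_
    field_simp
  rw [h1]
  positivity

end Pool.Agent.H505PP
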