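import Pool.Agent.H505PP.Defs

/-!
Task FIN of project PP: the final assembly.
-/

set_option autoImplicit false

noncomputable section

namespace Pool.Agent.H505PP

open scoped BigOperators ENNReal Topology
open Finset Filter MeasureTheory

universe u

namespace FIN

theorem pp_ge (p : ℕ → ℕ) (hp : ∀ i, (p i).Prime) (i : ℕ) : 2 ^ i ≤ PP p i := by
  unfold PP
  induction i with
  | zero => simp
  | succ i ih =>
    rw [Finset.prod_range_succ, pow_succ]
    exact Nat.mul_le_mul ih (hp i).two_le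

theorem zpw_nat {X : Type u} [MeasurableSpace X] (T : X ≃ᵐ X) (n : ℕ) (x : X) :
    zpw T (n : ℤ) x = T^[n] x := by
  unfold zpw
  rw [zpow_natCast, Equiv.Perm.coe_pow]
  rfl

end FIN

open FIN

theorem t_FIN : S_AJ → S_LIM → S_GD.{u} → S_FIN.{u} := by
  intro hAJ hLIM hGD p σ R hcon
  set S : ℕ → Prop := fun r => ∃ i, r ∈ R i with hS
  have hne : ∀ i, ∃ r, r ∈ R i := by
    intro i
    obtain ⟨N, hN, h⟩ := hcon.rec2 i
    obtain ⟨r, hr, -⟩ := h (range N) (Finset.Subset.refl _) (by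
      rw [Finset.card_range]
      have h1 : (1 : ℝ) ≤ (i : ℝ) + 1 := by
        have : (0 : ℝ) ≤ (i : ℝ) := Nat.cast_nonneg _
        linarith
      exact div_le_self (Nat.cast_nonneg _) h1)
    exact ⟨r, hr⟩
  have hge : ∀ i, ∀ r ∈ R i, 2 ^ i ≤ r := by
    intro i r hr
    obtain ⟨h1, h2⟩ := hcon.div i r hr
    exact (pp_ge p hcon.pr i).trans (Nat.le_of_dvd (by omega) h1)
  have hpos : ∀ r, S r → 1 ≤ r := by
    rintro r ⟨i, hr⟩
    exact (hcon.div i r hr).2
  have hinf : (Set.ofPred S).Infinite := by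
    refine Set.infinite_of_forall_exists_gt fun a => ?_
    obtain ⟨r, hr⟩ := hne a
    exact ⟨r, ⟨a, hr⟩, lt_of_lt_of_le Nat.lt_two_pow_self (hge a r hr)⟩
  refine ⟨fun n => (Nat.nth S n : ℤ), ?_, ?_, ?_, ?_⟩
  · intro m n hmn
    have := Nat.nth_strictMono hinf hmn
    show (Nat.nth S m : ℤ) < (Nat.nth S n : ℤ)
    exact_mod_cast this
  · intro n
    have := hpos _ (Nat.nth_mem_of_infinite hinf n)
    show (0 : ℤ) < (Nat.nth S n : ℤ)
    exact_mod_cast this
  · intro X _ μ _ T hT A hA hA0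
    obtain ⟨i, r, hr, hμ⟩ := hGD R hcon.rec2 X μ T hT A hA hA0
    have hrS : r ∈ Set.range (Nat.nth S) := by
      rw [Nat.range_nth_of_infinite hinf]
      exact ⟨i, hr⟩
    obtain ⟨n, hn⟩ := hrS
    refine ⟨n, ?_, ?_⟩
    · have := hpos r ⟨i, hr⟩
      simp only [hn]
      exact_mod_cast (by omega : r ≠ 0)
    · refine lt_of_lt_of_le hμ (measure_mono ?_)
      rintro x ⟨⟨hx0, hx1⟩, hx2⟩
      simp only [hn, Set.mem_iInter, Set.mem_preimage]
      intro j hj
      rw [Finset.mem_range] at hj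
      have e1 : ((j : ℤ) * (r : ℤ)) = ((j * r : ℕ) : ℤ) := by push_cast; ring
      rw [e1, zpw_nat]
      interval_cases j
      · simpa using hx0
      · rw [one_mul]; exact hx1
      · exact hx2
  · intro h
    obtain ⟨X, mX, μ, hμ, T, A, hT, hA, hA0, hz⟩ := hLIM (fun n => ∃ r, S r ∧ n = r ^ 2) (1 / 4)
      (by norm_num) (by
        intro K
        have hP : 0 < PP p K := lt_of_lt_of_le (by positivity) (pp_ge p hcon.pr K)
        obtain ⟨A, hA1, hA2⟩ := hAJ p σ R hcon K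
        refine ⟨PP p K, ⟨hP.ne'⟩, A, hA1, ?_⟩
        rintro n ⟨r, ⟨i, hr⟩, rfl⟩ hnK x
        have h1 : i < r := lt_of_lt_of_le Nat.lt_two_pow_self (hge i r hr)
        have h2 : r ≤ r ^ 2 := Nat.le_self_pow (by norm_num) r
        exact hA2 i (by omega) r hr x)
    obtain ⟨n, -, hn⟩ := h X μ T hT A hA hA0
    have hrS : S (Nat.nth S n) := Nat.nth_mem_of_infinite hinf n
    have h0 := hz ((Nat.nth S n) ^ 2) ⟨_, hrS, rfl⟩
    refine absurd hn (not_lt.mpr (le_trans (measure_mono ?_) (le_of_eq h0)))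
    intro x hx
    simp only [Set.mem_iInter, Set.mem_preimage] at hx
    have e1 : (((1 : ℕ) : ℤ) * ((Nat.nth S n : ℤ)) ^ 2) = (((Nat.nth S n) ^ 2 : ℕ) : ℤ) := by
      push_cast; ring
    have e0 : (((0 : ℕ) : ℤ) * ((Nat.nth S n : ℤ)) ^ 2) = ((0 : ℕ) : ℤ) := by
      push_cast; ring
    have hx0 := hx 0 (by simp)
    have hx1 := hx 1 (by simp)
    rw [e0, zpw_nat] at hx0
    rw [e1, zpw_nat] at hx1
    exact ⟨hx0, hx1⟩

end Pool.Agent.H505PP
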