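import Pool.Agent.H505PP.Defs

/-!
# The main Fourier statement
-/

set_option autoImplicit false

namespace Pool.Agent.H505PP

open scoped BigOperators
open Finset

namespace FST

theorem ind_cases {α : Type*} (B : Finset α) (x : α) : ind B x = 0 ∨ ind B x = 1 := by
  unfold ind
  split_ifs
  · exact Or.inr rfl
  · exact Or.inl rfl

theorem ind_ne {α : Type*} (B : Finset α) (x : α) (h : ind B x ≠ 0) : x ∈ B := by
  by_contra h1
  exact h (by unfold ind; rw [if_neg h1])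

/-- near an integer -/
theorem near (u ε2 : ℝ) (h0 : 0 < ε2) (h1 : ε2 ≤ 1 / 4)
    (h : Real.sin (Real.pi * u) ^ 2 < Real.sin (Real.pi * ε2) ^ 2) : ∃ n : ℤ, |u - n| < ε2 := by
  refine ⟨round u, ?_⟩
  by_contra hcon
  rw [not_lt] at hcon
  have hpi := Real.pi_pos
  have h2 : |u - round u| ≤ 1 / 2 := abs_sub_round u
  have h3 : Real.sin (Real.pi * u) ^ 2 = Real.sin (Real.pi * |u - round u|) ^ 2 := by
    have h4 : Real.pi * u = Real.pi * (u - round u) + (round u : ℤ) * Real.pi := by ring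
    have h5 : (((-1 : ℝ) ^ (round u : ℤ))) ^ 2 = 1 := by
      rw [← zpow_natCast, ← zpow_mul, mul_comm, zpow_mul]
      norm_num
    rw [h4, Real.sin_add_int_mul_pi, mul_pow, h5, one_mul]
    rcases abs_cases (u - round u) with h6 | h6
    · rw [h6.1]
    · rw [h6.1, mul_neg, Real.sin_neg, neg_sq]
  have h4 : Real.sin (Real.pi * ε2) ≤ Real.sin (Real.pi * |u - round u|) := by
    refine Real.sin_le_sin_of_le_of_le_pi_div_two ?_ ?_ ?_
    · nlinarith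
    · nlinarith
    · exact mul_le_mul_of_nonneg_left hcon hpi.le
  have h5 : 0 ≤ Real.sin (Real.pi * ε2) :=
    (Real.sin_pos_of_pos_of_lt_pi (by positivity) (by nlinarith)).le
  have h6 := pow_le_pow_left₀ h5 h4 2
  rw [h3] at h
  linarith

theorem valp {p : ℕ} [Fact p.Prime] (j : ℕ) (y : ZMod p) :
    ∃ m : ℕ, ((((j : ZMod p) ^ 2 * y).val : ℕ) : ℝ) / p
      = (j : ℝ) ^ 2 * ((y.val : ℝ) / p) - m := by
  have hp : (p : ℝ) ≠ 0 := by
    have := (Fact.out : p.Prime).pos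
    positivity
  refine ⟨(j ^ 2 * y.val) / p, ?_⟩
  have h1 : (j : ZMod p) ^ 2 * y = ((j ^ 2 * y.val : ℕ) : ZMod p) := by
    push_cast
    rw [ZMod.natCast_zmod_val]
  have h2 : ((j : ZMod p) ^ 2 * y).val = (j ^ 2 * y.val) % p := by rw [h1, ZMod.val_natCast]
  have h3 := Nat.div_add_mod (j ^ 2 * y.val) p
  have h4 : (p : ℝ) * ((j ^ 2 * y.val / p : ℕ) : ℝ) + ((j ^ 2 * y.val % p : ℕ) : ℝ)
      = (j : ℝ) ^ 2 * y.val := by exact_mod_cast h3
  rw [h2]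
  have h5 : ((j ^ 2 * y.val % p : ℕ) : ℝ) = (j : ℝ) ^ 2 * y.val
      - (p : ℝ) * ((j ^ 2 * y.val / p : ℕ) : ℝ) := by linarith
  rw [h5]
  field_simp

theorem half (j : ℕ) (hj : 1 ≤ j) (T t v ε ε2 : ℝ) (m n : ℤ) (h0 : 0 ≤ T) (h1 : T < 1)
    (hT : T = (j : ℝ) ^ 2 * t - m) (ht : t - 1 / (2 * (j : ℝ) ^ 2) - n = v) (hv : |v| < ε2)
    (he : (j : ℝ) ^ 2 * ε2 ≤ ε) (he' : (j : ℝ) ^ 2 * ε2 ≤ 1 / 4) : |T - 1 / 2| < ε := by
  have hj' : (1 : ℝ) ≤ j := by exact_mod_cast hj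
  have hjj : 0 < (j : ℝ) ^ 2 := by positivity
  have h2 : T - 1 / 2 = (j : ℝ) ^ 2 * v + (((j : ℤ) ^ 2 * n - m : ℤ) : ℝ) := by
    have h3 : t = v + n + 1 / (2 * (j : ℝ) ^ 2) := by linarith
    have h4 : (j : ℝ) ^ 2 * (1 / (2 * (j : ℝ) ^ 2)) = 1 / 2 := by
      field_simp
    rw [hT, h3]
    push_cast
    rw [mul_add, h4]
    ring
  have h3 : |(j : ℝ) ^ 2 * v| < (j : ℝ) ^ 2 * ε2 := by
    rw [abs_mul, abs_of_pos hjj]
    exact mul_lt_mul_of_pos_left hv hjj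
  have h4 := abs_lt.1 h3
  have h5 : (j : ℤ) ^ 2 * n - m = 0 := by
    have h6 : (-1 : ℝ) < (((j : ℤ) ^ 2 * n - m : ℤ) : ℝ) := by linarith [h4.1, h4.2]
    have h7 : (((j : ℤ) ^ 2 * n - m : ℤ) : ℝ) < 1 := by linarith [h4.1, h4.2]
    have h8 : -1 < (j : ℤ) ^ 2 * n - m := by exact_mod_cast h6
    have h9 : (j : ℤ) ^ 2 * n - m < 1 := by exact_mod_cast h7
    linarith
  rw [h2, h5, Int.cast_zero, add_zero]
  exact lt_of_lt_of_le h3 he

end FST

open FST in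
theorem t_FST : S_VAR → S_FEJ → S_MASS → S_CMP → S_TH → S_FST := by
  intro hVAR hFEJ hMASS hCMP hTH δ hδ
  obtain ⟨L, c0, hL2, hc0, hV⟩ := hVAR δ hδ
  have hpi := Real.pi_pos
  obtain ⟨ε1, h1pos, h1le, h1c⟩ : ∃ ε1 : ℝ, 0 < ε1 ∧ ε1 ≤ 1 ∧ 50 * ε1 ^ 2 ≤ c0 / 4 := by
    refine ⟨min 1 (c0 / 200), lt_min one_pos (by positivity), min_le_left _ _, ?_⟩
    have h1 : min 1 (c0 / 200) ≤ c0 / 200 := min_le_right _ _
    have h2 : min 1 (c0 / 200) ≤ 1 := min_le_left _ _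
    have h3 : 0 < min 1 (c0 / 200) := lt_min one_pos (by positivity)
    nlinarith
  obtain ⟨s, hs⟩ := hTH L ε1 h1pos h1le
  refine ⟨s, fun k ε hε => ?_⟩
  have hL0 : (0 : ℝ) < (L : ℝ) ^ 2 + 1 := by positivity
  have hm0 : 0 < min ε (1 / 4) := lt_min hε (by norm_num)
  obtain ⟨ε2, h2pos, h2le, h2L⟩ : ∃ ε2 : ℝ, 0 < ε2 ∧ ε2 ≤ 1 / 4 ∧
      (L : ℝ) ^ 2 * ε2 ≤ min ε (1 / 4) := by
    refine ⟨min ε (1 / 4) / ((L : ℝ) ^ 2 + 1), div_pos hm0 hL0, ?_, ?_⟩
    · rw [div_le_iff₀ hL0]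
      have h1 := min_le_right ε (1 / 4 : ℝ)
      have h2 := sq_nonneg (L : ℝ)
      linarith
    · rw [← mul_div_assoc, div_le_iff₀ hL0]
      nlinarith
  have hsin : 0 < Real.sin (Real.pi * ε2) :=
    Real.sin_pos_of_pos_of_lt_pi (by positivity) (by nlinarith)
  obtain ⟨σ, hσ⟩ : ∃ σ : ℝ, σ = Real.sin (Real.pi * ε2) ^ 2 := ⟨_, rfl⟩
  have hσ0 : 0 < σ := by rw [hσ]; positivity
  have hk0 : (0 : ℝ) ≤ k := Nat.cast_nonneg k
  obtain ⟨D, hD⟩ := exists_nat_ge (8 * (k : ℝ) / (σ * c0) + 1)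
  have hD0 : 0 ≤ 8 * (k : ℝ) / (σ * c0) := by positivity
  have hD1 : 1 ≤ D := by
    have h1 : (1 : ℝ) ≤ D := by linarith
    exact_mod_cast h1
  have hDk : (k : ℝ) * (1 / (2 * ((D : ℝ) + 1))) ≤ σ * (c0 / 16) := by
    have h3 : 8 * (k : ℝ) / (σ * c0) ≤ D + 1 := by linarith
    rw [div_le_iff₀ (by positivity)] at h3
    rw [mul_one_div, div_le_iff₀ (by positivity)]
    linarith
  obtain ⟨ε3, h3pos, h3le, h3k⟩ : ∃ ε3 : ℝ, 0 < ε3 ∧ ε3 ≤ 1 / 4 ∧
      (k : ℝ) * ε3 ≤ σ * (c0 / 16) := by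
    refine ⟨min (1 / 4) (σ * c0 / (16 * (k + 1))), lt_min (by norm_num) (by positivity),
      min_le_left _ _, ?_⟩
    have h4 : min (1 / 4) (σ * c0 / (16 * (k + 1))) ≤ σ * c0 / (16 * (k + 1)) := min_le_right _ _
    have h5 := mul_le_mul_of_nonneg_left h4 hk0
    refine h5.trans ?_
    rw [← mul_div_assoc, div_le_iff₀ (by positivity)]
    have h6 : 0 < σ * c0 := by positivity
    nlinarith
  obtain ⟨p1, hp1⟩ := hMASS k D ε3 hD1 h3pos
  obtain ⟨p2, hp2⟩ := hs k D hD1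
  obtain ⟨p3, hp3⟩ := hCMP k D L ε1 hD1 h1pos h1le
  refine ⟨D, max (max p1 p2) (max p3 (L + 1)), ?_⟩
  intro p hprime hp a hDis B hB
  have hq1 : p1 ≤ p := le_trans (le_max_left _ _) (le_trans (le_max_left _ _) hp)
  have hq2 : p2 ≤ p := le_trans (le_max_right _ _) (le_trans (le_max_left _ _) hp)
  have hq3 : p3 ≤ p := le_trans (le_max_left _ _) (le_trans (le_max_right _ _) hp)
  have hq4 : L + 1 ≤ p := le_trans (le_max_right _ _) (le_trans (le_max_right _ _) hp)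
  have hpp : (0 : ℝ) < p := by exact_mod_cast (Fact.out : p.Prime).pos
  have hwt : ∀ (θ : Fin k → ℝ) (d : ZMod p), 0 ≤ wt D a θ d := fun θ d =>
    Finset.prod_nonneg fun l _ => hFEJ D _
  obtain ⟨j, hj1, hjL, hj⟩ := hV p (by omega) B hB (fun d => wt D a 0 d) (fun d => hwt 0 d)
  have hf : ∀ x, |ind B x| ≤ 1 := by
    intro x
    rcases ind_cases B x with h | h <;> rw [h] <;> simp
  obtain ⟨θ, S, hS, hθ, hph⟩ := hp2 p hq2 a hDis j hj1 hjL (ind B) hf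
  have hcmp := hp3 p hq3 a hDis j hj1 hjL (ind B) hf θ hph
  have hm := (hp1 p hq1 a hDis 0).1
  have hLS0 : 3 / 4 * c0 * (p : ℝ) ^ 2 ≤ LS D a 0 j (ind B) := by
    have h5 : (3 / 4 : ℝ) * p ≤ ∑ d, wt D a 0 d := by
      have h6 := (abs_le.1 hm).1
      have h7 : (3 / 4 : ℝ) ≤ (∑ d, wt D a 0 d) / p := by linarith
      rwa [le_div_iff₀ hpp] at h7
    have h8 : c0 * p * ∑ d, wt D a 0 d ≤ LS D a 0 j (ind B) := hj
    have h9 := mul_le_mul_of_nonneg_left h5 (by positivity : 0 ≤ c0 * (p : ℝ))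
    calc 3 / 4 * c0 * (p : ℝ) ^ 2 = c0 * p * (3 / 4 * p) := by ring
      _ ≤ _ := h9.trans h8
  have hLSθ : 1 / 2 * c0 * (p : ℝ) ^ 2 ≤ LS D a θ j (ind B) := by
    have h6 := (abs_le.1 hcmp).1
    have h7 : 50 * ε1 ^ 2 * (p : ℝ) ^ 2 ≤ c0 / 4 * (p : ℝ) ^ 2 :=
      mul_le_mul_of_nonneg_right h1c (by positivity)
    linarith
  obtain ⟨sn, hsn⟩ : ∃ sn : Fin k → ZMod p → ℝ, ∀ l d, sn l d =
    Real.sin (Real.pi * (((a l * d ^ 2).val : ℝ) / p - θ l)) ^ 2 := ⟨_, fun _ _ => rfl⟩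
  have hsn0 : ∀ l d, 0 ≤ sn l d := fun l d => by rw [hsn]; exact sq_nonneg _
  obtain ⟨x, d, hxd, hsm⟩ : ∃ x d, ind B x * ind B (x + j * d) * ind B (x + 2 * j * d) ≠ 0 ∧
      ∀ l, sn l d < σ := by
    by_contra hcon
    push Not at hcon
    have h9 : LS D a θ j (ind B) ≤
        ∑ x : ZMod p, ∑ d : ZMod p, wt D a θ d * ((∑ l, sn l d) / σ) := by
      unfold LS
      refine Finset.sum_le_sum fun x _ => Finset.sum_le_sum fun d _ =>
        mul_le_mul_of_nonneg_left ?_ (hwt θ d)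
      by_cases h0 : ind B x * ind B (x + j * d) * ind B (x + 2 * j * d) = 0
      · rw [h0]
        exact div_nonneg (Finset.sum_nonneg fun l _ => hsn0 l d) hσ0.le
      · obtain ⟨l, hl⟩ := hcon x d h0
        have hprod : ind B x * ind B (x + j * d) * ind B (x + 2 * j * d) ≤ 1 := by
          rcases ind_cases B x with h | h <;> rcases ind_cases B (x + j * d) with h' | h' <;>
            rcases ind_cases B (x + 2 * j * d) with h'' | h'' <;> rw [h, h', h''] <;> norm_num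
        refine hprod.trans ?_
        rw [one_le_div hσ0]
        exact hl.trans (Finset.single_le_sum (f := fun l => sn l d) (fun l _ => hsn0 l d)
          (mem_univ l))
    have h10 : ∑ x : ZMod p, ∑ d : ZMod p, wt D a θ d * ((∑ l, sn l d) / σ)
        = p * ((∑ l, ∑ d, wt D a θ d * sn l d) / σ) := by
      rw [Finset.sum_const, Finset.card_univ, ZMod.card, nsmul_eq_mul]
      congr 1
      rw [Finset.sum_comm, Finset.sum_div]
      refine Finset.sum_congr rfl fun d _ => ?_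
      rw [← Finset.mul_sum, mul_div_assoc]
    have h11 : ∑ l, ∑ d, wt D a θ d * sn l d ≤ p * (2 * (σ * (c0 / 16))) := by
      have h12 : ∀ l, ∑ d, wt D a θ d * sn l d ≤ (1 / (2 * ((D : ℝ) + 1)) + ε3) * p := by
        intro l
        have h13 := (hp1 p hq1 a hDis θ).2 l
        rw [div_le_iff₀ hpp] at h13
        refine le_trans (le_of_eq ?_) h13
        refine Finset.sum_congr rfl fun d _ => ?_
        rw [hsn]
      calc ∑ l, ∑ d, wt D a θ d * sn l d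
          ≤ ∑ l : Fin k, (1 / (2 * ((D : ℝ) + 1)) + ε3) * p := Finset.sum_le_sum fun l _ => h12 l
        _ = p * ((k : ℝ) * (1 / (2 * ((D : ℝ) + 1))) + k * ε3) := by
            rw [Finset.sum_const, Finset.card_univ, Fintype.card_fin, nsmul_eq_mul]
            ring
        _ ≤ p * (2 * (σ * (c0 / 16))) := by
            refine mul_le_mul_of_nonneg_left ?_ hpp.le
            linarith
    have h14 : p * ((∑ l, ∑ d, wt D a θ d * sn l d) / σ) ≤ p * (p * (c0 / 8)) := by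
      refine mul_le_mul_of_nonneg_left ?_ hpp.le
      rw [div_le_iff₀ hσ0]
      refine h11.trans (le_of_eq ?_)
      ring
    have h15 : 0 < c0 * (p : ℝ) ^ 2 := by positivity
    have h16 : 1 / 2 * c0 * (p : ℝ) ^ 2 ≤ p * (p * (c0 / 8)) :=
      (hLSθ.trans h9).trans (h10.le.trans h14)
    nlinarith
  refine ⟨j * d, x, S, hS, ?_, ?_, ?_, ?_⟩
  · intro l hl
    have hjj : ((j : ℝ)) ^ 2 ≤ (L : ℝ) ^ 2 := by
      have h1 : (j : ℝ) ≤ L := by exact_mod_cast hjL.le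
      exact pow_le_pow_left₀ (Nat.cast_nonneg j) h1 2
    have hje : (j : ℝ) ^ 2 * ε2 ≤ min ε (1 / 4) :=
      (mul_le_mul_of_nonneg_right hjj h2pos.le).trans h2L
    obtain ⟨n, hn⟩ := near (((a l * d ^ 2).val : ℝ) / p - θ l) ε2 h2pos h2le (by
      have := hsm l
      rw [hsn, hσ] at this
      exact this)
    obtain ⟨m, hm'⟩ := valp j (a l * d ^ 2)
    have h1 : a l * (j * d) ^ 2 = (j : ZMod p) ^ 2 * (a l * d ^ 2) := by ring
    rw [h1]
    rw [hθ l hl] at hn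
    refine half j hj1 _ (((a l * d ^ 2).val : ℝ) / p) _ ε ε2 m n ?_ ?_ (by rw [hm']; simp) rfl hn
      (hje.trans (min_le_left _ _)) (hje.trans (min_le_right _ _))
    · positivity
    · rw [div_lt_one hpp]
      exact_mod_cast ZMod.val_lt _
  · exact ind_ne B x (left_ne_zero_of_mul (left_ne_zero_of_mul hxd))
  · exact ind_ne B _ (right_ne_zero_of_mul (left_ne_zero_of_mul hxd))
  · have h1 := ind_ne B _ (right_ne_zero_of_mul hxd)
    rwa [mul_assoc] at h1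

end Pool.Agent.H505PP
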