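import Pool.Agent.H505PP.Defs

/-! Task GD (helper353): recurrence from sets of differences. -/

set_option autoImplicit false

noncomputable section

namespace Pool.Agent.H505PP

open scoped BigOperators ENNReal Topology
open Finset Filter MeasureTheory

universe u

theorem t_GD : S_GD.{u} := by
  intro R hR X _ μ _ T hT A hA hpos
  classical
  by_contra hcon
  push Not at hcon
  have hnull : ∀ i, ∀ r ∈ R i, μ (A ∩ (T^[r]) ⁻¹' A ∩ (T^[2 * r]) ⁻¹' A) = 0 := by
    intro i r hr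
    exact le_antisymm (hcon i r hr) (zero_le)
  have hμA : 0 < (μ A).toReal := ENNReal.toReal_pos hpos.ne' (measure_ne_top μ A)
  obtain ⟨i, hi⟩ := exists_nat_one_div_lt hμA
  obtain ⟨N, hN, hB⟩ := hR i
  -- almost no point has a progression
  have hae : ∀ᵐ x ∂μ, ∀ m : ℕ, ∀ r ∈ R i,
      ¬ (T^[m] x ∈ A ∧ T^[m + r] x ∈ A ∧ T^[m + 2 * r] x ∈ A) := by
    rw [ae_all_iff]
    intro m
    have h1 : ∀ᵐ x ∂μ, ∀ r : ℕ, r ∈ R i →
        ¬ (T^[m] x ∈ A ∧ T^[m + r] x ∈ A ∧ T^[m + 2 * r] x ∈ A) := by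
      rw [ae_all_iff]
      intro r
      by_cases hr : r ∈ R i
      · have h2 : ∀ᵐ x ∂μ, x ∉ A ∩ (T^[r]) ⁻¹' A ∩ (T^[2 * r]) ⁻¹' A :=
          measure_eq_zero_iff_ae_notMem.1 (hnull i r hr)
        have h3 := (hT.iterate m).quasiMeasurePreserving.ae h2
        filter_upwards [h3] with x hx _ hx2
        apply hx
        refine ⟨⟨hx2.1, ?_⟩, ?_⟩
        · show T^[r] (T^[m] x) ∈ A
          rw [← Function.iterate_add_apply, Nat.add_comm]
          exact hx2.2.1
        · show T^[2 * r] (T^[m] x) ∈ A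
          rw [← Function.iterate_add_apply, Nat.add_comm]
          exact hx2.2.2
      · exact Filter.Eventually.of_forall fun x h => absurd h hr
    exact h1
  -- the number of visits
  have hcard : ∀ᵐ x ∂μ, ((((range N).filter fun n => T^[n] x ∈ A).card : ℕ) : ℝ) <
      (N : ℝ) / ((i : ℝ) + 1) := by
    filter_upwards [hae] with x hx
    by_contra hlt
    obtain ⟨r, hr, m, h1, h2, h3⟩ := hB ((range N).filter fun n => T^[n] x ∈ A)
      (Finset.filter_subset _ _) (not_lt.1 hlt)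
    exact hx m r hr ⟨(Finset.mem_filter.1 h1).2, (Finset.mem_filter.1 h2).2,
      (Finset.mem_filter.1 h3).2⟩
  have hmeas : ∀ n : ℕ, MeasurableSet ((T^[n]) ⁻¹' A) := fun n =>
    (hT.iterate n).measurable hA
  have hint : ∫⁻ x, ∑ n ∈ range N, ((T^[n]) ⁻¹' A).indicator (1 : X → ℝ≥0∞) x ∂μ =
      (N : ℝ≥0∞) * μ A := by
    rw [lintegral_finsetSum _ fun n _ => measurable_one.indicator (hmeas n)]
    have h1 : ∀ n ∈ range N, ∫⁻ x, ((T^[n]) ⁻¹' A).indicator (1 : X → ℝ≥0∞) x ∂μ = μ A := by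
      intro n _
      rw [lintegral_indicator_one (hmeas n)]
      exact (hT.iterate n).measure_preimage hA.nullMeasurableSet
    rw [Finset.sum_congr rfl h1, Finset.sum_const, Finset.card_range, nsmul_eq_mul]
  have hle : ∫⁻ x, ∑ n ∈ range N, ((T^[n]) ⁻¹' A).indicator (1 : X → ℝ≥0∞) x ∂μ ≤
      ENNReal.ofReal ((N : ℝ) / ((i : ℝ) + 1)) := by
    have h2 : ∫⁻ _ : X, ENNReal.ofReal ((N : ℝ) / ((i : ℝ) + 1)) ∂μ =
        ENNReal.ofReal ((N : ℝ) / ((i : ℝ) + 1)) := by
      rw [lintegral_const, measure_univ, mul_one]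
    rw [← h2]
    refine lintegral_mono_ae ?_
    filter_upwards [hcard] with x hx
    have h3 : ∑ n ∈ range N, ((T^[n]) ⁻¹' A).indicator (1 : X → ℝ≥0∞) x =
        ((((range N).filter fun n => T^[n] x ∈ A).card : ℕ) : ℝ≥0∞) := by
      rw [Finset.card_eq_sum_ones, Finset.sum_filter]
      push_cast
      refine Finset.sum_congr rfl fun n _ => ?_
      by_cases h : T^[n] x ∈ A
      · rw [Set.indicator_of_mem (by exact h), if_pos h]
        rfl
      · rw [Set.indicator_of_notMem (by exact h), if_neg h]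
    rw [h3, ← ENNReal.ofReal_natCast]
    exact ENNReal.ofReal_le_ofReal hx.le
  rw [hint] at hle
  have h4 := ENNReal.toReal_mono ENNReal.ofReal_ne_top hle
  rw [ENNReal.toReal_mul, ENNReal.toReal_natCast, ENNReal.toReal_ofReal (by positivity)] at h4
  have hN' : (0 : ℝ) < N := by
    have : (1 : ℝ) ≤ N := by exact_mod_cast hN
    linarith
  have h5 := mul_lt_mul_of_pos_left hi hN'
  have h6 : (N : ℝ) * (1 / ((i : ℝ) + 1)) = (N : ℝ) / ((i : ℝ) + 1) := by ring
  rw [h6] at h5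
  linarith

end Pool.Agent.H505PP
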