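import Pool.Agent.H505PP.Defs

set_option autoImplicit false

namespace Pool.Agent.H505PP

open scoped BigOperators ComplexConjugate
open Finset

theorem t_GS : S_GS := by
  intro p _ hp v c hv
  have hp2 : (2 : ZMod p) ≠ 0 := by
    intro h
    have h1 : ((2 : ℕ) : ZMod p) = 0 := by exact_mod_cast h
    rw [ZMod.natCast_eq_zero_iff] at h1
    have := Nat.le_of_dvd (by norm_num) h1
    omega
  have hconj : ∀ t : ZMod p, conj (e t) = e (-t) := fun t =>
    (AddChar.map_neg_eq_conj (ZMod.stdAddChar (N := p)) t).symm
  have horth : ∀ b : ZMod p, ∑ y : ZMod p, e (y * b) = if b = 0 then (p : ℂ) else 0 := by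
    intro b
    have := AddChar.sum_mulShift b (ZMod.isPrimitive_stdAddChar p)
    rw [ZMod.card] at this
    rw [this]
    split_ifs <;> simp
  have key : ((‖∑ x : ZMod p, e (v * x ^ 2 + c * x)‖ ^ 2 : ℝ) : ℂ) = (p : ℂ) := by
    push_cast
    rw [← Complex.mul_conj', map_sum, sum_mul_sum]
    calc ∑ x : ZMod p, ∑ y : ZMod p, e (v * x ^ 2 + c * x) * conj (e (v * y ^ 2 + c * y))
        = ∑ y : ZMod p, ∑ x : ZMod p, e (v * x ^ 2 + c * x) * conj (e (v * y ^ 2 + c * y)) :=
          sum_comm
      _ = ∑ y : ZMod p, ∑ h : ZMod p, e (v * h ^ 2 + c * h) * e (y * (2 * v * h)) := by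
          refine sum_congr rfl fun y _ => ?_
          rw [← Equiv.sum_comp (Equiv.addLeft y)]
          refine sum_congr rfl fun h _ => ?_
          rw [hconj]
          simp only [Equiv.coe_addLeft]
          unfold e
          rw [← AddChar.map_add_eq_mul, ← AddChar.map_add_eq_mul]
          congr 1
          ring
      _ = ∑ h : ZMod p, ∑ y : ZMod p, e (v * h ^ 2 + c * h) * e (y * (2 * v * h)) := sum_comm
      _ = ∑ h : ZMod p, e (v * h ^ 2 + c * h) * (if 2 * v * h = 0 then (p : ℂ) else 0) := by
          refine sum_congr rfl fun h _ => ?_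
          rw [← mul_sum, horth]
      _ = p := by
          rw [Finset.sum_eq_single 0]
          · simp [e]
          · intro h _ hh
            have : 2 * v * h ≠ 0 := mul_ne_zero (mul_ne_zero hp2 hv) hh
            rw [if_neg this, mul_zero]
          · intro h
            exact absurd (mem_univ _) h
  exact_mod_cast key

end Pool.Agent.H505PP
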