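import Pool.Agent.H505PP.Defs

/-! LIM (helper956, backup): one-dimensional version of `Pool.Agent.Helper406.Rec.limit_system`. -/

set_option autoImplicit false

namespace Pool.Agent.H505PP

open MeasureTheory Filter Topology

namespace LIM

abbrev Om : Type := ℤ → Bool

/-- the shift -/
def shf : Om ≃ᵐ Om where
  toFun ω z := ω (z + 1)
  invFun ω z := ω (z - 1)
  left_inv ω := by funext z; simp
  right_inv ω := by funext z; simp
  measurable_toFun := by
    apply measurable_pi_lambda
    intro z
    exact measurable_pi_apply _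
  measurable_invFun := by
    apply measurable_pi_lambda
    intro z
    exact measurable_pi_apply _

lemma shf_apply (ω : Om) (z : ℤ) : shf ω z = ω (z + 1) := rfl

lemma shf_continuous : Continuous shf := by
  apply continuous_pi
  intro z
  exact continuous_apply _

lemma shf_iter (n : ℕ) (ω : Om) (z : ℤ) : (shf^[n]) ω z = ω (z + n) := by
  induction n generalizing ω with
  | zero => simp
  | succ n ih =>
    rw [Function.iterate_succ_apply, ih, shf_apply]
    congr 1
    push_cast
    ring

/-- cylinder -/
def cyl (v : ℤ) : Set Om := {ω | ω v = true}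

lemma cyl_clopen (v : ℤ) : IsClopen (cyl v) := by
  have : cyl v = (fun ω : Om => ω v) ⁻¹' {true} := rfl
  rw [this]
  exact (isClopen_discrete {true}).preimage (continuous_apply v)

lemma shf_pre (n : ℕ) : (shf^[n]) ⁻¹' cyl 0 = cyl n := by
  ext ω
  show (shf^[n]) ω 0 = true ↔ ω n = true
  rw [shf_iter, zero_add]

/-- empirical measure -/
noncomputable def emp {Y : Type} [Fintype Y] (f : Y → Om) : Measure Om :=
  ((Fintype.card Y : ENNReal))⁻¹ • ∑ x, Measure.dirac (f x)

lemma emp_apply {Y : Type} [Fintype Y] (f : Y → Om) {s : Set Om} (hs : MeasurableSet s)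
    [DecidablePred fun x => f x ∈ s] :
    emp f s = ((Fintype.card Y : ENNReal))⁻¹ * ((Finset.univ.filter fun x => f x ∈ s).card) := by
  unfold emp
  rw [Measure.smul_apply, Measure.finsetSum_apply, smul_eq_mul]
  congr 1
  rw [Finset.card_filter]
  push_cast
  apply Finset.sum_congr rfl
  intro x _
  rw [Measure.dirac_apply' _ hs, Set.indicator_apply]
  simp only [Pi.one_apply]

lemma emp_prob {Y : Type} [Fintype Y] [Nonempty Y] (f : Y → Om) :
    IsProbabilityMeasure (emp f) := by
  classical
  constructor
  rw [emp_apply f MeasurableSet.univ]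
  simp only [Set.mem_univ, Finset.filter_true, Finset.card_univ]
  apply ENNReal.inv_mul_cancel
  · exact_mod_cast Fintype.card_ne_zero
  · exact ENNReal.natCast_ne_top _

lemma emp_map {Y : Type} [Fintype Y] [Nonempty Y] (f : Y → Om) (e : Y ≃ Y)
    (he : ∀ x, shf (f x) = f (e x)) :
    (emp f).map shf = emp f := by
  classical
  ext s hs
  rw [Measure.map_apply shf.measurable hs, emp_apply f hs,
    emp_apply f (shf.measurable hs)]
  congr 2
  apply Finset.card_bij (fun x _ => e x)
  · intro x hx
    simp only [Finset.mem_filter, Finset.mem_univ, true_and, Set.mem_preimage] at hx ⊢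
    rwa [he] at hx
  · intro x _ y _ hxy
    exact e.injective hxy
  · intro y hy
    refine ⟨e.symm y, ?_, by simp⟩
    simp only [Finset.mem_filter, Finset.mem_univ, true_and, Set.mem_preimage] at hy ⊢
    rw [he]
    simpa using hy

/-- the coding of a periodic set -/
noncomputable def code {N : ℕ} (A : ZMod N → Prop) (x : ZMod N) : Om := by
  classical
  exact fun z => decide (A (x + (z : ZMod N)))

lemma code_iff {N : ℕ} (A : ZMod N → Prop) (x : ZMod N) (z : ℤ) :
    code A x z = true ↔ A (x + (z : ZMod N)) := by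
  classical
  unfold code
  simp

lemma code_shift {N : ℕ} (A : ZMod N → Prop) (x : ZMod N) :
    shf (code A x) = code A (x + 1) := by
  funext z
  rw [shf_apply]
  have h1 : code A x (z + 1) = true ↔ code A (x + 1) z = true := by
    rw [code_iff, code_iff]
    have e1 : x + ((z + 1 : ℤ) : ZMod N) = x + 1 + (z : ZMod N) := by
      push_cast
      ring
    rw [e1]
  exact Bool.eq_iff_iff.2 h1

theorem limit_system (S : ℕ → Prop) (c : ENNReal) (hc : 0 < c)
    (h : ∀ K : ℕ, ∃ (N : ℕ) (_ : NeZero N) (A : ZMod N → Prop),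
      (c ≤ emp (code A) (cyl 0)) ∧
      ∀ n, S n → n < K → ∀ x, ¬ (A x ∧ A (x + (n : ZMod N)))) :
    ∃ μ : Measure Om, IsProbabilityMeasure μ ∧
      MeasurePreserving shf μ μ ∧
      0 < μ (cyl 0) ∧ ∀ n : ℕ, S n → μ (cyl 0 ∩ cyl n) = 0 := by
  classical
  choose N hN A hA hS using h
  have hprob : ∀ K, IsProbabilityMeasure (emp (code (A K))) := fun K => emp_prob _
  let μs : ℕ → ProbabilityMeasure Om := fun K => ⟨emp (code (A K)), hprob K⟩
  let F : Ultrafilter (ProbabilityMeasure Om) := (Filter.hyperfilter ℕ).map μs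
  let μ : ProbabilityMeasure Om := F.lim
  have hlim : Tendsto μs (Filter.hyperfilter ℕ : Filter ℕ) (𝓝 μ) := F.le_nhds_lim
  have hclopen : ∀ E : Set Om, IsClopen E →
      Tendsto (fun i ↦ (μs i : Measure Om) E) (Filter.hyperfilter ℕ : Filter ℕ)
        (𝓝 ((μ : Measure Om) E)) := by
    intro E hE
    apply ProbabilityMeasure.tendsto_measure_of_null_frontier_of_tendsto' hlim
    rw [hE.frontier_eq]
    simp
  have hinv : MeasurePreserving shf (μ : Measure Om) (μ : Measure Om) := by
    refine ⟨shf.measurable, ?_⟩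
    have h1 := ProbabilityMeasure.tendsto_map_of_tendsto_of_continuous μs μ hlim
      shf_continuous
    have h2 : ∀ K, (μs K).map shf_continuous.measurable.aemeasurable = μs K := by
      intro K
      apply Subtype.ext
      show (emp (code (A K))).map shf = emp (code (A K))
      apply emp_map (code (A K)) (Equiv.addRight (1 : ZMod (N K)))
      intro x
      rw [code_shift]
      rfl
    have h3 : Tendsto (fun i ↦ (μs i).map shf_continuous.measurable.aemeasurable)
        (Filter.hyperfilter ℕ : Filter ℕ) (𝓝 μ) := by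
      simp only [h2]
      exact hlim
    have h4 := tendsto_nhds_unique h1 h3
    have h5 := congrArg (fun ν : ProbabilityMeasure Om => (ν : Measure Om)) h4
    simpa using h5
  refine ⟨(μ : Measure Om), inferInstance, hinv, ?_, ?_⟩
  · have h1 := hclopen (cyl 0) (cyl_clopen 0)
    have h2 : c ≤ (μ : Measure Om) (cyl 0) := ge_of_tendsto' h1 fun K => hA K
    exact lt_of_lt_of_le hc h2
  · intro n hn
    have hE : IsClopen (cyl 0 ∩ cyl n) := (cyl_clopen _).inter (cyl_clopen _)
    have h1 := hclopen _ hE
    have h2 : ∀ᶠ K in (Filter.hyperfilter ℕ : Filter ℕ),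
        (μs K : Measure Om) (cyl 0 ∩ cyl n) = 0 := by
      have hev : ∀ᶠ K in (Filter.hyperfilter ℕ : Filter ℕ), n < K :=
        (Filter.eventually_gt_atTop n).filter_mono Nat.hyperfilter_le_atTop
      filter_upwards [hev] with K hK
      show emp (code (A K)) _ = 0
      rw [emp_apply _ hE.1.measurableSet]
      have : (Finset.univ.filter fun x => code (A K) x ∈ (cyl 0 ∩ cyl n)) = ∅ := by
        apply Finset.filter_eq_empty_iff.2
        intro x _ hx
        obtain ⟨h0, h1⟩ := hx
        have h0' := (code_iff (A K) x 0).1 h0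
        have h1' := (code_iff (A K) x n).1 h1
        apply hS K n hn hK x
        simp at h0' h1'
        exact ⟨h0', h1'⟩
      rw [this]
      simp
    have h3 : Tendsto (fun i ↦ (μs i : Measure Om) (cyl 0 ∩ cyl n))
        (Filter.hyperfilter ℕ : Filter ℕ) (𝓝 0) := by
      apply tendsto_const_nhds.congr'
      filter_upwards [h2] with K hK
      exact hK.symm
    exact tendsto_nhds_unique h1 h3

end LIM

theorem t_LIM : S_LIM := by
  classical
  intro S c hc h
  obtain ⟨μ, hμ, hT, hpos, hz⟩ := LIM.limit_system S (ENNReal.ofReal c) (ENNReal.ofReal_pos.2 hc) (by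
    intro K
    obtain ⟨N, hN, A, hA, hS⟩ := h K
    refine ⟨N, hN, A, ?_, hS⟩
    rw [LIM.emp_apply _ (LIM.cyl_clopen 0).1.measurableSet]
    have h1 : (Finset.univ.filter fun x => LIM.code A x ∈ LIM.cyl 0).card =
        Set.ncard {x : ZMod N | A x} := by
      rw [← Set.ncard_coe_finset]
      congr 1
      ext x
      simp only [Finset.coe_filter, Finset.mem_univ, true_and, Set.mem_setOf_eq]
      have := LIM.code_iff A x 0
      simp only [Int.cast_zero, add_zero] at this
      exact this
    rw [h1, ZMod.card]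
    have hNpos : (0 : ℝ) < N := by exact_mod_cast Nat.pos_of_ne_zero (NeZero.ne N)
    have h2 : ENNReal.ofReal c = (N : ENNReal)⁻¹ * ENNReal.ofReal (c * N) := by
      rw [ENNReal.ofReal_mul hc.le, ENNReal.ofReal_natCast, mul_comm (ENNReal.ofReal c),
        ← mul_assoc, ENNReal.inv_mul_cancel, one_mul]
      · exact_mod_cast NeZero.ne N
      · exact ENNReal.natCast_ne_top _
    rw [h2]
    gcongr
    rw [← ENNReal.ofReal_natCast (Set.ncard {x : ZMod N | A x})]
    exact ENNReal.ofReal_le_ofReal hA)
  refine ⟨LIM.Om, inferInstance, μ, hμ, LIM.shf, LIM.cyl 0, hT,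
    (LIM.cyl_clopen 0).1.measurableSet, hpos, fun n hn => ?_⟩
  rw [LIM.shf_pre]
  exact hz n hn

end Pool.Agent.H505PP
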