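import Pool.Agent.H505PP.Defs

/-! LSP (helper596): the large quadratic spectrum is small. -/

set_option autoImplicit false

noncomputable section

namespace Pool.Agent.H505PP

open scoped BigOperators ENNReal Topology
open Finset Filter MeasureTheory

namespace LSP

/-- the exponential sums -/
theorem sum_le {p : ℕ} [Fact p.Prime] (hp : 2 < p) (hG : S_GS) (v c : ZMod p) :
    ‖∑ x : ZMod p, e (v * x ^ 2 + c * x)‖ ≤ (if v = 0 ∧ c = 0 then (p : ℝ) else 0) + √p := by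
  by_cases hv : v = 0
  · by_cases hc : c = 0
    · rw [if_pos ⟨hv, hc⟩]
      refine le_add_of_le_of_nonneg ?_ (Real.sqrt_nonneg _)
      refine (norm_sum_le _ _).trans ?_
      have : ∀ x ∈ (univ : Finset (ZMod p)), ‖e (v * x ^ 2 + c * x)‖ ≤ 1 := fun x _ =>
        (AddChar.norm_apply (ZMod.stdAddChar (N := p)) _).le
      refine (Finset.sum_le_card_nsmul _ _ _ this).trans (le_of_eq ?_)
      rw [Finset.card_univ, ZMod.card, nsmul_eq_mul, mul_one]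
    · have : ∑ x : ZMod p, e (v * x ^ 2 + c * x) = 0 := by
        have h := AddChar.sum_mulShift c (ZMod.isPrimitive_stdAddChar p)
        rw [if_neg hc] at h
        rw [Nat.cast_zero] at h
        refine Eq.trans (Finset.sum_congr rfl fun x _ => ?_) h
        rw [hv, zero_mul, zero_add, mul_comm]
      rw [this, norm_zero]
      positivity
  · have h := hG p hp v c hv
    have h2 : ‖∑ x : ZMod p, e (v * x ^ 2 + c * x)‖ = √p := by
      rw [← h, Real.sqrt_sq (norm_nonneg _)]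
    rw [h2, if_neg (fun h => hv h.1), zero_add]

theorem G2 {p : ℕ} [Fact p.Prime] (hp : 2 < p) (hG : S_GS) (Φ : Finset (ZMod p × ZMod p))
    (s : ZMod p × ZMod p → ℂ) (hs : ∀ z, ‖s z‖ ≤ 1) :
    ∑ x : ZMod p, ‖∑ z ∈ Φ, s z * e (z.2 * x ^ 2 + z.1 * x)‖ ^ 2 ≤
      Φ.card * p + (Φ.card : ℝ) ^ 2 * √p := by
  have h1 : ((∑ x : ZMod p, ‖∑ z ∈ Φ, s z * e (z.2 * x ^ 2 + z.1 * x)‖ ^ 2 : ℝ) : ℂ) =
      ∑ z ∈ Φ, ∑ w ∈ Φ, s z * (starRingEnd ℂ) (s w) *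
        ∑ x : ZMod p, e ((z.2 - w.2) * x ^ 2 + (z.1 - w.1) * x) := by
    have h0 : ∀ x : ZMod p, ((‖∑ z ∈ Φ, s z * e (z.2 * x ^ 2 + z.1 * x)‖ ^ 2 : ℝ) : ℂ) =
        ∑ z ∈ Φ, ∑ w ∈ Φ, s z * (starRingEnd ℂ) (s w) *
          e ((z.2 - w.2) * x ^ 2 + (z.1 - w.1) * x) := by
      intro x
      rw [Complex.ofReal_pow, ← Complex.mul_conj', map_sum, Finset.sum_mul_sum]
      refine Finset.sum_congr rfl fun z _ => Finset.sum_congr rfl fun w _ => ?_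
      rw [map_mul, ← AddChar.map_neg_eq_conj]
      have h3 : e ((z.2 - w.2) * x ^ 2 + (z.1 - w.1) * x) =
          e (z.2 * x ^ 2 + z.1 * x) * e (-(w.2 * x ^ 2 + w.1 * x)) := by
        rw [← AddChar.map_add_eq_mul]
        congr 1
        ring
      rw [h3]
      ring
    rw [Complex.ofReal_sum, Finset.sum_congr rfl fun x _ => h0 x, Finset.sum_comm]
    refine Finset.sum_congr rfl fun z _ => ?_
    rw [Finset.sum_comm]
    refine Finset.sum_congr rfl fun w _ => ?_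
    rw [Finset.mul_sum]
  have h2 : ∑ x : ZMod p, ‖∑ z ∈ Φ, s z * e (z.2 * x ^ 2 + z.1 * x)‖ ^ 2 =
      ‖∑ z ∈ Φ, ∑ w ∈ Φ, s z * (starRingEnd ℂ) (s w) *
        ∑ x : ZMod p, e ((z.2 - w.2) * x ^ 2 + (z.1 - w.1) * x)‖ := by
    rw [← h1, Complex.norm_real, Real.norm_of_nonneg (by positivity)]
  rw [h2]
  have h3 : ∑ z ∈ Φ, ∑ w ∈ Φ, ((if z = w then (p : ℝ) else 0) + √p) =
      Φ.card * p + (Φ.card : ℝ) ^ 2 * √p := by
    simp only [Finset.sum_add_distrib, Finset.sum_ite_eq, Finset.sum_const, nsmul_eq_mul]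
    rw [Finset.sum_congr rfl fun z hz => if_pos hz, Finset.sum_const, nsmul_eq_mul]
    ring
  rw [← h3]
  refine (norm_sum_le _ _).trans (Finset.sum_le_sum fun z _ => ?_)
  refine (norm_sum_le _ _).trans (Finset.sum_le_sum fun w _ => ?_)
  rw [norm_mul, norm_mul, RCLike.norm_conj]
  have hb := sum_le hp hG (z.2 - w.2) (z.1 - w.1)
  have h4 : ‖s z‖ * ‖s w‖ ≤ 1 := mul_le_one₀ (hs z) (norm_nonneg _) (hs w)
  refine (mul_le_mul_of_nonneg_right h4 (norm_nonneg _)).trans ?_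
  rw [one_mul]
  refine hb.trans (le_of_eq ?_)
  congr 1
  by_cases hzw : z = w
  · subst hzw
    simp
  · rw [if_neg hzw, if_neg]
    rintro ⟨h5, h6⟩
    exact hzw (Prod.ext (sub_eq_zero.mp h6) (sub_eq_zero.mp h5))

/-- the final computation -/
theorem arith (m η r : ℝ) (hm : 0 ≤ m) (hη : 0 < η) (hr : 0 < r) (h4 : 4 ≤ η ^ 4 * r ^ 2)
    (h : (m * η) ^ 2 * r ^ 2 ≤ m * r ^ 2 + m ^ 2 * r) : m ≤ 2 / η ^ 2 := by
  have h2 : 2 ≤ η ^ 2 * r := by
    have h5 : (2 : ℝ) ^ 2 ≤ (η ^ 2 * r) ^ 2 := by nlinarith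
    exact (pow_le_pow_iff_left₀ (by norm_num) (by positivity) two_ne_zero).mp h5
  rw [le_div_iff₀ (by positivity)]
  rcases hm.eq_or_lt with h0 | h0
  · rw [← h0]
    norm_num
  have h6 : (m * η) ^ 2 * r ≤ m * r + m ^ 2 := by
    have : r * ((m * η) ^ 2 * r) ≤ r * (m * r + m ^ 2) := by nlinarith
    exact le_of_mul_le_mul_left this hr
  have h7 : m * (η ^ 2 * r) ≤ r + m := by
    have : m * (m * (η ^ 2 * r)) ≤ m * (r + m) := by nlinarith
    exact le_of_mul_le_mul_left this h0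
  have h8 : m * (η ^ 2 * r) ≤ 2 * r := by nlinarith
  have h9 : r * (m * η ^ 2) ≤ r * 2 := by nlinarith
  exact le_of_mul_le_mul_left h9 hr

end LSP

open LSP in
theorem t_LSP : S_GS → S_LSP := by
  intro hG p _ hp f η hf hη hηp Φ hΦ
  have hp0 : (0 : ℝ) < p := by
    exact_mod_cast (by omega : 0 < p)
  obtain ⟨s, hs, hs2⟩ : ∃ s : ZMod p × ZMod p → ℂ, (∀ z, ‖s z‖ ≤ 1) ∧
      ∀ z, s z * cf f z.1 z.2 = ‖cf f z.1 z.2‖ := by
    refine ⟨fun z => (starRingEnd ℂ) (cf f z.1 z.2) / ‖cf f z.1 z.2‖, fun z => ?_, fun z => ?_⟩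
    · rw [norm_div, RCLike.norm_conj, Complex.norm_real, norm_norm]
      exact div_self_le_one _
    · by_cases h : cf f z.1 z.2 = 0
      · simp [h]
      · have h1 : (‖cf f z.1 z.2‖ : ℂ) ≠ 0 := by
          exact_mod_cast norm_ne_zero_iff.mpr h
        show (starRingEnd ℂ) (cf f z.1 z.2) / ‖cf f z.1 z.2‖ * cf f z.1 z.2 = _
        rw [div_mul_eq_mul_div, Complex.conj_mul', div_eq_iff h1, pow_two]
  have h1 : (Φ.card : ℝ) * η ≤ ∑ z ∈ Φ, ‖cf f z.1 z.2‖ := by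
    have := Finset.card_nsmul_le_sum Φ (fun z => ‖cf f z.1 z.2‖) η hΦ
    rwa [nsmul_eq_mul] at this
  have h2 : ((∑ z ∈ Φ, ‖cf f z.1 z.2‖ : ℝ) : ℂ) =
      (1 / (p : ℂ)) * ∑ x, (f x : ℂ) * ∑ z ∈ Φ, s z * e (z.2 * x ^ 2 + z.1 * x) := by
    rw [Complex.ofReal_sum, Finset.sum_congr rfl fun z _ => (hs2 z).symm]
    simp only [cf, Finset.mul_sum]
    rw [Finset.sum_comm]
    refine Finset.sum_congr rfl fun x _ => Finset.sum_congr rfl fun z _ => ?_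
    ring
  have h3 : ∑ z ∈ Φ, ‖cf f z.1 z.2‖ ≤
      (1 / (p : ℝ)) * ∑ x : ZMod p, ‖∑ z ∈ Φ, s z * e (z.2 * x ^ 2 + z.1 * x)‖ := by
    have h4 : ∑ z ∈ Φ, ‖cf f z.1 z.2‖ = ‖((∑ z ∈ Φ, ‖cf f z.1 z.2‖ : ℝ) : ℂ)‖ := by
      rw [Complex.norm_real, Real.norm_of_nonneg (Finset.sum_nonneg fun z _ => norm_nonneg _)]
    rw [h4, h2, norm_mul, norm_div, norm_one, Complex.norm_natCast]
    refine mul_le_mul_of_nonneg_left ?_ (by positivity)
    refine (norm_sum_le _ _).trans (Finset.sum_le_sum fun x _ => ?_)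
    rw [norm_mul, Complex.norm_real, Real.norm_eq_abs]
    exact mul_le_of_le_one_left (norm_nonneg _) (hf x)
  have h5 : (∑ x : ZMod p, ‖∑ z ∈ Φ, s z * e (z.2 * x ^ 2 + z.1 * x)‖) ^ 2 ≤
      p * (Φ.card * p + (Φ.card : ℝ) ^ 2 * √p) := by
    have h6 := sq_sum_le_card_mul_sum_sq (s := (univ : Finset (ZMod p)))
      (f := fun x => ‖∑ z ∈ Φ, s z * e (z.2 * x ^ 2 + z.1 * x)‖)
    rw [Finset.card_univ, ZMod.card] at h6
    exact h6.trans (mul_le_mul_of_nonneg_left (G2 hp hG Φ s hs) hp0.le)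
  have h7 : ((Φ.card : ℝ) * η * p) ^ 2 ≤ p * (Φ.card * p + (Φ.card : ℝ) ^ 2 * √p) := by
    refine le_trans ?_ h5
    refine pow_le_pow_left₀ (by positivity) ?_ 2
    have h8 := h1.trans h3
    rw [one_div, inv_mul_eq_div, le_div_iff₀ hp0] at h8
    exact h8
  have hr : 0 < √(p : ℝ) := Real.sqrt_pos.mpr hp0
  have hr2 : √(p : ℝ) ^ 2 = p := Real.sq_sqrt hp0.le
  refine arith _ η (√p) (Nat.cast_nonneg _) hη hr (by rw [hr2]; exact hηp) ?_
  rw [hr2]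
  have h9 : (p : ℝ) * (((Φ.card : ℝ) * η) ^ 2 * p) ≤
      p * (Φ.card * p + (Φ.card : ℝ) ^ 2 * √p) := by
    refine le_trans (le_of_eq ?_) h7
    ring
  exact le_of_mul_le_mul_left h9 hp0

end Pool.Agent.H505PP
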