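import Pool.Agent.H505PP.Defs

/-!
Project PP (helper505), task LV: the data of one level.
-/

set_option autoImplicit false

noncomputable section

namespace Pool.Agent.H505PP

open scoped BigOperators ENNReal Topology
open Finset Filter MeasureTheory

namespace LV

lemma nat_eq_of_cast {p : ℕ} [NeZero p] {a b : ℕ} (ha : a < p) (hb : b < p)
    (h : (a : ZMod p) = (b : ZMod p)) : a = b := by
  have h1 := congrArg ZMod.val h
  rwa [ZMod.val_natCast, ZMod.val_natCast, Nat.mod_eq_of_lt ha, Nat.mod_eq_of_lt hb] at h1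

open Classical in
/-- the set of differences of one level -/
def RR (p M N h s P : ℕ) : Finset ℕ :=
  (Finset.Icc 1 p).filter fun r => ∃ S : Finset (Fin (2 * h)), S.card ≤ s ∧
    ∀ l ∉ S, |((((N : ZMod p) ^ (l : ℕ)) * (((P * r) ^ 2 : ℕ) : ZMod p)).val : ℝ) / p - 1 / 2|
      < 1 / M

lemma mem_RR {p M N h s P r : ℕ} : r ∈ RR p M N h s P ↔ (1 ≤ r ∧ r ≤ p) ∧
    ∃ S : Finset (Fin (2 * h)), S.card ≤ s ∧
    ∀ l ∉ S, |((((N : ZMod p) ^ (l : ℕ)) * (((P * r) ^ 2 : ℕ) : ZMod p)).val : ℝ) / p - 1 / 2|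
      < 1 / M := by
  classical
  unfold RR
  rw [Finset.mem_filter, Finset.mem_Icc]

lemma sgn_val {p : ℕ} (M N h s : ℕ) (x : ZMod p) :
    sgn M N h s x = 0 ∨ sgn M N h s x = 1 ∨ sgn M N h s x = -1 := by
  unfold sgn
  split_ifs
  · right; left; rfl
  · right; right; rfl
  · left; rfl

lemma small {p : ℕ} [NeZero p] {M N k H : ℕ} (hM : 0 < M) (hN : 1 ≤ N)
    (hp : M * N ^ k * (H + 1) < p) (l n : ℕ) (hl : l ≤ k) (hn : n ≤ H) :
    ((((N : ZMod p) ^ l) * (n : ZMod p)).val : ℝ) / p < 1 / M := by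
  have h1 : N ^ l * n ≤ N ^ k * H := Nat.mul_le_mul (Nat.pow_le_pow_right hN hl) hn
  have h2 : N ^ k * H < N ^ k * (H + 1) := by
    have : 0 < N ^ k := Nat.pow_pos (by omega)
    nlinarith
  have h3 : M * (N ^ l * n) < p := by
    have h4 : M * (N ^ l * n) ≤ M * (N ^ k * (H + 1)) := Nat.mul_le_mul_left _ (by omega)
    rw [← mul_assoc M (N ^ k)] at h4
    omega
  have h5 : N ^ l * n < p := by
    have h6 : N ^ l * n ≤ M * (N ^ l * n) := Nat.le_mul_of_pos_left _ hM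
    omega
  have h7 : (((N : ZMod p) ^ l) * (n : ZMod p)).val = N ^ l * n := by
    have h8 : ((N : ZMod p) ^ l) * (n : ZMod p) = ((N ^ l * n : ℕ) : ZMod p) := by push_cast; rfl
    rw [h8, ZMod.val_natCast, Nat.mod_eq_of_lt h5]
  rw [h7]
  have hp0 : (0 : ℝ) < p := by
    have : 0 < p := by omega
    exact_mod_cast this
  have hM0 : (0 : ℝ) < M := by exact_mod_cast hM
  rw [div_lt_div_iff₀ hp0 hM0]
  have h9 : ((M * (N ^ l * n) : ℕ) : ℝ) < (p : ℝ) := by exact_mod_cast h3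
  push_cast at h9 ⊢
  linarith

lemma rec2 {p : ℕ} [Fact p.Prime] {M N h s P D : ℕ} {δ : ℝ} (hδ : 0 < δ) (hM : 8 ≤ M)
    (hsh : s < h) (hp12 : 12 ≤ p)
    (hF : ∀ B : Finset (ZMod p), δ / 4 * p ≤ B.card →
      ∃ (r x : ZMod p) (S : Finset (Fin (2 * h))), S.card ≤ s ∧
      (∀ l ∉ S, |((((N : ZMod p) ^ (l : ℕ) * (P : ZMod p) ^ 2) * r ^ 2).val : ℝ) / p - 1 / 2|
        < 1 / (M : ℝ)) ∧ x ∈ B ∧ x + r ∈ B ∧ x + 2 * r ∈ B)
    (B : Finset ℕ) (hB : B ⊆ range (p / 3)) (hc : δ * ((p / 3 : ℕ) : ℝ) ≤ B.card) :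
    ∃ r ∈ RR p M N h s P, ∃ x, x ∈ B ∧ x + r ∈ B ∧ x + 2 * r ∈ B := by
  classical
  have hlt : ∀ b ∈ B, 3 * b < p := by
    intro b hb
    have := Finset.mem_range.1 (hB hb)
    omega
  -- the image
  have hcard : (B.image (fun b : ℕ => (b : ZMod p))).card = B.card := by
    apply Finset.card_image_of_injOn
    intro a ha b hb hab
    have h1 := hlt a ha
    have h2 := hlt b hb
    exact nat_eq_of_cast (by omega) (by omega) hab
  have hbig : δ / 4 * p ≤ ((B.image (fun b : ℕ => (b : ZMod p))).card : ℝ) := by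
    rw [hcard]
    refine le_trans ?_ hc
    have h1 : p ≤ 4 * (p / 3) := by omega
    have h2 : (p : ℝ) ≤ 4 * ((p / 3 : ℕ) : ℝ) := by exact_mod_cast h1
    nlinarith
  obtain ⟨r, x, S, hS, hval, hx0, hx1, hx2⟩ := hF _ hbig
  obtain ⟨b0, hb0, e0⟩ := Finset.mem_image.1 hx0
  obtain ⟨b1, hb1, e1⟩ := Finset.mem_image.1 hx1
  obtain ⟨b2, hb2, e2⟩ := Finset.mem_image.1 hx2
  have l0 := hlt b0 hb0
  have l1 := hlt b1 hb1
  have l2 := hlt b2 hb2
  have hsum : b0 + b2 = 2 * b1 := by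
    apply nat_eq_of_cast (p := p) (by omega) (by omega)
    push_cast
    rw [e0, e1, e2]
    ring
  have key : ∀ ρ : ℕ, 1 ≤ ρ → ρ ≤ p → ((ρ : ZMod p)) ^ 2 = r ^ 2 → ρ ∈ RR p M N h s P := by
    intro ρ h1 h2 h3
    rw [mem_RR]
    refine ⟨⟨h1, h2⟩, S, hS, ?_⟩
    intro l hl
    have h4 := hval l hl
    have h5 : ((N : ZMod p) ^ (l : ℕ)) * (((P * ρ) ^ 2 : ℕ) : ZMod p) =
        ((N : ZMod p) ^ (l : ℕ) * (P : ZMod p) ^ 2) * r ^ 2 := by
      rw [← h3]
      push_cast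
      ring
    rw [h5]
    exact h4
  rcases lt_trichotomy b0 b1 with hlt' | heq | hgt
  · refine ⟨b1 - b0, key (b1 - b0) (by omega) (by omega) ?_, b0, hb0, ?_, ?_⟩
    · have : ((b1 - b0 : ℕ) : ZMod p) = r := by
        rw [Nat.cast_sub hlt'.le, e0, e1]
        ring
      rw [this]
    · have : b0 + (b1 - b0) = b1 := by omega
      rw [this]; exact hb1
    · have : b0 + 2 * (b1 - b0) = b2 := by omega
      rw [this]; exact hb2
  · exfalso
    have hr : r = 0 := by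
      have h1 : x = x + r := by rw [← e1, ← heq, e0]
      have h2 : x + 0 = x + r := by rw [add_zero]; exact h1
      exact (add_left_cancel h2).symm
    -- some l not in S
    have hex : ∃ l : Fin (2 * h), l ∉ S := by
      by_contra hno
      push Not at hno
      have h1 : (Finset.univ : Finset (Fin (2 * h))) ⊆ S := fun l _ => hno l
      have h2 := Finset.card_le_card h1
      rw [Finset.card_univ, Fintype.card_fin] at h2
      omega
    obtain ⟨l, hl⟩ := hex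
    have h3 := hval l hl
    rw [hr] at h3
    have h4 : (((N : ZMod p) ^ (l : ℕ) * (P : ZMod p) ^ 2) * (0 : ZMod p) ^ 2).val = 0 := by
      have : ((N : ZMod p) ^ (l : ℕ) * (P : ZMod p) ^ 2) * (0 : ZMod p) ^ 2 = 0 := by ring
      rw [this, ZMod.val_zero]
    rw [h4] at h3
    have h5 : (1 : ℝ) / M ≤ 1 / 8 := by
      apply one_div_le_one_div_of_le (by norm_num)
      exact_mod_cast hM
    have h6 : |((0 : ℕ) : ℝ) / p - 1 / 2| = 1 / 2 := by
      rw [Nat.cast_zero, zero_div, zero_sub, abs_neg, abs_of_pos (by norm_num)]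
    rw [h6] at h3
    linarith
  · refine ⟨b0 - b1, key (b0 - b1) (by omega) (by omega) ?_, b2, hb2, ?_, ?_⟩
    · have : ((b0 - b1 : ℕ) : ZMod p) = -r := by
        rw [Nat.cast_sub hgt.le, e0, e1]
        ring
      rw [this]
      ring
    · have : b2 + (b0 - b1) = b1 := by omega
      rw [this]; exact hb1
    · have : b2 + 2 * (b0 - b1) = b0 := by omega
      rw [this]; exact hb0

end LV

open LV in
theorem t_LV : S_FST → S_SH → S_CT → S_DN → S_LV := by
  intro hFST hSH hCT hDN δ τ P H hδ hτ hP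
  obtain ⟨s, hs⟩ := hFST (δ / 4) (by positivity)
  obtain ⟨h, M, hsh, hME, hM8, hct⟩ := hCT τ s hτ
  have hM0 : (0 : ℝ) < M := by
    have : 0 < M := by omega
    exact_mod_cast this
  obtain ⟨D, p0, hF⟩ := hs (2 * h) (1 / M) (by positivity)
  set N : ℕ := M * (4 * D + 10) with hN
  have hN1 : 1 ≤ N := by
    rw [hN]; exact Nat.mul_pos (by omega) (by omega)
  have hN2 : 2 * (2 * D + 2) + 2 ≤ N := by
    have : 1 * (4 * D + 10) ≤ M * (4 * D + 10) := Nat.mul_le_mul_right _ (by omega)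
    rw [hN]
    omega
  obtain ⟨p1, hp1⟩ := hct N (Dvd.intro _ rfl) hN1
  obtain ⟨p2, hp2⟩ := hDN (2 * h) (2 * D + 2) N P hN2 hP
  obtain ⟨p, hpge, hpp⟩ := Nat.exists_infinite_primes
    (p0 + p1 + p2 + P + M * N ^ (2 * h) * (H + 1) + 20)
  haveI : Fact p.Prime := ⟨hpp⟩
  refine ⟨⟨p, sgn M N h s, RR p M N h s P, p / 3⟩, ?_⟩
  constructor
  · exact hpp
  · show P < p
    omega
  · intro x
    exact sgn_val M N h s x
  · show ((Set.ncard {x : ZMod p | sgn M N h s x = 0} : ℕ) : ℝ) ≤ τ * p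
    classical
    have h1 := hp1 p (by omega)
    have h2 : Set.ncard {x : ZMod p | sgn M N h s x = 0} =
        (univ.filter fun x : ZMod p => sgn M N h s x = 0).card := by
      rw [← Set.ncard_coe_finset]
      congr 1
      ext x
      simp
    rw [h2]
    convert h1
  · intro r hr
    exact (mem_RR.1 hr).1.1
  · intro r hr x hx
    obtain ⟨_, S, hS, hval⟩ := mem_RR.1 hr
    exact (hSH p M N h s hME hM8 S (((P * r) ^ 2 : ℕ) : ZMod p) hS).1 hval x hx
  · intro n hn x hx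
    refine (hSH p M N h s hME hM8 ∅ (n : ZMod p) (by simp)).2 ?_ x hx
    intro l
    exact small (k := 2 * h) (H := H) (by omega) hN1 (by omega) l n l.2.le hn
  · show 1 ≤ p / 3
    omega
  · intro B hB hc
    exact rec2 (D := D) hδ hM8 hsh (by omega)
      (fun B' hB' => hF p (by omega) (fun l : Fin (2 * h) =>
        (N : ZMod p) ^ (l : ℕ) * (P : ZMod p) ^ 2) (hp2 p (by omega)) B' hB') B hB hc

end Pool.Agent.H505PP
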