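import Pool.Agent.H505PP.Defs

/-! Task MASS of project PP: the weight has mean one and is concentrated. -/

set_option autoImplicit false

noncomputable section

namespace Pool.Agent.H505PP

open scoped BigOperators ENNReal Topology
open Finset Filter MeasureTheory

namespace MASS

theorem e_zero {p : ℕ} [NeZero p] : e (0 : ZMod p) = 1 :=
  AddChar.map_zero_eq_one (ZMod.stdAddChar (N := p))

theorem e_add {p : ℕ} [NeZero p] (x y : ZMod p) : e (x + y) = e x * e y :=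
  AddChar.map_add_eq_mul (ZMod.stdAddChar (N := p)) x y

theorem dt_add {p k : ℕ} (ξ η : Fin k → ℤ) (a : Fin k → ZMod p) :
    dt (ξ + η) a = dt ξ a + dt η a := by
  unfold dt
  rw [← Finset.sum_add_distrib]
  apply Finset.sum_congr rfl
  intro l _
  rw [Pi.add_apply]
  push_cast
  ring

theorem gauss (hGS : S_GS) (p : ℕ) [Fact p.Prime] (h2 : 2 < p) (v : ZMod p) (hv : v ≠ 0) :
    ‖(1 / (p : ℂ)) * ∑ x : ZMod p, e (v * x ^ 2)‖ = 1 / Real.sqrt p := by
  have h := hGS p h2 v 0 hv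
  simp only [zero_mul, add_zero] at h
  have hp : (0 : ℝ) < p := by exact_mod_cast (by omega : 0 < p)
  have h3 : ‖∑ x : ZMod p, e (v * x ^ 2)‖ = Real.sqrt p := by
    rw [← h, Real.sqrt_sq (norm_nonneg _)]
  rw [norm_mul, h3, norm_div, norm_one, Complex.norm_natCast]
  rw [div_mul_eq_mul_div, one_mul, div_eq_div_iff hp.ne' (Real.sqrt_pos.2 hp).ne', one_mul,
    Real.mul_self_sqrt hp.le]

theorem e0 (p : ℕ) [Fact p.Prime] (v : ZMod p) (hv : v = 0) :
    (1 / (p : ℂ)) * ∑ x : ZMod p, e (v * x ^ 2) = 1 := by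
  have hp : (p : ℂ) ≠ 0 := by
    have := (Fact.out : p.Prime).ne_zero
    exact_mod_cast this
  subst hv
  simp only [zero_mul]
  have h1 : ∀ x : ZMod p, e (0 : ZMod p) = 1 := fun _ => e_zero
  rw [Finset.sum_congr rfl (fun x _ => h1 x), Finset.sum_const, Finset.card_univ, ZMod.card,
    nsmul_eq_mul, mul_one]
  field_simp

theorem mem_bx {k D : ℕ} {ξ : Fin k → ℤ} : ξ ∈ bx k D ↔ ∀ l, -(D : ℤ) ≤ ξ l ∧ ξ l ≤ D := by
  unfold bx
  rw [Fintype.mem_piFinset]
  simp only [Finset.mem_Icc]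

theorem hw_norm {k D : ℕ} {ξ : Fin k → ℤ} (h : ξ ∈ bx k D) : ‖(hw D ξ : ℂ)‖ ≤ 1 := by
  rw [Complex.norm_real]
  rw [mem_bx] at h
  have h0 : ∀ l, 0 ≤ 1 - |(ξ l : ℝ)| / ((D : ℝ) + 1) ∧ 1 - |(ξ l : ℝ)| / ((D : ℝ) + 1) ≤ 1 := by
    intro l
    have h1 : |(ξ l : ℝ)| ≤ D := by
      rw [abs_le]
      constructor
      · exact_mod_cast (h l).1
      · exact_mod_cast (h l).2
    have h2 : (0 : ℝ) < (D : ℝ) + 1 := by positivity
    have h3 : |(ξ l : ℝ)| / ((D : ℝ) + 1) ≤ 1 := by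
      rw [div_le_one h2]; linarith
    have h4 : 0 ≤ |(ξ l : ℝ)| / ((D : ℝ) + 1) := by positivity
    constructor <;> linarith
  unfold hw
  rw [Real.norm_of_nonneg (Finset.prod_nonneg fun l _ => (h0 l).1)]
  exact Finset.prod_le_one (fun l _ => (h0 l).1) (fun l _ => (h0 l).2)

theorem ph_norm {k : ℕ} (ξ : Fin k → ℤ) (θ : Fin k → ℝ) : ‖ph ξ θ‖ = 1 := by
  unfold ph
  have h : -(2 * Real.pi * Complex.I * ∑ l, (ξ l : ℂ) * (θ l : ℂ)) =
      ((-(2 * Real.pi * ∑ l, (ξ l : ℝ) * θ l) : ℝ) : ℂ) * Complex.I := by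
    push_cast
    ring
  rw [h, Complex.norm_exp_ofReal_mul_I]

theorem main (hGS : S_GS) (hWE : S_WE) (k D : ℕ) (hD : 1 ≤ D) (p : ℕ) [Fact p.Prime] (h2 : 2 < p)
    (a : Fin k → ZMod p) (ha : Dis (2 * D + 2) a) (θ : Fin k → ℝ) (η : Fin k → ℤ)
    (hη : η ∈ bx k 1) :
    ‖(1 / (p : ℂ)) * ∑ d : ZMod p, (wt D a θ d : ℂ) * e (dt η a * d ^ 2) -
      (hw D (-η) : ℂ) * ph (-η) θ‖ ≤ (bx k D).card * (1 / Real.sqrt p) := by
  have hη' := mem_bx.1 hη
  have hmem : -η ∈ bx k D := by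
    rw [mem_bx]
    intro l
    have := hη' l
    rw [Pi.neg_apply]
    constructor <;> push_cast at this ⊢ <;> omega
  have h1 : (1 / (p : ℂ)) * ∑ d : ZMod p, (wt D a θ d : ℂ) * e (dt η a * d ^ 2) =
      ∑ ξ ∈ bx k D, ((hw D ξ : ℂ) * ph ξ θ) *
        ((1 / (p : ℂ)) * ∑ d : ZMod p, e (dt (ξ + η) a * d ^ 2)) := by
    have h3 : ∀ d : ZMod p, (wt D a θ d : ℂ) * e (dt η a * d ^ 2) =
        ∑ ξ ∈ bx k D, ((hw D ξ : ℂ) * ph ξ θ) * e (dt (ξ + η) a * d ^ 2) := by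
      intro d
      rw [hWE p k D a θ d, Finset.sum_mul]
      apply Finset.sum_congr rfl
      intro ξ _
      rw [dt_add, add_mul, e_add]
      ring
    rw [Finset.sum_congr rfl (fun d _ => h3 d), Finset.sum_comm, Finset.mul_sum]
    apply Finset.sum_congr rfl
    intro ξ _
    rw [← Finset.mul_sum]
    ring
  rw [h1, ← Finset.add_sum_erase _ _ hmem]
  have h4 : dt (-η + η) a = 0 := by
    rw [neg_add_cancel]
    unfold dt
    simp
  rw [e0 p _ h4, mul_one, add_sub_cancel_left]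
  refine (norm_sum_le _ _).trans ?_
  have h5 : ∀ ξ ∈ (bx k D).erase (-η), ‖((hw D ξ : ℂ) * ph ξ θ) *
        ((1 / (p : ℂ)) * ∑ d : ZMod p, e (dt (ξ + η) a * d ^ 2))‖ ≤ 1 / Real.sqrt p := by
    intro ξ hξ
    rw [Finset.mem_erase] at hξ
    have h6 := mem_bx.1 hξ.2
    have h7 : dt (ξ + η) a ≠ 0 := by
      apply ha
      · rw [mem_bx]
        intro l
        have e1 := h6 l
        have e2 := hη' l
        rw [Pi.add_apply]
        constructor <;> push_cast at e2 ⊢ <;> omega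
      · intro h
        exact hξ.1 (eq_neg_of_add_eq_zero_left h)
    rw [norm_mul, norm_mul, ph_norm, gauss hGS p h2 _ h7, mul_one]
    have h8 := hw_norm hξ.2
    have h9 : 0 ≤ 1 / Real.sqrt p := by positivity
    exact mul_le_of_le_one_left h9 h8
  refine (Finset.sum_le_sum h5).trans ?_
  rw [Finset.sum_const, nsmul_eq_mul]
  apply mul_le_mul_of_nonneg_right _ (by positivity)
  exact_mod_cast Finset.card_le_card (Finset.erase_subset _ _)

theorem hw_zero {k D : ℕ} : hw D (0 : Fin k → ℤ) = 1 := by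
  unfold hw
  simp

theorem ph_zero {k : ℕ} (θ : Fin k → ℝ) : ph (0 : Fin k → ℤ) θ = 1 := by
  unfold ph
  simp

theorem hw_single {k D : ℕ} (l : Fin k) :
    hw D (-(Pi.single l 1 : Fin k → ℤ)) = 1 - 1 / ((D : ℝ) + 1) := by
  unfold hw
  rw [Finset.prod_eq_single l]
  · simp
  · intro m _ hm
    rw [Pi.neg_apply, Pi.single_eq_of_ne hm]
    simp
  · intro h
    exact absurd (Finset.mem_univ l) h

theorem ph_single {k : ℕ} (θ : Fin k → ℝ) (l : Fin k) :
    ph (-(Pi.single l 1 : Fin k → ℤ)) θ * Complex.exp (((-(2 * Real.pi * θ l) : ℝ) : ℂ) * Complex.I)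
      = 1 := by
  unfold ph
  have h : ∑ m, (((-(Pi.single l 1 : Fin k → ℤ)) m : ℤ) : ℂ) * (θ m : ℂ) = -(θ l : ℂ) := by
    rw [Finset.sum_eq_single l]
    · simp
    · intro m _ hm
      rw [Pi.neg_apply, Pi.single_eq_of_ne hm]
      simp
    · intro h
      exact absurd (Finset.mem_univ l) h
  rw [h, ← Complex.exp_add]
  have h2 : -(2 * Real.pi * Complex.I * -(θ l : ℂ)) +
      ((-(2 * Real.pi * θ l) : ℝ) : ℂ) * Complex.I = 0 := by
    push_cast
    ring
  rw [h2, Complex.exp_zero]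

theorem dt_single {p k : ℕ} (a : Fin k → ZMod p) (l : Fin k) :
    dt (Pi.single l 1 : Fin k → ℤ) a = a l := by
  unfold dt
  rw [Finset.sum_eq_single l]
  · simp
  · intro m _ hm
    rw [Pi.single_eq_of_ne hm]
    simp
  · intro h
    exact absurd (Finset.mem_univ l) h

theorem re_e (p : ℕ) [Fact p.Prime] (y : ZMod p) (t : ℝ) :
    (e y * Complex.exp (((-(2 * Real.pi * t) : ℝ) : ℂ) * Complex.I)).re =
      Real.cos (2 * Real.pi * ((y.val : ℝ) / p - t)) := by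
  have h1 : e y = Complex.exp (((2 * Real.pi * ((y.val : ℝ) / p) : ℝ) : ℂ) * Complex.I) := by
    show (ZMod.stdAddChar y : ℂ) = _
    rw [ZMod.stdAddChar_apply, ZMod.toCircle_apply]
    congr 1
    push_cast
    ring
  rw [h1, ← Complex.exp_add, ← add_mul, ← Complex.ofReal_add, Complex.exp_ofReal_mul_I_re]
  congr 1
  ring

end MASS

open MASS in
theorem t_MASS : S_GS → S_WE → S_MASS := by
  intro hGS hWE k D ε hD hε
  refine ⟨max 3 ⌈(((bx k D).card : ℝ) / ε) ^ 2⌉₊, ?_⟩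
  intro p _ hp a ha θ
  have hp3 : 3 ≤ p := (le_max_left _ _).trans hp
  have h2 : 2 < p := by omega
  have hpp : (0 : ℝ) < p := by exact_mod_cast (by omega : 0 < p)
  have hpN : (((bx k D).card : ℝ) / ε) ^ 2 ≤ p :=
    (Nat.le_ceil _).trans (by exact_mod_cast (le_max_right _ _).trans hp)
  have herr : ((bx k D).card : ℝ) * (1 / Real.sqrt p) ≤ ε := by
    have h3 : ((bx k D).card : ℝ) / ε ≤ Real.sqrt p := Real.le_sqrt_of_sq_le hpN
    have h4 : 0 < Real.sqrt p := Real.sqrt_pos.2 hpp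
    rw [div_le_iff₀ hε] at h3
    rw [mul_one_div, div_le_iff₀ h4]
    linarith
  -- mean of the weight
  have hA : |(∑ d, wt D a θ d) / p - 1| ≤ ε := by
    have h0 : (0 : Fin k → ℤ) ∈ bx k 1 := by
      rw [mem_bx]; intro l; simp
    have h5 := (main hGS hWE k D hD p h2 a ha θ 0 h0).trans herr
    rw [neg_zero, hw_zero, ph_zero] at h5
    have h6 : (1 / (p : ℂ)) * ∑ d : ZMod p, (wt D a θ d : ℂ) * e (dt (0 : Fin k → ℤ) a * d ^ 2) -
        ((1 : ℝ) : ℂ) * 1 = (((∑ d, wt D a θ d) / p - 1 : ℝ) : ℂ) := by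
      have h7 : dt (0 : Fin k → ℤ) a = 0 := by unfold dt; simp
      rw [h7]
      have h8 : ∀ d : ZMod p, (wt D a θ d : ℂ) * e ((0 : ZMod p) * d ^ 2) = (wt D a θ d : ℂ) := by
        intro d
        rw [zero_mul, e_zero, mul_one]
      rw [Finset.sum_congr rfl (fun d _ => h8 d)]
      push_cast
      ring
    rw [h6, Complex.norm_real] at h5
    exact h5
  refine ⟨hA, ?_⟩
  intro l
  have hsl : (Pi.single l 1 : Fin k → ℤ) ∈ bx k 1 := by
    rw [mem_bx]
    intro m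
    rcases eq_or_ne m l with rfl | hm
    · rw [Pi.single_eq_same]; simp
    · rw [Pi.single_eq_of_ne hm]; simp
  have h5 := (main hGS hWE k D hD p h2 a ha θ _ hsl).trans herr
  rw [hw_single, dt_single] at h5
  set U : ℂ := Complex.exp (((-(2 * Real.pi * θ l) : ℝ) : ℂ) * Complex.I) with hU
  have hUn : ‖U‖ = 1 := Complex.norm_exp_ofReal_mul_I _
  have h6 : ‖((1 / (p : ℂ)) * ∑ d : ZMod p, (wt D a θ d : ℂ) * e (a l * d ^ 2)) * U -
      ((1 - 1 / ((D : ℝ) + 1) : ℝ) : ℂ)‖ ≤ ε := by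
    have h7 : ((1 / (p : ℂ)) * ∑ d : ZMod p, (wt D a θ d : ℂ) * e (a l * d ^ 2)) * U -
        ((1 - 1 / ((D : ℝ) + 1) : ℝ) : ℂ) =
        ((1 / (p : ℂ)) * ∑ d : ZMod p, (wt D a θ d : ℂ) * e (a l * d ^ 2) -
          ((1 - 1 / ((D : ℝ) + 1) : ℝ) : ℂ) * ph (-(Pi.single l 1 : Fin k → ℤ)) θ) * U := by
      rw [sub_mul, mul_assoc ((1 - 1 / ((D : ℝ) + 1) : ℝ) : ℂ), hU, ph_single, mul_one]
    rw [h7, norm_mul, hUn, mul_one]
    exact h5
  have h8 : (((1 / (p : ℂ)) * ∑ d : ZMod p, (wt D a θ d : ℂ) * e (a l * d ^ 2)) * U).re =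
      (∑ d : ZMod p, wt D a θ d *
        Real.cos (2 * Real.pi * (((a l * d ^ 2).val : ℝ) / p - θ l))) / p := by
    have h9 : ((1 / (p : ℂ)) * ∑ d : ZMod p, (wt D a θ d : ℂ) * e (a l * d ^ 2)) * U =
        (((1 / (p : ℝ) : ℝ)) : ℂ) *
          ∑ d : ZMod p, ((wt D a θ d : ℝ) : ℂ) * (e (a l * d ^ 2) * U) := by
      rw [mul_assoc, Finset.sum_mul]
      push_cast
      congr 1
      apply Finset.sum_congr rfl
      intro d _
      ring
    rw [h9, Complex.re_ofReal_mul, Complex.re_sum, one_div_mul_eq_div]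
    congr 1
    apply Finset.sum_congr rfl
    intro d _
    rw [Complex.re_ofReal_mul, hU, re_e]
  have h10 : |(∑ d : ZMod p, wt D a θ d *
        Real.cos (2 * Real.pi * (((a l * d ^ 2).val : ℝ) / p - θ l))) / p -
        (1 - 1 / ((D : ℝ) + 1))| ≤ ε := by
    have h11 := (Complex.abs_re_le_norm _).trans h6
    rw [Complex.sub_re, h8, Complex.ofReal_re] at h11
    exact h11
  have h12 : (∑ d, wt D a θ d *
      Real.sin (Real.pi * (((a l * d ^ 2).val : ℝ) / p - θ l)) ^ 2) / p =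
      ((∑ d, wt D a θ d) / p - (∑ d : ZMod p, wt D a θ d *
        Real.cos (2 * Real.pi * (((a l * d ^ 2).val : ℝ) / p - θ l))) / p) / 2 := by
    rw [← sub_div, ← Finset.sum_sub_distrib, div_div, mul_comm (p : ℝ) 2, ← div_div]
    congr 1
    rw [Finset.sum_div]
    apply Finset.sum_congr rfl
    intro d _
    have h13 : Real.sin (Real.pi * (((a l * d ^ 2).val : ℝ) / p - θ l)) ^ 2 =
        (1 - Real.cos (2 * Real.pi * (((a l * d ^ 2).val : ℝ) / p - θ l))) / 2 := by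
      have h14 : 2 * Real.pi * (((a l * d ^ 2).val : ℝ) / p - θ l) =
          2 * (Real.pi * (((a l * d ^ 2).val : ℝ) / p - θ l)) := by ring
      rw [h14, Real.cos_two_mul, Real.sin_sq]
      ring
    rw [h13]
    ring
  rw [h12]
  have h15 := (abs_le.1 hA).2
  have h16 := (abs_le.1 h10).1
  have h17 : 1 / (2 * ((D : ℝ) + 1)) = (1 / ((D : ℝ) + 1)) / 2 := by
    rw [div_div, mul_comm]
  rw [h17]
  linarith

end Pool.Agent.H505PP
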