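import Pool.Agent.H505PP.Defs

/-! # PAR: Parseval for quadratic Fourier coefficients (helper277) -/

set_option autoImplicit false

noncomputable section

namespace Pool.Agent.H505PP

open scoped BigOperators ComplexConjugate
open Finset

namespace PAR

lemma conj_e {p : ℕ} [NeZero p] (t : ZMod p) : conj (e t) = e (-t) :=
  (AddChar.map_neg_eq_conj (ZMod.stdAddChar (N := p)) t).symm

lemma parseval {p : ℕ} [Fact p.Prime] (g : ZMod p → ℂ) :
    ∑ c : ZMod p, ‖∑ x, g x * e (c * x)‖ ^ 2 = (p : ℝ) * ∑ x, ‖g x‖ ^ 2 := by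
  have h1 : ((∑ c : ZMod p, ‖∑ x, g x * e (c * x)‖ ^ 2 : ℝ) : ℂ) =
      ((p : ℝ) * ∑ x, ‖g x‖ ^ 2 : ℝ) := by
    push_cast
    calc ∑ c : ZMod p, ((‖∑ x, g x * e (c * x)‖ : ℝ) : ℂ) ^ 2
        = ∑ c : ZMod p, (∑ x, g x * e (c * x)) * conj (∑ y, g y * e (c * y)) := by
          refine Finset.sum_congr rfl fun c _ => ?_
          rw [Complex.mul_conj, Complex.normSq_eq_norm_sq]; push_cast; rfl
      _ = ∑ c : ZMod p, ∑ x, ∑ y, (g x * conj (g y)) * e (c * (x - y)) := by
          refine Finset.sum_congr rfl fun c _ => ?_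
          rw [map_sum, Finset.sum_mul_sum]
          refine Finset.sum_congr rfl fun x _ => Finset.sum_congr rfl fun y _ => ?_
          rw [map_mul, conj_e]
          have : e (c * (x - y)) = e (c * x) * e (-(c * y)) := by
            rw [← AddChar.map_add_eq_mul]; congr 1; ring
          rw [this]; ring
      _ = ∑ x, ∑ y, (g x * conj (g y)) * ∑ c : ZMod p, e (c * (x - y)) := by
          rw [Finset.sum_comm]
          refine Finset.sum_congr rfl fun x _ => ?_
          rw [Finset.sum_comm]
          refine Finset.sum_congr rfl fun y _ => ?_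
          rw [Finset.mul_sum]
      _ = ∑ x, ∑ y, (g x * conj (g y)) * (if x = y then (p : ℂ) else 0) := by
          refine Finset.sum_congr rfl fun x _ => Finset.sum_congr rfl fun y _ => ?_
          congr 1
          have := AddChar.sum_mulShift (x - y) (ZMod.isPrimitive_stdAddChar p)
          rw [this, ZMod.card]
          simp only [sub_eq_zero]
          split_ifs <;> simp
      _ = (p : ℂ) * ∑ x, ((‖g x‖ : ℝ) : ℂ) ^ 2 := by
          rw [Finset.mul_sum]
          refine Finset.sum_congr rfl fun x _ => ?_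
          simp only [mul_ite, mul_zero, Finset.sum_ite_eq, Finset.mem_univ, if_true]
          rw [Complex.mul_conj, Complex.normSq_eq_norm_sq]; push_cast; ring
  exact_mod_cast h1

end PAR

theorem t_PAR : S_PAR := by
  intro p _ f v hf
  have hp : (0 : ℝ) < p := by exact_mod_cast (Fact.out : p.Prime).pos
  set g : ZMod p → ℂ := fun x => (f x : ℂ) * e (v * x ^ 2) with hg
  have hcf : ∀ c, ‖cf f c v‖ ^ 2 = (1 / (p : ℝ)) ^ 2 * ‖∑ x, g x * e (c * x)‖ ^ 2 := by
    intro c
    have : cf f c v = (1 / (p : ℂ)) * ∑ x, g x * e (c * x) := by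
      unfold cf
      congr 1
      refine Finset.sum_congr rfl fun x _ => ?_
      simp only [hg]
      rw [mul_assoc, ← AddChar.map_add_eq_mul]
    rw [this, norm_mul, mul_pow]
    congr 2
    simp
  calc ∑ c : ZMod p, ‖cf f c v‖ ^ 2
      = (1 / (p : ℝ)) ^ 2 * ∑ c : ZMod p, ‖∑ x, g x * e (c * x)‖ ^ 2 := by
        rw [Finset.mul_sum]; exact Finset.sum_congr rfl fun c _ => hcf c
    _ = (1 / (p : ℝ)) ^ 2 * ((p : ℝ) * ∑ x, ‖g x‖ ^ 2) := by rw [PAR.parseval]
    _ ≤ (1 / (p : ℝ)) ^ 2 * ((p : ℝ) * ∑ x : ZMod p, (1 : ℝ)) := by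
        have hg1 : ∀ x, ‖g x‖ ^ 2 ≤ 1 := by
          intro x
          have h1 : ‖g x‖ = |f x| := by
            simp only [hg, norm_mul, Complex.norm_real, Real.norm_eq_abs]
            have : ‖e (v * x ^ 2)‖ = 1 := AddChar.norm_apply _ _
            rw [this, mul_one]
          rw [h1]
          exact pow_le_one₀ (abs_nonneg _) (hf x)
        gcongr
        exact hg1 _
    _ = 1 := by
        rw [Finset.sum_const, Finset.card_univ, ZMod.card, nsmul_eq_mul, mul_one]
        field_simp

end Pool.Agent.H505PP
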