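import Pool.Agent.H505PP.Defs

set_option autoImplicit false

noncomputable section

namespace Pool.Agent.H505PP

open scoped BigOperators ENNReal Topology
open Finset Filter MeasureTheory

namespace REC

/-- one step of the recursion -/
def nxt (f : ℕ → ℕ → ℕ → Lev) (i : ℕ) (s : ℕ × ℕ) : ℕ × ℕ :=
  (s.1 * (f i s.1 s.2).p, max s.2 ((f i s.1 s.2).R.sup fun r => (s.1 * r) ^ 2))

/-- the states -/
def st (f : ℕ → ℕ → ℕ → Lev) : ℕ → ℕ × ℕ
  | 0 => (1, 0)
  | i + 1 => nxt f i (st f i)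

/-- the levels -/
def lv (f : ℕ → ℕ → ℕ → Lev) (i : ℕ) : Lev := f i (st f i).1 (st f i).2

theorem st_succ_fst (f : ℕ → ℕ → ℕ → Lev) (i : ℕ) :
    (st f (i + 1)).1 = (st f i).1 * (lv f i).p := rfl

theorem st_succ_snd (f : ℕ → ℕ → ℕ → Lev) (i : ℕ) :
    (st f (i + 1)).2 = max (st f i).2 ((lv f i).R.sup fun r => ((st f i).1 * r) ^ 2) := rfl

theorem st_fst (f : ℕ → ℕ → ℕ → Lev) (i : ℕ) :
    (st f i).1 = PP (fun i => (lv f i).p) i := by
  induction i with
  | zero => rfl
  | succ i ih =>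
    rw [st_succ_fst, ih]
    unfold PP
    rw [Finset.prod_range_succ]

theorem mono (f : ℕ → ℕ → ℕ → Lev) : Monotone fun i => (st f i).2 := by
  refine monotone_nat_of_le_succ fun i => ?_
  show (st f i).2 ≤ (st f (i + 1)).2
  rw [st_succ_snd]
  exact le_max_left _ _

theorem sq_le (f : ℕ → ℕ → ℕ → Lev) {i m : ℕ} (h : i < m) {r : ℕ} (hr : r ∈ (lv f i).R) :
    ((st f i).1 * r) ^ 2 ≤ (st f m).2 := by
  have h1 : (st f (i + 1)).2 ≤ (st f m).2 := mono f h
  refine le_trans ?_ h1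
  rw [st_succ_snd]
  refine le_trans ?_ (le_max_right _ _)
  exact Finset.le_sup (f := fun r => ((st f i).1 * r) ^ 2) hr

/-- pigeonhole: a dense residue class -/
theorem pig (P N : ℕ) (δ : ℝ) (hP : 1 ≤ P) (B : Finset ℕ) (hB : B ⊆ range (P * N))
    (hc : δ * (P * N : ℕ) ≤ B.card) :
    ∃ c, δ * N ≤ ((range N).filter fun m => c + P * m ∈ B).card := by
  by_contra hcon
  push Not at hcon
  have h1 : B.card = ∑ c ∈ range P, (B.filter fun b => b % P = c).card :=
    Finset.card_eq_sum_card_fiberwise fun b _ => by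
      rw [Finset.coe_range, Set.mem_Iio]
      exact Nat.mod_lt _ hP
  have h2 : ∀ c ∈ range P, (B.filter fun b => b % P = c).card ≤
      ((range N).filter fun m => c + P * m ∈ B).card := by
    intro c _
    refine Finset.card_le_card_of_injOn (fun b => b / P) ?_ ?_
    · intro b hb
      rw [Finset.mem_coe, Finset.mem_filter] at hb
      obtain ⟨hb1, hb2⟩ := hb
      rw [Finset.mem_coe, Finset.mem_filter, Finset.mem_range]
      have hlt := Finset.mem_range.1 (hB hb1)
      refine ⟨Nat.div_lt_of_lt_mul hlt, ?_⟩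
      rw [← hb2, Nat.mod_add_div]
      exact hb1
    · intro b hb b' hb' he
      rw [Finset.mem_coe, Finset.mem_filter] at hb hb'
      have he' : b / P = b' / P := he
      rw [← Nat.mod_add_div b P, ← Nat.mod_add_div b' P, hb.2, hb'.2, he']
  have h3 : (B.card : ℝ) ≤ ∑ c ∈ range P,
      ((((range N).filter fun m => c + P * m ∈ B).card : ℕ) : ℝ) := by
    rw [h1]
    push_cast
    exact Finset.sum_le_sum fun c hc => by exact_mod_cast h2 c hc
  have h4 : ∑ c ∈ range P, ((((range N).filter fun m => c + P * m ∈ B).card : ℕ) : ℝ) <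
      ∑ _c ∈ range P, δ * N :=
    Finset.sum_lt_sum_of_nonempty ⟨0, Finset.mem_range.2 hP⟩ fun c _ => hcon c
  rw [Finset.sum_const, Finset.card_range, nsmul_eq_mul] at h4
  push_cast at hc
  nlinarith

end REC

open REC in
theorem t_REC : S_LV → S_REC := by
  intro hLV
  have h0 : ∀ i P H : ℕ, ∃ v : Lev, 1 ≤ P → LevOK (1 / ((i : ℝ) + 1)) ((1 / 4) ^ (i + 1)) P H v := by
    intro i P H
    by_cases hP : 1 ≤ P
    · obtain ⟨v, hv⟩ := hLV (1 / ((i : ℝ) + 1)) ((1 / 4) ^ (i + 1)) P H (by positivity)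
        (by positivity) hP
      exact ⟨v, fun _ => hv⟩
    · obtain ⟨v, hv⟩ := hLV 1 1 1 1 one_pos one_pos le_rfl
      exact ⟨v, fun h => absurd h hP⟩
  choose f hf using h0
  have hpos : ∀ i : ℕ, 1 ≤ (st f i).1 := by
    intro i
    induction i with
    | zero => exact le_rfl
    | succ i ih =>
      rw [st_succ_fst]
      exact Nat.mul_pos ih (hf i _ _ ih).pr.pos
  have hok : ∀ i : ℕ, LevOK (1 / ((i : ℝ) + 1)) ((1 / 4) ^ (i + 1)) (st f i).1 (st f i).2 (lv f i) :=
    fun i => hf i _ _ (hpos i)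
  classical
  refine ⟨fun i => (lv f i).p, fun i => (lv f i).σ,
    fun i => (lv f i).R.image fun r => (st f i).1 * r, ?_⟩
  refine ⟨fun i => (hok i).pr, fun i => ?_, fun i x => (hok i).val x, fun i => (hok i).zer,
    ?_, ?_, ?_, ?_⟩
  · rw [← st_fst]
    exact (hok i).big
  · intro i r hr
    obtain ⟨r0, h1, rfl⟩ := Finset.mem_image.1 hr
    rw [← st_fst]
    exact ⟨Dvd.intro _ rfl, Nat.mul_pos (hpos i) ((hok i).pos r0 h1)⟩
  · intro i r hr x hx
    obtain ⟨r0, h1, rfl⟩ := Finset.mem_image.1 hr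
    exact (hok i).flip r0 h1 x hx
  · intro i m him r hr x hx
    obtain ⟨r0, h1, rfl⟩ := Finset.mem_image.1 hr
    exact (hok m).stay _ (sq_le f him h1) x hx
  · intro i
    refine ⟨(st f i).1 * (lv f i).N, Nat.mul_pos (hpos i) (hok i).N1, ?_⟩
    intro B hB hc
    obtain ⟨c, hc1⟩ := pig (st f i).1 (lv f i).N (1 / ((i : ℝ) + 1)) (hpos i) B hB (by
      rw [one_div_mul_eq_div]
      exact hc)
    obtain ⟨r, hr, x, x1, x2, x3⟩ := (hok i).rec2 _ (Finset.filter_subset _ _) hc1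
    refine ⟨(st f i).1 * r, Finset.mem_image_of_mem _ hr, c + (st f i).1 * x,
      (Finset.mem_filter.1 x1).2, ?_, ?_⟩
    · have := (Finset.mem_filter.1 x2).2
      rwa [mul_add, ← add_assoc] at this
    · have := (Finset.mem_filter.1 x3).2
      rwa [mul_add, ← add_assoc, show (st f i).1 * (2 * r) = 2 * ((st f i).1 * r) by ring] at this

end Pool.Agent.H505PP
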