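import Pool.Agent.H505PP.Defs

set_option autoImplicit false

/-! Task SH (helper722). -/

noncomputable section

namespace Pool.Agent.H505PP

open scoped BigOperators ENNReal Topology
open Finset Filter MeasureTheory

namespace SH

/-- well inside the lower half -/
def low (M : ℕ) {p : ℕ} (y : ZMod p) : Prop := 1 ≤ dg M y ∧ dg M y + 2 ≤ M / 2

/-- well inside the upper half -/
def upp (M : ℕ) {p : ℕ} (y : ZMod p) : Prop := M / 2 + 1 ≤ dg M y ∧ dg M y + 2 ≤ M

theorem le_dg {p : ℕ} (hp : 0 < p) (M a : ℕ) (y : ZMod p) : a ≤ dg M y ↔ a * p ≤ M * y.val := by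
  unfold dg
  exact Nat.le_div_iff_mul_le hp

theorem dg_lt {p : ℕ} (hp : 0 < p) (M a : ℕ) (y : ZMod p) : dg M y < a ↔ M * y.val < a * p := by
  unfold dg
  exact Nat.div_lt_iff_lt_mul hp

/-- the hypothesis of part (a) in natural numbers -/
theorem near_half {p : ℕ} (hp : 0 < p) (M z : ℕ) (hM : 0 < M)
    (h : |(z : ℝ) / p - 1 / 2| < 1 / M) :
    2 * (M * z) < M * p + 2 * p ∧ M * p < 2 * (M * z) + 2 * p := by
  have hp' : (0 : ℝ) < (p : ℝ) := by exact_mod_cast hp
  have hM' : (0 : ℝ) < (M : ℝ) := by exact_mod_cast hM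
  rw [abs_lt] at h
  obtain ⟨h1, h2⟩ := h
  have e1 : (z : ℝ) / p < 1 / M + 1 / 2 := by linarith
  have e2 : 1 / 2 - 1 / M < (z : ℝ) / p := by linarith
  rw [div_lt_iff₀ hp'] at e1
  rw [lt_div_iff₀ hp'] at e2
  have f1 : 2 * ((M : ℝ) * z) < M * p + 2 * p := by
    have := mul_lt_mul_of_pos_left e1 (show (0 : ℝ) < 2 * M by linarith)
    have e : 2 * (M : ℝ) * ((1 / M + 1 / 2) * p) = M * p + 2 * p := by field_simp; ring
    rw [e] at this
    linarith
  have f2 : (M : ℝ) * p < 2 * ((M : ℝ) * z) + 2 * p := by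
    have := mul_lt_mul_of_pos_left e2 (show (0 : ℝ) < 2 * M by linarith)
    have e : 2 * (M : ℝ) * ((1 / 2 - 1 / M) * p) = M * p - 2 * p := by field_simp
    rw [e] at this
    linarith
  constructor
  · exact_mod_cast f1
  · exact_mod_cast f2

theorem near_zero {p : ℕ} (hp : 0 < p) (M z : ℕ) (hM : 0 < M)
    (h : (z : ℝ) / p < 1 / M) : M * z < p := by
  have hp' : (0 : ℝ) < (p : ℝ) := by exact_mod_cast hp
  have hM' : (0 : ℝ) < (M : ℝ) := by exact_mod_cast hM
  rw [div_lt_div_iff₀ hp' hM'] at h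
  have : (M : ℝ) * z < p := by linarith
  exact_mod_cast this

theorem val_sum {p : ℕ} [NeZero p] (y z : ZMod p) (h : y.val + z.val < p) :
    (y + z).val = y.val + z.val := by
  rw [ZMod.val_add, Nat.mod_eq_of_lt h]

theorem val_sum' {p : ℕ} [NeZero p] (y z : ZMod p) (h : p ≤ y.val + z.val) :
    (y + z).val + p = y.val + z.val := by
  have h1 := ZMod.val_lt y
  have h2 := ZMod.val_lt z
  rw [ZMod.val_add, Nat.mod_eq_sub_mod h, Nat.mod_eq_of_lt (by omega)]
  omega

theorem lowA {p : ℕ} [NeZero p] (m : ℕ) (hm : 4 ≤ m) (y z : ZMod p)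
    (h1 : 2 * (2 * m * z.val) < 2 * m * p + 2 * p) (h2 : 2 * m * p < 2 * (2 * m * z.val) + 2 * p)
    (hl : low (2 * m) y) : ¬ low (2 * m) (y + z) := by
  have hp : 0 < p := Nat.pos_of_ne_zero (NeZero.ne p)
  obtain ⟨l1, l2⟩ := hl
  rw [Nat.mul_div_cancel_left m (by norm_num)] at l2
  rw [le_dg hp] at l1
  have l2' : dg (2 * m) y < m - 1 := by omega
  rw [dg_lt hp] at l2'
  obtain ⟨q, hq⟩ : ∃ q, q = m * p := ⟨_, rfl⟩
  have e1 : (m - 1) * p + p = q := by
    rw [hq]; obtain ⟨k, rfl⟩ : ∃ k, m = k + 1 := ⟨m - 1, by omega⟩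
    rw [Nat.add_sub_cancel]; ring
  have e2 : 2 * m * p = 2 * q := by rw [hq]; ring
  rw [e2] at h1 h2
  have hlt : y.val + z.val < p := by
    have : 2 * m * (y.val + z.val) < 2 * m * p := by
      rw [e2, mul_add]; omega
    exact Nat.lt_of_mul_lt_mul_left this
  rintro ⟨-, r2⟩
  rw [Nat.mul_div_cancel_left m (by norm_num)] at r2
  have r2' : dg (2 * m) (y + z) < m := by omega
  rw [dg_lt hp, val_sum y z hlt, mul_add, ← hq] at r2'
  omega

theorem uppA {p : ℕ} [NeZero p] (m : ℕ) (hm : 4 ≤ m) (y z : ZMod p)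
    (h1 : 2 * (2 * m * z.val) < 2 * m * p + 2 * p) (h2 : 2 * m * p < 2 * (2 * m * z.val) + 2 * p)
    (hl : upp (2 * m) y) : ¬ upp (2 * m) (y + z) := by
  have hp : 0 < p := Nat.pos_of_ne_zero (NeZero.ne p)
  obtain ⟨l1, l2⟩ := hl
  rw [Nat.mul_div_cancel_left m (by norm_num), le_dg hp] at l1
  have l2' : dg (2 * m) y < 2 * m - 1 := by omega
  rw [dg_lt hp] at l2'
  obtain ⟨q, hq⟩ : ∃ q, q = m * p := ⟨_, rfl⟩
  have e1 : (m + 1) * p = q + p := by rw [hq]; ring
  have e2 : 2 * m * p = 2 * q := by rw [hq]; ring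
  have e3 : (2 * m - 1) * p + p = 2 * q := by
    rw [hq]; obtain ⟨k, rfl⟩ : ∃ k, m = k + 1 := ⟨m - 1, by omega⟩
    rw [show 2 * (k + 1) - 1 = 2 * k + 1 by omega]; ring
  rw [e2] at h1 h2
  rw [e1] at l1
  have hge : p ≤ y.val + z.val := by
    have : 2 * m * p ≤ 2 * m * (y.val + z.val) := by
      rw [e2, mul_add]; omega
    exact Nat.le_of_mul_le_mul_left this (by omega)
  rintro ⟨r1, -⟩
  rw [Nat.mul_div_cancel_left m (by norm_num), le_dg hp, e1] at r1
  have hv := congrArg (fun t => 2 * m * t) (val_sum' y z hge)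
  simp only [mul_add] at hv
  rw [e2] at hv
  omega

theorem lowB {p : ℕ} [NeZero p] (m : ℕ) (hm : 4 ≤ m) (y z : ZMod p)
    (h1 : 2 * m * z.val < p) (hl : low (2 * m) y) : ¬ upp (2 * m) (y + z) := by
  have hp : 0 < p := Nat.pos_of_ne_zero (NeZero.ne p)
  obtain ⟨l1, l2⟩ := hl
  rw [Nat.mul_div_cancel_left m (by norm_num)] at l2
  rw [le_dg hp] at l1
  have l2' : dg (2 * m) y < m - 1 := by omega
  rw [dg_lt hp] at l2'
  obtain ⟨q, hq⟩ : ∃ q, q = m * p := ⟨_, rfl⟩
  have e1 : (m - 1) * p + p = q := by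
    rw [hq]; obtain ⟨k, rfl⟩ : ∃ k, m = k + 1 := ⟨m - 1, by omega⟩
    rw [Nat.add_sub_cancel]; ring
  have e2 : 2 * m * p = 2 * q := by rw [hq]; ring
  have e4 : (m + 1) * p = q + p := by rw [hq]; ring
  have hlt : y.val + z.val < p := by
    have : 2 * m * (y.val + z.val) < 2 * m * p := by
      rw [e2, mul_add]; omega
    exact Nat.lt_of_mul_lt_mul_left this
  rintro ⟨r1, -⟩
  rw [Nat.mul_div_cancel_left m (by norm_num), le_dg hp, val_sum y z hlt, mul_add, e4] at r1
  omega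

theorem uppB {p : ℕ} [NeZero p] (m : ℕ) (hm : 4 ≤ m) (y z : ZMod p)
    (h1 : 2 * m * z.val < p) (hl : upp (2 * m) y) : ¬ low (2 * m) (y + z) := by
  have hp : 0 < p := Nat.pos_of_ne_zero (NeZero.ne p)
  obtain ⟨l1, l2⟩ := hl
  rw [Nat.mul_div_cancel_left m (by norm_num), le_dg hp] at l1
  have l2' : dg (2 * m) y < 2 * m - 1 := by omega
  rw [dg_lt hp] at l2'
  obtain ⟨q, hq⟩ : ∃ q, q = m * p := ⟨_, rfl⟩
  have e1 : (m + 1) * p = q + p := by rw [hq]; ring
  have e2 : 2 * m * p = 2 * q := by rw [hq]; ring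
  have e3 : (2 * m - 1) * p + p = 2 * q := by
    rw [hq]; obtain ⟨k, rfl⟩ : ∃ k, m = k + 1 := ⟨m - 1, by omega⟩
    rw [show 2 * (k + 1) - 1 = 2 * k + 1 by omega]; ring
  rw [e1] at l1
  have hlt : y.val + z.val < p := by
    have : 2 * m * (y.val + z.val) < 2 * m * p := by
      rw [e2, mul_add]; omega
    exact Nat.lt_of_mul_lt_mul_left this
  rintro ⟨-, r2⟩
  rw [Nat.mul_div_cancel_left m (by norm_num)] at r2
  have r2' : dg (2 * m) (y + z) < m := by omega
  rw [dg_lt hp, val_sum y z hlt, mul_add, ← hq] at r2'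
  omega

theorem count {k : ℕ} (P Q S : Finset (Fin k)) (h : ∀ l, l ∉ S → l ∈ P → l ∉ Q) :
    P.card + Q.card ≤ k + S.card := by
  have h1 : P.card ≤ (P \ S).card + S.card := by
    have := Finset.card_le_card_sdiff_add_card (s := P) (t := S)
    exact this
  have h2 : Disjoint (P \ S) Q := by
    rw [Finset.disjoint_left]
    intro l hl hlQ
    rw [Finset.mem_sdiff] at hl
    exact h l hl.2 hl.1 hlQ
  have h3 : (P \ S).card + Q.card ≤ k := by
    rw [← Finset.card_union_of_disjoint h2]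
    simpa using Finset.card_le_univ ((P \ S) ∪ Q)
  omega

end SH

open SH in
theorem t_SH : S_SH := by
  classical
  intro p _ M N h s hMe hM8 S n hS
  obtain ⟨m, hm⟩ := hMe
  have hM : M = 2 * m := by omega
  subst hM
  have hm4 : 4 ≤ m := by omega
  have hp : 0 < p := (Fact.out : p.Prime).pos
  have hadd : ∀ (x : ZMod p) (l : Fin (2 * h)), (N : ZMod p) ^ (l : ℕ) * (x + n) =
      (N : ZMod p) ^ (l : ℕ) * x + (N : ZMod p) ^ (l : ℕ) * n := fun x l => mul_add _ _ _
  have hpc : ∀ x : ZMod p, pc (2 * m) N h x =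
      (univ.filter fun l : Fin (2 * h) => low (2 * m) ((N : ZMod p) ^ (l : ℕ) * x)).card := by
    intro x
    unfold pc low
    congr
  have hmc : ∀ x : ZMod p, mc (2 * m) N h x =
      (univ.filter fun l : Fin (2 * h) => upp (2 * m) ((N : ZMod p) ^ (l : ℕ) * x)).card := by
    intro x
    unfold mc upp
    congr
  constructor
  · intro hl x hx
    have hz : ∀ l : Fin (2 * h), l ∉ S →
        2 * (2 * m * ((N : ZMod p) ^ (l : ℕ) * n).val) < 2 * m * p + 2 * p ∧
        2 * m * p < 2 * (2 * m * ((N : ZMod p) ^ (l : ℕ) * n).val) + 2 * p := by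
      intro l hlS
      exact near_half hp (2 * m) _ (by omega) (hl l hlS)
    have c1 : pc (2 * m) N h x + pc (2 * m) N h (x + n) ≤ 2 * h + S.card := by
      rw [hpc, hpc]
      refine count _ _ S fun l hlS hlP hlQ => ?_
      rw [Finset.mem_filter] at hlP hlQ
      rw [hadd] at hlQ
      exact lowA m hm4 _ _ (hz l hlS).1 (hz l hlS).2 hlP.2 hlQ.2
    have c2 : mc (2 * m) N h x + mc (2 * m) N h (x + n) ≤ 2 * h + S.card := by
      rw [hmc, hmc]
      refine count _ _ S fun l hlS hlP hlQ => ?_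
      rw [Finset.mem_filter] at hlP hlQ
      rw [hadd] at hlQ
      exact uppA m hm4 _ _ (hz l hlS).1 (hz l hlS).2 hlP.2 hlQ.2
    unfold sgn at hx ⊢
    by_cases h1 : h + s + 1 ≤ pc (2 * m) N h x
    · rw [if_pos h1, if_neg (by omega)]
      split_ifs <;> norm_num
    · rw [if_neg h1] at hx ⊢
      by_cases h2 : h + s + 1 ≤ mc (2 * m) N h x
      · rw [if_pos h2]
        split_ifs with h3 h4
        · norm_num
        · omega
        · norm_num
      · rw [if_neg h2] at hx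
        exact absurd rfl hx
  · intro hl x hx
    have hz : ∀ l : Fin (2 * h), 2 * m * ((N : ZMod p) ^ (l : ℕ) * n).val < p := by
      intro l
      exact near_zero hp (2 * m) _ (by omega) (hl l)
    have c1 : pc (2 * m) N h x + mc (2 * m) N h (x + n) ≤ 2 * h + (∅ : Finset (Fin (2 * h))).card := by
      rw [hpc, hmc]
      refine count _ _ ∅ fun l _ hlP hlQ => ?_
      rw [Finset.mem_filter] at hlP hlQ
      rw [hadd] at hlQ
      exact lowB m hm4 _ _ (hz l) hlP.2 hlQ.2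
    have c2 : mc (2 * m) N h x + pc (2 * m) N h (x + n) ≤ 2 * h + (∅ : Finset (Fin (2 * h))).card := by
      rw [hmc, hpc]
      refine count _ _ ∅ fun l _ hlP hlQ => ?_
      rw [Finset.mem_filter] at hlP hlQ
      rw [hadd] at hlQ
      exact uppB m hm4 _ _ (hz l) hlP.2 hlQ.2
    rw [Finset.card_empty] at c1 c2
    unfold sgn at hx ⊢
    by_cases h1 : h + s + 1 ≤ pc (2 * m) N h x
    · rw [if_pos h1]
      split_ifs with h3 h4
      · norm_num
      · omega
      · norm_num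
    · rw [if_neg h1] at hx ⊢
      by_cases h2 : h + s + 1 ≤ mc (2 * m) N h x
      · rw [if_pos h2, if_neg (by omega)]
        split_ifs <;> norm_num
      · rw [if_neg h2] at hx
        exact absurd rfl hx

end Pool.Agent.H505PP
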