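import Pool.Agent.H505PP.Defs

/-! Project PP (helper505): task TH. -/

set_option autoImplicit false

noncomputable section

namespace Pool.Agent.H505PP

open scoped BigOperators ENNReal Topology
open Finset Filter MeasureTheory

namespace TH

lemma ph_one {k : ℕ} (ξ : Fin k → ℤ) (θ : Fin k → ℝ) (z : ℤ)
    (h : ∑ l, (ξ l : ℝ) * θ l = z) : ph ξ θ = 1 := by
  unfold ph
  have h2 : ∑ l, (ξ l : ℂ) * (θ l : ℂ) = (z : ℂ) := by
    have := congrArg (fun r : ℝ => (r : ℂ)) h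
    push_cast at this
    exact this
  rw [h2]
  have h3 : -(2 * Real.pi * Complex.I * (z : ℂ)) = ((-z : ℤ) : ℂ) * (2 * Real.pi * Complex.I) := by
    push_cast; ring
  rw [h3]
  exact Complex.exp_int_mul_two_pi_mul_I _

lemma dt_sub {p k : ℕ} (ξ ξ' : Fin k → ℤ) (a : Fin k → ZMod p) :
    dt (ξ - ξ') a = dt ξ a - dt ξ' a := by
  unfold dt
  rw [← Finset.sum_sub_distrib]
  apply Finset.sum_congr rfl
  intro l _
  simp only [Pi.sub_apply]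
  push_cast
  ring

lemma bx_sub {k D : ℕ} {ξ ξ' : Fin k → ℤ} (h : ξ ∈ bx k D) (h' : ξ' ∈ bx k D) :
    ξ - ξ' ∈ bx k (2 * D + 2) := by
  unfold bx at *
  rw [Fintype.mem_piFinset] at *
  intro l
  have h1 := Finset.mem_Icc.1 (h l)
  have h2 := Finset.mem_Icc.1 (h' l)
  rw [Finset.mem_Icc]
  simp only [Pi.sub_apply]
  push_cast
  constructor <;> omega

end TH

open TH in
theorem t_TH : S_LSP → S_ALG → S_TH := by
  classical
  intro hLSP hALG L ε hε hε1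
  set m0 : ℕ := ⌈2 / ε ^ 6⌉₊ with hm0
  refine ⟨(2 * L ^ 2 + 1) ^ m0, ?_⟩
  intro k D _
  refine ⟨2 * L ^ 2 + 3 + ⌈4 / ε ^ 12⌉₊, ?_⟩
  intro p _ hp a hdis j hj1 hjL f hf
  have hp2 : 2 < p := by omega
  have hη : 0 < ε ^ 3 := by positivity
  have hη4 : 4 ≤ (ε ^ 3) ^ 4 * (p : ℝ) := by
    have h1 : 4 / ε ^ 12 ≤ (⌈4 / ε ^ 12⌉₊ : ℝ) := Nat.le_ceil _
    have h2 : ((⌈4 / ε ^ 12⌉₊ : ℕ) : ℝ) ≤ (p : ℝ) := by exact_mod_cast (by omega)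
    have h3 : 4 / ε ^ 12 ≤ (p : ℝ) := h1.trans h2
    rw [div_le_iff₀ (by positivity)] at h3
    calc (4 : ℝ) ≤ p * ε ^ 12 := h3
      _ = (ε ^ 3) ^ 4 * p := by ring
  have hjL2 : j ^ 2 ≤ L ^ 2 := Nat.pow_le_pow_left hjL.le 2
  have hj2 : 1 ≤ j ^ 2 := Nat.one_le_pow _ _ hj1
  have hq0 : (2 * (j : ZMod p) ^ 2) ≠ 0 := by
    have h1 : ((2 * j ^ 2 : ℕ) : ZMod p) ≠ 0 := by
      rw [Ne, ZMod.natCast_eq_zero_iff]
      intro hd
      have := Nat.le_of_dvd (by omega) hd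
      omega
    simpa using h1
  -- the set of large frequencies
  let Ξ : Finset (Fin k → ℤ) :=
    (bx k D).filter fun ξ => ∃ c, ε ^ 3 ≤ ‖cf f c (dt ξ a / (2 * (j : ZMod p) ^ 2))‖
  have hΞ : ∀ ξ, ξ ∈ Ξ ↔ ξ ∈ bx k D ∧
      ∃ c, ε ^ 3 ≤ ‖cf f c (dt ξ a / (2 * (j : ZMod p) ^ 2))‖ := by
    intro ξ; simp [Ξ]
  let g : (Fin k → ℤ) → ZMod p × ZMod p := fun ξ =>
    if h : ∃ c, ε ^ 3 ≤ ‖cf f c (dt ξ a / (2 * (j : ZMod p) ^ 2))‖ then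
      (h.choose, dt ξ a / (2 * (j : ZMod p) ^ 2)) else (0, 0)
  have hg : ∀ ξ ∈ Ξ, ε ^ 3 ≤ ‖cf f (g ξ).1 (g ξ).2‖ ∧
      (g ξ).2 = dt ξ a / (2 * (j : ZMod p) ^ 2) := by
    intro ξ hξ
    have h := ((hΞ ξ).1 hξ).2
    simp only [g, dif_pos h]
    exact ⟨h.choose_spec, trivial⟩
  have hinj : Set.InjOn g (Ξ : Set (Fin k → ℤ)) := by
    intro ξ hξ ξ' hξ' he
    have h1 := (hg ξ hξ).2
    have h2 := (hg ξ' hξ').2
    rw [he, h2] at h1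
    have h3 : dt ξ a = dt ξ' a := by
      have h4 := congrArg (fun t => t * (2 * (j : ZMod p) ^ 2)) h1
      simp only [div_mul_cancel₀ _ hq0] at h4
      exact h4.symm
    by_contra hne
    have h5 := hdis (ξ - ξ') (bx_sub ((hΞ ξ).1 hξ).1 ((hΞ ξ').1 hξ').1) (sub_ne_zero.2 hne)
    rw [dt_sub, h3, sub_self] at h5
    exact h5 rfl
  have hcard : Ξ.card ≤ m0 := by
    have h1 := hLSP p hp2 f (ε ^ 3) hf hη hη4 (Ξ.image g) (by
      intro z hz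
      obtain ⟨ξ, hξ, rfl⟩ := Finset.mem_image.1 hz
      exact (hg ξ hξ).1)
    rw [Finset.card_image_of_injOn hinj] at h1
    have h2 : (2 : ℝ) / (ε ^ 3) ^ 2 = 2 / ε ^ 6 := by ring
    rw [h2] at h1
    have h3 : (Ξ.card : ℝ) ≤ (m0 : ℝ) := h1.trans (Nat.le_ceil _)
    exact_mod_cast h3
  obtain ⟨S, c, hS, hc, hdvd⟩ := hALG Ξ.card k (2 * j ^ 2)
    (fun i => ((Ξ.equivFin.symm i : Ξ) : Fin k → ℤ)) (by omega)
  refine ⟨fun l => (c l : ℝ) / (2 * (j : ℝ) ^ 2), S, ?_, ?_, ?_⟩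
  · calc S.card ≤ (2 * j ^ 2) ^ Ξ.card := hS
      _ ≤ (2 * L ^ 2 + 1) ^ Ξ.card := Nat.pow_le_pow_left (by omega) _
      _ ≤ (2 * L ^ 2 + 1) ^ m0 := Nat.pow_le_pow_right (by omega) hcard
  · intro l hl
    simp only [hc l hl, Int.cast_one]
  · intro ξ hξ hex
    have hmem : ξ ∈ Ξ := (hΞ ξ).2 ⟨hξ, hex⟩
    have h1 := hdvd (Ξ.equivFin ⟨ξ, hmem⟩)
    simp only [Equiv.symm_apply_apply] at h1
    obtain ⟨z, hz⟩ := h1
    apply ph_one ξ _ z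
    have hj0 : (2 * (j : ℝ) ^ 2) ≠ 0 := by
      have : (0 : ℝ) < j := by exact_mod_cast hj1
      positivity
    have h2 : ∑ l, (ξ l : ℝ) * ((c l : ℝ) / (2 * (j : ℝ) ^ 2)) =
        (∑ l, (ξ l : ℝ) * (c l : ℝ)) / (2 * (j : ℝ) ^ 2) := by
      rw [Finset.sum_div]
      apply Finset.sum_congr rfl
      intro l _
      ring
    rw [h2, div_eq_iff hj0]
    have h3 := congrArg (fun r : ℤ => (r : ℝ)) hz
    push_cast at h3
    rw [h3]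
    ring

end Pool.Agent.H505PP
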