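import Pool.Agent.H505PP.Defs

/-!
# Task TJ (helper228)
-/

set_option autoImplicit false

noncomputable section

namespace Pool.Agent.H505PP

open scoped BigOperators ENNReal Topology
open Finset Filter MeasureTheory

namespace TJ

theorem orth {p : ℕ} [Fact p.Prime] (t : ZMod p) :
    ∑ c : ZMod p, e (c * t) = if t = 0 then (p : ℂ) else 0 := by
  have h := AddChar.sum_mulShift t (ZMod.isPrimitive_stdAddChar p)
  rw [ZMod.card] at h
  rw [h]
  split_ifs <;> simp

/-- the summand -/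
def F {p : ℕ} [Fact p.Prime] (f : ZMod p → ℝ) (u a b z : ZMod p) : ℂ :=
  (f a : ℂ) * f b * f z * e (u * a ^ 2 + u * b ^ 2 - 2 * u * z ^ 2)

theorem prod {p : ℕ} [Fact p.Prime] (f : ZMod p → ℝ) (u c : ZMod p) :
    cf f (-c) u ^ 2 * cf f (2 * c) (-2 * u) =
      (1 / (p : ℂ)) ^ 3 * ∑ a, ∑ b, ∑ z, F f u a b z * e (c * (2 * z - a - b)) := by
  unfold cf
  have h1 : ∀ S1 S2 : ℂ, (1 / (p : ℂ) * S1) ^ 2 * (1 / (p : ℂ) * S2) =
      (1 / (p : ℂ)) ^ 3 * (S1 * (S1 * S2)) := by intro S1 S2; ring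
  rw [h1]
  congr 1
  rw [Finset.sum_mul]
  refine Finset.sum_congr rfl fun a _ => ?_
  rw [Finset.sum_mul, Finset.mul_sum]
  refine Finset.sum_congr rfl fun b _ => ?_
  rw [Finset.mul_sum, Finset.mul_sum]
  refine Finset.sum_congr rfl fun z _ => ?_
  unfold F
  have h2 : (e (u * a ^ 2 + -c * a) : ℂ) * (e (u * b ^ 2 + -c * b) * e (-2 * u * z ^ 2 + 2 * c * z))
      = e (u * a ^ 2 + u * b ^ 2 - 2 * u * z ^ 2) * e (c * (2 * z - a - b)) := by
    unfold e
    rw [← AddChar.map_add_eq_mul, ← AddChar.map_add_eq_mul, ← AddChar.map_add_eq_mul]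
    congr 1
    ring
  calc (f a : ℂ) * e (u * a ^ 2 + -c * a) * ((f b : ℂ) * e (u * b ^ 2 + -c * b) *
        ((f z : ℂ) * e (-2 * u * z ^ 2 + 2 * c * z)))
      = (f a : ℂ) * f b * f z * (e (u * a ^ 2 + -c * a) *
        (e (u * b ^ 2 + -c * b) * e (-2 * u * z ^ 2 + 2 * c * z))) := by ring
    _ = _ := by rw [h2]; ring

end TJ

theorem t_TJ : S_TJ := by
  intro p _ hp j f v hj
  have hp0 : (p : ℂ) ≠ 0 := by
    have : 0 < p := by omega
    exact_mod_cast this.ne'
  have h2 : (2 : ZMod p) ≠ 0 := by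
    intro h
    have h' : ((2 : ℕ) : ZMod p) = 0 := by exact_mod_cast h
    rw [ZMod.natCast_eq_zero_iff] at h'
    have := Nat.le_of_dvd (by norm_num) h'
    omega
  set u : ZMod p := v / (2 * (j : ZMod p) ^ 2) with hu
  have huv : u * (2 * (j : ZMod p) ^ 2) = v := by
    rw [hu]
    exact div_mul_cancel₀ v (mul_ne_zero h2 (pow_ne_zero _ hj))
  -- the right side
  have hR : ∑ c, cf f (-c) u ^ 2 * cf f (2 * c) (-2 * u) =
      (1 / (p : ℂ)) ^ 3 * (∑ a, ∑ z, TJ.F f u a (2 * z - a) z * p) := by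
    rw [Finset.sum_congr rfl fun c _ => TJ.prod f u c, ← Finset.mul_sum, Finset.sum_comm]
    congr 1
    refine Finset.sum_congr rfl fun a _ => ?_
    rw [Finset.sum_comm]
    have h3 : ∀ b : ZMod p, ∑ c : ZMod p, ∑ z, TJ.F f u a b z * e (c * (2 * z - a - b)) =
        ∑ z, TJ.F f u a b z * (if 2 * z - a - b = 0 then (p : ℂ) else 0) := by
      intro b
      rw [Finset.sum_comm]
      refine Finset.sum_congr rfl fun z _ => ?_
      rw [← Finset.mul_sum, TJ.orth]
    rw [Finset.sum_congr rfl fun b _ => h3 b, Finset.sum_comm]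
    refine Finset.sum_congr rfl fun z _ => ?_
    rw [Finset.sum_eq_single (2 * z - a)]
    · rw [if_pos (by ring)]
    · intro b _ hb
      rw [if_neg, mul_zero]
      intro h4
      exact hb (sub_eq_zero.1 h4).symm
    · intro h4
      exact absurd (Finset.mem_univ _) h4
  rw [hR]
  have hR2 : (p : ℂ) ^ 2 * ((1 / (p : ℂ)) ^ 3 * (∑ a, ∑ z, TJ.F f u a (2 * z - a) z * p)) =
      ∑ a, ∑ z, TJ.F f u a (2 * z - a) z := by
    simp only [← Finset.sum_mul]
    field_simp
  rw [hR2]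
  refine Finset.sum_congr rfl fun x _ => ?_
  have hbij : Function.Bijective fun d : ZMod p => x + j * d := by
    rw [← Finite.injective_iff_bijective]
    intro d d' h
    exact mul_left_cancel₀ hj (add_left_cancel h)
  rw [← hbij.sum_comp (fun z => TJ.F f u x (2 * z - x) z)]
  refine Finset.sum_congr rfl fun d _ => ?_
  unfold TJ.F
  have h5 : 2 * (x + (j : ZMod p) * d) - x = x + 2 * j * d := by ring
  have h6 : u * x ^ 2 + u * (x + 2 * j * d) ^ 2 - 2 * u * (x + j * d) ^ 2 = v * d ^ 2 := by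
    rw [← huv]; ring
  simp only [h5, h6]
  ring

end Pool.Agent.H505PP
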