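import Pool.Agent.H505PP.Defs

set_option autoImplicit false

namespace Pool.Agent.H505PP

open scoped BigOperators ENNReal Topology
open Finset Filter MeasureTheory

namespace VAR

theorem roth (δ : ℝ) (hδ : 0 < δ) : ∃ L : ℕ, 2 ≤ L ∧ ∀ I : Finset ℕ, I ⊆ range L →
    δ / 2 * L ≤ I.card → ∃ i j : ℕ, 1 ≤ j ∧ i < L ∧ j < L ∧ i ∈ I ∧ i + j ∈ I ∧
      i + 2 * j ∈ I := by
  refine ⟨max 2 (cornersTheoremBound (δ / 2 / 3)), le_max_left _ _, ?_⟩
  intro I hI hc
  have h := roth_3ap_theorem_nat (δ / 2) (by positivity) (le_max_right _ _) I hI hc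
  unfold ThreeAPFree at h
  push Not at h
  obtain ⟨a, ha, b, hb, c, hc', habc, hne⟩ := h
  rw [mem_coe] at ha hb hc'
  have hal := mem_range.mp (hI ha)
  have hbl := mem_range.mp (hI hb)
  have hcl := mem_range.mp (hI hc')
  rcases lt_or_gt_of_ne hne with h1 | h1
  · refine ⟨a, b - a, by omega, hal, by omega, ha, ?_, ?_⟩
    · rwa [show a + (b - a) = b by omega]
    · rwa [show a + 2 * (b - a) = c by omega]
  · refine ⟨c, b - c, by omega, hcl, by omega, hc', ?_, ?_⟩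
    · rwa [show c + (b - c) = b by omega]
    · rwa [show c + 2 * (b - c) = a by omega]

theorem ind_nonneg {α : Type*} (B : Finset α) (x : α) : 0 ≤ ind B x := by
  unfold ind
  split_ifs <;> norm_num

theorem ind_mem {α : Type*} (B : Finset α) {x : α} (h : x ∈ B) : ind B x = 1 := by
  unfold ind
  rw [if_pos h]

theorem ind_eq {α : Type*} (B : Finset α) (x : α) [Decidable (x ∈ B)] :
    ind B x = if x ∈ B then 1 else 0 := by
  unfold ind
  by_cases h : x ∈ B
  · rw [if_pos h, if_pos h]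
  · rw [if_neg h, if_neg h]

theorem sum_ind {p : ℕ} [Fact p.Prime] (B : Finset (ZMod p)) (s : ZMod p) :
    ∑ x, ind B (x + s) = B.card := by
  classical
  have h1 : ∑ x, ind B (x + s) = ∑ x, ind B x :=
    Fintype.sum_equiv (Equiv.addRight s) _ _ (fun x => rfl)
  rw [h1]
  simp only [ind_eq]
  rw [Finset.sum_boole, Finset.filter_mem_eq_inter, Finset.univ_inter]

/-- the pattern -/
noncomputable def T {p : ℕ} [Fact p.Prime] (B : Finset (ZMod p)) (d : ZMod p) (j : ℕ) : ℝ :=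
  ∑ x, ind B x * ind B (x + j * d) * ind B (x + 2 * j * d)

theorem shift {p : ℕ} [Fact p.Prime] (B : Finset (ZMod p)) (d : ZMod p) (i j : ℕ) :
    ∑ x, ind B (x + i * d) * ind B (x + ((i + j : ℕ) : ZMod p) * d) *
      ind B (x + ((i + 2 * j : ℕ) : ZMod p) * d) = T B d j := by
  unfold T
  refine Fintype.sum_equiv (Equiv.addRight ((i : ZMod p) * d)) _ _ (fun x => ?_)
  show _ = ind B (x + i * d) * ind B (x + i * d + j * d) * ind B (x + i * d + 2 * j * d)
  have e1 : x + ((i + j : ℕ) : ZMod p) * d = x + i * d + j * d := by push_cast; ring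
  have e2 : x + ((i + 2 * j : ℕ) : ZMod p) * d = x + i * d + 2 * j * d := by push_cast; ring
  rw [e1, e2]

theorem point {p : ℕ} [Fact p.Prime] (δ : ℝ) (hδ : 0 < δ) (L : ℕ)
    (hL : ∀ I : Finset ℕ, I ⊆ range L →
    δ / 2 * L ≤ I.card → ∃ i j : ℕ, 1 ≤ j ∧ i < L ∧ j < L ∧ i ∈ I ∧ i + j ∈ I ∧
      i + 2 * j ∈ I) (B : Finset (ZMod p)) (d x : ZMod p) :
    ∑ i ∈ range L, ind B (x + i * d) ≤ δ / 2 * L + L * ∑ i ∈ range L, ∑ j ∈ Ico 1 L,
      ind B (x + i * d) * ind B (x + ((i + j : ℕ) : ZMod p) * d) *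
      ind B (x + ((i + 2 * j : ℕ) : ZMod p) * d) := by
  classical
  have hnn : ∀ i j : ℕ, 0 ≤ ind B (x + i * d) * ind B (x + ((i + j : ℕ) : ZMod p) * d) *
      ind B (x + ((i + 2 * j : ℕ) : ZMod p) * d) := fun i j =>
    mul_nonneg (mul_nonneg (ind_nonneg _ _) (ind_nonneg _ _)) (ind_nonneg _ _)
  have hS0 : 0 ≤ ∑ i ∈ range L, ∑ j ∈ Ico 1 L,
      ind B (x + i * d) * ind B (x + ((i + j : ℕ) : ZMod p) * d) *
      ind B (x + ((i + 2 * j : ℕ) : ZMod p) * d) :=
    Finset.sum_nonneg fun i _ => Finset.sum_nonneg fun j _ => hnn i j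
  set I : Finset ℕ := (range L).filter (fun i => x + i * d ∈ B) with hI
  have hcard : ∑ i ∈ range L, ind B (x + i * d) = I.card := by
    simp only [ind_eq]
    rw [Finset.sum_boole]
  have hIL : (I.card : ℝ) ≤ L := by
    have : I.card ≤ (range L).card := Finset.card_filter_le _ _
    rw [card_range] at this
    exact_mod_cast this
  rw [hcard]
  by_cases hc : δ / 2 * L ≤ I.card
  · obtain ⟨i, j, hj1, hiL, hjL, h1, h2, h3⟩ := hL I (Finset.filter_subset _ _) hc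
    have m1 := (Finset.mem_filter.mp h1).2
    have m2 := (Finset.mem_filter.mp h2).2
    have m3 := (Finset.mem_filter.mp h3).2
    have hone : (1 : ℝ) ≤ ∑ i ∈ range L, ∑ j ∈ Ico 1 L,
        ind B (x + i * d) * ind B (x + ((i + j : ℕ) : ZMod p) * d) *
        ind B (x + ((i + 2 * j : ℕ) : ZMod p) * d) := by
      calc (1 : ℝ) = ind B (x + i * d) * ind B (x + ((i + j : ℕ) : ZMod p) * d) *
            ind B (x + ((i + 2 * j : ℕ) : ZMod p) * d) := by
            rw [ind_mem B m1, ind_mem B m2, ind_mem B m3]; norm_num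
        _ ≤ ∑ j ∈ Ico 1 L, ind B (x + i * d) * ind B (x + ((i + j : ℕ) : ZMod p) * d) *
            ind B (x + ((i + 2 * j : ℕ) : ZMod p) * d) :=
            Finset.single_le_sum (f := fun j : ℕ => ind B (x + i * d) *
              ind B (x + ((i + j : ℕ) : ZMod p) * d) *
              ind B (x + ((i + 2 * j : ℕ) : ZMod p) * d)) (fun j _ => hnn i j)
              (Finset.mem_Ico.mpr ⟨hj1, hjL⟩)
        _ ≤ _ :=
            Finset.single_le_sum (f := fun i : ℕ => ∑ j ∈ Ico 1 L, ind B (x + i * d) *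
              ind B (x + ((i + j : ℕ) : ZMod p) * d) *
              ind B (x + ((i + 2 * j : ℕ) : ZMod p) * d))
              (fun i _ => Finset.sum_nonneg fun j _ => hnn i j) (Finset.mem_range.mpr hiL)
    have hL0 : (0 : ℝ) ≤ L := by positivity
    have h5 : (L : ℝ) * 1 ≤ L * ∑ i ∈ range L, ∑ j ∈ Ico 1 L,
        ind B (x + i * d) * ind B (x + ((i + j : ℕ) : ZMod p) * d) *
        ind B (x + ((i + 2 * j : ℕ) : ZMod p) * d) := mul_le_mul_of_nonneg_left hone hL0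
    have h6 : 0 ≤ δ / 2 * L := by positivity
    linarith
  · push Not at hc
    have h5 : (0 : ℝ) ≤ L * ∑ i ∈ range L, ∑ j ∈ Ico 1 L,
        ind B (x + i * d) * ind B (x + ((i + j : ℕ) : ZMod p) * d) *
        ind B (x + ((i + 2 * j : ℕ) : ZMod p) * d) := mul_nonneg (by positivity) hS0
    linarith

theorem fixed {p : ℕ} [Fact p.Prime] (δ : ℝ) (hδ : 0 < δ) (L : ℕ) (hL2 : 2 ≤ L)
    (hL : ∀ I : Finset ℕ, I ⊆ range L →
    δ / 2 * L ≤ I.card → ∃ i j : ℕ, 1 ≤ j ∧ i < L ∧ j < L ∧ i ∈ I ∧ i + j ∈ I ∧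
      i + 2 * j ∈ I) (B : Finset (ZMod p)) (hB : δ * p ≤ B.card) (d : ZMod p) :
    δ / 2 * p ≤ L * ∑ j ∈ Ico 1 L, T B d j := by
  have hLpos : (0 : ℝ) < L := by
    have : 0 < L := by omega
    exact_mod_cast this
  have h1 := Finset.sum_le_sum (fun x (_ : x ∈ (univ : Finset (ZMod p))) =>
    point δ hδ L hL B d x)
  have h2 : ∑ x : ZMod p, ∑ i ∈ range L, ind B (x + i * d) = L * B.card := by
    rw [Finset.sum_comm]
    rw [Finset.sum_congr rfl (fun i _ => sum_ind B (((i : ℕ) : ZMod p) * d)), Finset.sum_const,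
      card_range, nsmul_eq_mul]
  have h3 : ∑ x : ZMod p, (δ / 2 * L + L * ∑ i ∈ range L, ∑ j ∈ Ico 1 L,
      ind B (x + i * d) * ind B (x + ((i + j : ℕ) : ZMod p) * d) *
      ind B (x + ((i + 2 * j : ℕ) : ZMod p) * d)) =
      p * (δ / 2 * L) + L * (L * ∑ j ∈ Ico 1 L, T B d j) := by
    rw [Finset.sum_add_distrib, Finset.sum_const, Finset.card_univ, ZMod.card, nsmul_eq_mul,
      ← Finset.mul_sum]
    congr 2
    rw [Finset.sum_comm]
    have h4 : ∀ i ∈ range L, ∑ x : ZMod p, ∑ j ∈ Ico 1 L,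
        ind B (x + i * d) * ind B (x + ((i + j : ℕ) : ZMod p) * d) *
        ind B (x + ((i + 2 * j : ℕ) : ZMod p) * d) = ∑ j ∈ Ico 1 L, T B d j := by
      intro i _
      rw [Finset.sum_comm]
      exact Finset.sum_congr rfl fun j _ => shift B d i j
    rw [Finset.sum_congr rfl h4, Finset.sum_const, card_range, nsmul_eq_mul]
  rw [h2, h3] at h1
  have h5 : (L : ℝ) * (δ * p) ≤ L * B.card := mul_le_mul_of_nonneg_left hB hLpos.le
  have h6 : (L : ℝ) * (δ / 2 * p) ≤ L * (L * ∑ j ∈ Ico 1 L, T B d j) := by nlinarith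
  exact le_of_mul_le_mul_left h6 hLpos

end VAR

theorem t_VAR : S_VAR := by
  intro δ hδ
  obtain ⟨L, hL2, hL⟩ := VAR.roth δ hδ
  have hLpos : (0 : ℝ) < L := by
    have : 0 < L := by omega
    exact_mod_cast this
  refine ⟨L, δ / (2 * L ^ 2), hL2, by positivity, ?_⟩
  intro p _ hp B hB w hw
  have hW : 0 ≤ ∑ d, w d := Finset.sum_nonneg fun d _ => hw d
  -- multiply by the weight and sum
  have h1 : ∑ j ∈ Ico 1 L, (δ / (2 * L ^ 2) * p * ∑ d, w d) ≤
      ∑ j ∈ Ico 1 L, ∑ d, w d * VAR.T B d j := by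
    rw [Finset.sum_const, Nat.card_Ico, nsmul_eq_mul]
    have h2 : δ / 2 * p * ∑ d, w d ≤ L * ∑ j ∈ Ico 1 L, ∑ d, w d * VAR.T B d j := by
      rw [Finset.sum_comm, Finset.mul_sum, Finset.mul_sum]
      refine Finset.sum_le_sum fun d _ => ?_
      rw [← Finset.mul_sum]
      have h3 := mul_le_mul_of_nonneg_left (VAR.fixed δ hδ L hL2 hL B hB d) (hw d)
      calc δ / 2 * p * w d = w d * (δ / 2 * p) := by ring
        _ ≤ w d * (L * ∑ j ∈ Ico 1 L, VAR.T B d j) := h3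
        _ = L * (w d * ∑ j ∈ Ico 1 L, VAR.T B d j) := by ring
    have h4 : ((L - 1 : ℕ) : ℝ) ≤ L := by
      have : L - 1 ≤ L := Nat.sub_le _ _
      exact_mod_cast this
    have h5 : (0 : ℝ) ≤ δ / (2 * L ^ 2) * p * ∑ d, w d := by positivity
    have h6 : ((L - 1 : ℕ) : ℝ) * (δ / (2 * L ^ 2) * p * ∑ d, w d) ≤
        L * (δ / (2 * L ^ 2) * p * ∑ d, w d) := mul_le_mul_of_nonneg_right h4 h5
    have h7 : L * (δ / (2 * L ^ 2) * p * ∑ d, w d) = (δ / 2 * p * ∑ d, w d) / L := by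
      field_simp
    have h8 : (δ / 2 * p * ∑ d, w d) / L ≤ ∑ j ∈ Ico 1 L, ∑ d, w d * VAR.T B d j := by
      rw [div_le_iff₀ hLpos, mul_comm]
      linarith
    linarith
  obtain ⟨j, hj, hle⟩ := Finset.exists_le_of_sum_le ⟨1, Finset.mem_Ico.mpr ⟨le_rfl, by omega⟩⟩ h1
  rw [Finset.mem_Ico] at hj
  refine ⟨j, hj.1, hj.2, hle.trans (le_of_eq ?_)⟩
  unfold VAR.T
  rw [Finset.sum_comm]
  refine Finset.sum_congr rfl fun d _ => ?_
  rw [Finset.mul_sum]

end Pool.Agent.H505PP
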