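import Pool.Agent.H505PP.Defs

set_option autoImplicit false

noncomputable section

namespace Pool.Agent.H505PP

open scoped BigOperators ENNReal Topology
open Finset Filter MeasureTheory

namespace WE

theorem FKc (D : ℕ) (t : ℝ) : ((FK D t : ℝ) : ℂ) = ∑ m ∈ Icc (-(D : ℤ)) D,
    ((1 - |(m : ℝ)| / (D + 1) : ℝ) : ℂ) *
      Complex.exp (2 * Real.pi * Complex.I * (m : ℂ) * (t : ℂ)) := by
  have h : ∑ m ∈ Icc (-(D : ℤ)) D, ((1 - |(m : ℝ)| / (D + 1) : ℝ) : ℂ) *
        Complex.exp (2 * Real.pi * Complex.I * (m : ℂ) * (t : ℂ)) =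
      ∑ m ∈ Icc (-(D : ℤ)) D, ((1 - |(m : ℝ)| / (D + 1) : ℝ) : ℂ) *
        Complex.exp (-(2 * Real.pi * Complex.I * (m : ℂ) * (t : ℂ))) := by
    apply Finset.sum_nbij' (fun m => -m) (fun m => -m)
    · intro m hm
      simp only [Finset.mem_Icc] at hm ⊢
      omega
    · intro m hm
      simp only [Finset.mem_Icc] at hm ⊢
      omega
    · intro m _
      exact neg_neg m
    · intro m _
      exact neg_neg m
    · intro m _
      have h1 : |((-m : ℤ) : ℝ)| = |(m : ℝ)| := by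
        push_cast
        exact abs_neg _
      have h2 : -(2 * (Real.pi : ℂ) * Complex.I * ((-m : ℤ) : ℂ) * (t : ℂ)) =
          2 * (Real.pi : ℂ) * Complex.I * (m : ℂ) * (t : ℂ) := by
        push_cast
        ring
      rw [h1, h2]
  have h2 : ((FK D t : ℝ) : ℂ) = ∑ m ∈ Icc (-(D : ℤ)) D,
      ((1 - |(m : ℝ)| / (D + 1) : ℝ) : ℂ) *
        ((Complex.exp (2 * Real.pi * Complex.I * (m : ℂ) * (t : ℂ)) +
          Complex.exp (-(2 * Real.pi * Complex.I * (m : ℂ) * (t : ℂ)))) / 2) := by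
    unfold FK
    rw [Complex.ofReal_sum]
    refine Finset.sum_congr rfl fun m _ => ?_
    rw [Complex.ofReal_mul, Complex.ofReal_cos, Complex.cos]
    have e1 : ((2 * Real.pi * (m : ℝ) * t : ℝ) : ℂ) * Complex.I =
        2 * Real.pi * Complex.I * (m : ℂ) * (t : ℂ) := by
      push_cast
      ring
    rw [neg_mul, e1]
  rw [h2]
  have h3 : ∀ m : ℤ, ((1 - |(m : ℝ)| / (D + 1) : ℝ) : ℂ) *
        ((Complex.exp (2 * Real.pi * Complex.I * (m : ℂ) * (t : ℂ)) +
          Complex.exp (-(2 * Real.pi * Complex.I * (m : ℂ) * (t : ℂ)))) / 2) =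
      1 / 2 * (((1 - |(m : ℝ)| / (D + 1) : ℝ) : ℂ) *
        Complex.exp (2 * Real.pi * Complex.I * (m : ℂ) * (t : ℂ))) +
      1 / 2 * (((1 - |(m : ℝ)| / (D + 1) : ℝ) : ℂ) *
        Complex.exp (-(2 * Real.pi * Complex.I * (m : ℂ) * (t : ℂ)))) := by
    intro m
    ring
  rw [Finset.sum_congr rfl fun m _ => h3 m, Finset.sum_add_distrib, ← Finset.mul_sum,
    ← Finset.mul_sum, ← h]
  ring

theorem e_term {p : ℕ} [NeZero p] (m : ℤ) (b : ZMod p) :
    (e ((m : ZMod p) * b) : ℂ) =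
      Complex.exp (2 * Real.pi * Complex.I * (m : ℂ) * (((b.val : ℕ) : ℂ) / (p : ℂ))) := by
  have h1 : (m : ZMod p) * b = ((m * (b.val : ℤ) : ℤ) : ZMod p) := by
    push_cast
    rw [ZMod.natCast_zmod_val]
  rw [h1]
  unfold e
  rw [ZMod.stdAddChar_coe]
  congr 1
  push_cast
  ring

theorem e_sum {p k : ℕ} [NeZero p] (f : Fin k → ZMod p) (s : Finset (Fin k)) :
    (e (∑ l ∈ s, f l) : ℂ) = ∏ l ∈ s, e (f l) := by
  induction s using Finset.induction_on with
  | empty =>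
    rw [Finset.sum_empty, Finset.prod_empty]
    exact AddChar.map_zero_eq_one _
  | insert b s hb ih =>
    rw [Finset.sum_insert hb, Finset.prod_insert hb, ← ih]
    exact AddChar.map_add_eq_mul _ _ _

end WE

theorem t_WE : S_WE := by
  intro p _ k D a θ d
  unfold wt
  rw [Complex.ofReal_prod]
  simp only [WE.FKc]
  rw [Finset.prod_univ_sum]
  unfold bx
  refine Finset.sum_congr rfl fun ξ _ => ?_
  rw [Finset.prod_mul_distrib]
  unfold hw
  rw [Complex.ofReal_prod, mul_assoc _ (ph ξ θ) _]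
  congr 1
  have hdt : dt ξ a * d ^ 2 = ∑ l, (ξ l : ZMod p) * (a l * d ^ 2) := by
    unfold dt
    rw [Finset.sum_mul]
    exact Finset.sum_congr rfl fun l _ => by ring
  have he : (e (dt ξ a * d ^ 2) : ℂ) = ∏ l, e ((ξ l : ZMod p) * (a l * d ^ 2)) := by
    rw [hdt]
    exact WE.e_sum _ _
  have hph : ph ξ θ = ∏ l, Complex.exp (-(2 * Real.pi * Complex.I * ((ξ l : ℂ) * (θ l : ℂ)))) := by
    unfold ph
    rw [← Complex.exp_sum, Finset.sum_neg_distrib, ← Finset.mul_sum]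
  rw [he, hph, ← Finset.prod_mul_distrib]
  refine Finset.prod_congr rfl fun l _ => ?_
  rw [WE.e_term, ← Complex.exp_add]
  congr 1
  push_cast
  ring

end Pool.Agent.H505PP
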